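import Mathlib

open Finset

namespace Pool.Agent.H73.BrChoose

theorem choose_sum_le (b k : ℕ) (hk : 1 ≤ k) :
    ∑ i ∈ range (b + 1), ((k * b).choose i : ℝ) ≤ (Real.exp 1 * k) ^ b := by
  have hk0 : (0 : ℝ) < k := by exact_mod_cast hk
  have hk1 : (1 : ℝ) ≤ k := by exact_mod_cast hk
  have h1 : ∑ i ∈ range (b + 1), ((k * b).choose i : ℝ) ≤
      ∑ i ∈ range (b + 1), (k : ℝ) ^ b * ((1 / (k : ℝ)) ^ i * ((k * b).choose i : ℝ)) := by
    refine sum_le_sum fun i hi => ?_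
    have hib : i ≤ b := Nat.lt_succ_iff.1 (mem_range.1 hi)
    have h2 : (1 : ℝ) ≤ (k : ℝ) ^ b * (1 / (k : ℝ)) ^ i := by
      obtain ⟨d, rfl⟩ := Nat.exists_eq_add_of_le hib
      have h3 : (k : ℝ) ^ (i + d) * (1 / (k : ℝ)) ^ i = (k : ℝ) ^ d := by
        rw [pow_add, one_div, inv_pow]
        field_simp
      rw [h3]
      exact one_le_pow₀ hk1
    have h4 : (0 : ℝ) ≤ ((k * b).choose i : ℝ) := Nat.cast_nonneg _
    rw [← mul_assoc]
    nlinarith
  refine h1.trans ?_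
  rw [← mul_sum]
  have h5 : ∑ i ∈ range (b + 1), ((1 / (k : ℝ)) ^ i * ((k * b).choose i : ℝ)) ≤
      (1 / (k : ℝ) + 1) ^ (k * b) := by
    rw [add_pow]
    simp only [one_pow, mul_one]
    apply sum_le_sum_of_subset_of_nonneg
    · intro i hi
      rw [mem_range] at hi ⊢
      have : b ≤ k * b := Nat.le_mul_of_pos_left b hk
      omega
    · intro i _ _
      positivity
  have h6 : (1 / (k : ℝ) + 1) ^ (k * b) ≤ Real.exp 1 ^ b := by
    rw [pow_mul]
    apply pow_le_pow_left₀ (by positivity)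
    calc (1 / (k : ℝ) + 1) ^ k ≤ (Real.exp (1 / k)) ^ k :=
          pow_le_pow_left₀ (by positivity) (Real.add_one_le_exp _) k
      _ = Real.exp 1 := by
          rw [← Real.exp_nat_mul]
          congr 1
          field_simp
  calc (k : ℝ) ^ b * ∑ i ∈ range (b + 1), ((1 / (k : ℝ)) ^ i * ((k * b).choose i : ℝ))
      ≤ (k : ℝ) ^ b * Real.exp 1 ^ b := by
        apply mul_le_mul_of_nonneg_left (h5.trans h6) (by positivity)
    _ = (Real.exp 1 * k) ^ b := by rw [mul_pow]; ring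

end Pool.Agent.H73.BrChoose
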