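import Pool.Agent.H73.BrDual

/-!
# A finite set `Y` and bounded breadth: few meets, few classes

`L` is a finite lattice of breadth at most `b`, `Y` is a set of elements.  For `m` in `L` let
`g m` be the meet of the elements of `Y` above `m`.  Then there are at most `(|Y| + 1) ^ b`
elements `g m`, and the map `cls x = sup {g m : g m ≤ x}` has at most
`((|Y| + 1) ^ b + 1) ^ b` values; `cls x` knows which `g m` are below `x`.
-/

namespace Pool.Agent.H73.BrCls

open Classical in
theorem inf_mem {L : Type*} [Lattice L] [BoundedOrder L] (b : ℕ) (S T : Finset L) (hTS : T ⊆ S)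
    (hT : T.card ≤ b) :
    T.inf id ∈ (Fintype.piFinset (fun _ : Fin b => insert ⊤ S)).image
      (fun f => Finset.univ.inf f) := by
  rw [Finset.mem_image]
  refine ⟨fun i => if h : i.val < T.card then ((T.equivFin.symm ⟨i.val, h⟩ : T) : L) else ⊤,
    ?_, ?_⟩
  · rw [Fintype.mem_piFinset]
    intro i
    by_cases h : i.val < T.card
    · rw [dif_pos h]
      exact Finset.mem_insert_of_mem (hTS (T.equivFin.symm ⟨i.val, h⟩).2)
    · rw [dif_neg h]
      exact Finset.mem_insert_self _ _
  · apply le_antisymm
    · apply Finset.le_inf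
      intro t ht
      have hlt : (T.equivFin ⟨t, ht⟩).val < b := lt_of_lt_of_le (T.equivFin ⟨t, ht⟩).2 hT
      refine (Finset.inf_le (Finset.mem_univ (⟨(T.equivFin ⟨t, ht⟩).val, hlt⟩ : Fin b))).trans ?_
      rw [dif_pos (T.equivFin ⟨t, ht⟩).2]
      simp
    · apply Finset.le_inf
      intro i _
      by_cases h : i.val < T.card
      · rw [dif_pos h]
        exact Finset.inf_le (f := id) (T.equivFin.symm ⟨i.val, h⟩).2
      · rw [dif_neg h]
        exact le_top

open Classical in
theorem sup_mem {L : Type*} [Lattice L] [BoundedOrder L] (b : ℕ) (S T : Finset L) (hTS : T ⊆ S)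
    (hT : T.card ≤ b) :
    T.sup id ∈ (Fintype.piFinset (fun _ : Fin b => insert ⊥ S)).image
      (fun f => Finset.univ.sup f) := by
  rw [Finset.mem_image]
  refine ⟨fun i => if h : i.val < T.card then ((T.equivFin.symm ⟨i.val, h⟩ : T) : L) else ⊥,
    ?_, ?_⟩
  · rw [Fintype.mem_piFinset]
    intro i
    by_cases h : i.val < T.card
    · rw [dif_pos h]
      exact Finset.mem_insert_of_mem (hTS (T.equivFin.symm ⟨i.val, h⟩).2)
    · rw [dif_neg h]
      exact Finset.mem_insert_self _ _
  · apply le_antisymm
    · apply Finset.sup_le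
      intro i _
      by_cases h : i.val < T.card
      · rw [dif_pos h]
        exact Finset.le_sup (f := id) (T.equivFin.symm ⟨i.val, h⟩).2
      · rw [dif_neg h]
        exact bot_le
    · apply Finset.sup_le
      intro t ht
      have hlt : (T.equivFin ⟨t, ht⟩).val < b := lt_of_lt_of_le (T.equivFin ⟨t, ht⟩).2 hT
      refine le_trans ?_
        (Finset.le_sup (Finset.mem_univ (⟨(T.equivFin ⟨t, ht⟩).val, hlt⟩ : Fin b)))
      rw [dif_pos (T.equivFin ⟨t, ht⟩).2]
      simp

open Classical in
theorem card_aux {L : Type*} (b : ℕ) (S : Finset L) (z : L) (F : (Fin b → L) → L) :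
    ((Fintype.piFinset (fun _ : Fin b => insert z S)).image F).card ≤ (S.card + 1) ^ b := by
  refine Finset.card_image_le.trans ?_
  rw [Fintype.card_piFinset]
  simp only [Finset.prod_const, Finset.card_univ, Fintype.card_fin]
  exact Nat.pow_le_pow_left (Finset.card_insert_le z S) b

open Classical in
theorem classes {L : Type*} [Lattice L] [BoundedOrder L] [Fintype L] (b : ℕ)
    (h : ∀ S : Finset L, ∃ T ⊆ S, T.card ≤ b ∧ T.sup id = S.sup id) (Y : Finset L) :
    ∃ cls : L → L,
      (∀ x x', cls x = cls x' → ∀ m : L,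
        ((Y.filter (fun y => m ≤ y)).inf id ≤ x ↔ (Y.filter (fun y => m ≤ y)).inf id ≤ x')) ∧
      ((Finset.univ : Finset L).image cls).card ≤ ((Y.card + 1) ^ b + 1) ^ b := by
  have hd := BrDual.breadth_dual b h
  set G : Finset L := (Fintype.piFinset (fun _ : Fin b => insert ⊤ Y)).image
      (fun f => Finset.univ.inf f) with hG
  have hgG : ∀ m : L, (Y.filter (fun y => m ≤ y)).inf id ∈ G := by
    intro m
    obtain ⟨T, hTS, hTb, hT⟩ := hd (Y.filter (fun y => m ≤ y))
    rw [← hT]
    exact inf_mem b Y T (hTS.trans (Finset.filter_subset _ _)) hTb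
  have hGcard : G.card ≤ (Y.card + 1) ^ b := card_aux b Y ⊤ _
  refine ⟨fun x => (G.filter (fun g => g ≤ x)).sup id, ?_, ?_⟩
  · have key : ∀ x g : L, g ∈ G → (g ≤ x ↔ g ≤ (G.filter (fun g => g ≤ x)).sup id) := by
      intro x g hg
      constructor
      · intro hgx
        exact Finset.le_sup (f := id) (Finset.mem_filter.2 ⟨hg, hgx⟩)
      · intro hgx
        refine hgx.trans (Finset.sup_le ?_)
        intro g' hg'
        exact (Finset.mem_filter.1 hg').2
    intro x x' hxx m
    have hxx' : (G.filter (fun g => g ≤ x)).sup id = (G.filter (fun g => g ≤ x')).sup id := hxx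
    rw [key x _ (hgG m), key x' _ (hgG m), hxx']
  · have hsub : (Finset.univ : Finset L).image (fun x => (G.filter (fun g => g ≤ x)).sup id) ⊆
        (Fintype.piFinset (fun _ : Fin b => insert ⊥ G)).image (fun f => Finset.univ.sup f) := by
      intro s hs
      obtain ⟨x, _, rfl⟩ := Finset.mem_image.1 hs
      obtain ⟨T, hTS, hTb, hT⟩ := h (G.filter (fun g => g ≤ x))
      show (G.filter (fun g => g ≤ x)).sup id ∈ _
      rw [← hT]
      exact sup_mem b G T (hTS.trans (Finset.filter_subset _ _)) hTb
    refine (Finset.card_le_card hsub).trans ((card_aux b G ⊥ _).trans ?_)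
    exact Nat.pow_le_pow_left (Nat.succ_le_succ hGcard) b

end Pool.Agent.H73.BrCls
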