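import Mathlib

open Finset

namespace Pool.Agent.H73.BrDual

/-- Breadth is self-dual. -/
theorem breadth_dual {L : Type*} [Lattice L] [BoundedOrder L] (b : ℕ)
    (h : ∀ S : Finset L, ∃ T ⊆ S, T.card ≤ b ∧ T.sup id = S.sup id) :
    ∀ S : Finset L, ∃ T ⊆ S, T.card ≤ b ∧ T.inf id = S.inf id := by
  classical
  intro S
  have hne : (S.powerset.filter fun T => T.inf id = S.inf id).Nonempty :=
    ⟨S, by simp⟩
  obtain ⟨T, hT, hmin⟩ := Finset.exists_min_image _ Finset.card hne
  rw [Finset.mem_filter, Finset.mem_powerset] at hT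
  refine ⟨T, hT.1, ?_, hT.2⟩
  by_contra hcard
  push Not at hcard
  let s : L → L := fun t => (T.erase t).inf id
  have hs1 : ∀ t ∈ T, ¬ s t ≤ t := by
    intro t ht hle
    have h1 : (T.erase t).inf id = S.inf id := by
      rw [← hT.2]
      refine le_antisymm ?_ (Finset.inf_mono (Finset.erase_subset _ _))
      refine Finset.le_inf fun x hx => ?_
      by_cases hxt : x = t
      · rw [hxt]; exact hle
      · exact Finset.inf_le (f := id) (Finset.mem_erase.2 ⟨hxt, hx⟩)
    have h2 := hmin (T.erase t) (by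
      rw [Finset.mem_filter, Finset.mem_powerset]
      exact ⟨(Finset.erase_subset _ _).trans hT.1, h1⟩)
    exact absurd (Finset.card_erase_lt_of_mem ht) (not_lt.2 h2)
  have hs2 : ∀ t ∈ T, ∀ t' ∈ T, t ≠ t' → s t ≤ t' := by
    intro t _ t' ht' hne
    exact Finset.inf_le (f := id) (Finset.mem_erase.2 ⟨hne.symm, ht'⟩)
  have hinj : Set.InjOn s (T : Set L) := by
    intro t ht t' ht' heq
    by_contra hne
    exact hs1 t ht (heq ▸ hs2 t' ht' t ht (Ne.symm hne))
  obtain ⟨T', hT'1, hT'2, hT'3⟩ := h (T.image s)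
  have hcard2 : T'.card < (T.image s).card := by
    rw [Finset.card_image_of_injOn hinj]
    exact lt_of_le_of_lt hT'2 hcard
  obtain ⟨y, hy, hyT'⟩ := Finset.exists_mem_notMem_of_card_lt_card hcard2
  rw [Finset.mem_image] at hy
  obtain ⟨t, ht, rfl⟩ := hy
  refine hs1 t ht ?_
  calc s t ≤ (T.image s).sup id := Finset.le_sup (f := id) (Finset.mem_image_of_mem s ht)
    _ = T'.sup id := hT'3.symm
    _ ≤ t := by
      refine Finset.sup_le fun y hy => ?_
      have := hT'1 hy
      rw [Finset.mem_image] at this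
      obtain ⟨t', ht', rfl⟩ := this
      refine hs2 t' ht' t ht ?_
      rintro rfl
      exact hyT' hy

end Pool.Agent.H73.BrDual
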