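import Mathlib

open Finset

namespace Pool.Agent.H73.BrLoo

open Classical in
theorem loo {L : Type*} [Lattice L] [BoundedOrder L] {ι : Type*} [Fintype ι] [DecidableEq ι]
    (j : ι → L) (b n : ℕ)
    (hb : ∀ S : Finset L, (∀ a ∈ S, ∃ m, a = j m) → ∃ T ⊆ S, T.card ≤ b ∧ T.sup id = S.sup id)
    (ν : ι → ℝ) (hν0 : ∀ m, 0 ≤ ν m) (hν1 : ∑ m, ν m = 1) (y : L) :
    ((n : ℝ) + 1) * ∑ S : Fin n → ι, (∏ i, ν (S i)) *
      ∑ m, ν m * (if j m ≤ y ∧ ¬ j m ≤ (univ.filter (fun i => j (S i) ≤ y)).sup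
        (fun i => j (S i)) then 1 else 0) ≤ b := by
  set F : ι → (Fin n → ι) → ℝ := fun m S =>
    if j m ≤ y ∧ ¬ j m ≤ (univ.filter (fun i => j (S i) ≤ y)).sup (fun i => j (S i))
      then 1 else 0 with hF
  -- at most `b` of the `n + 1` samples are new
  have key : ∀ R : Fin (n + 1) → ι, ∑ p, F (R p) (p.removeNth R) ≤ b := by
    intro R
    set I : Finset (Fin (n + 1)) := univ.filter fun p => j (R p) ≤ y ∧
      ¬ j (R p) ≤ (univ.filter (fun i => j (p.removeNth R i) ≤ y)).sup
        (fun i => j (p.removeNth R i)) with hI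
    have h1 : ∑ p, F (R p) (p.removeNth R) = (I.card : ℝ) := by
      simp only [hF]
      rw [sum_boole]
    rw [h1]
    have hle : ∀ p ∈ I, ∀ p' ∈ I, p' ≠ p → j (R p') ≤
        (univ.filter (fun i => j (p.removeNth R i) ≤ y)).sup
        (fun i => j (p.removeNth R i)) := by
      intro p _ p' hp' hne
      obtain ⟨i, hi⟩ := Fin.exists_succAbove_eq hne
      have h2 : p.removeNth R i = R p' := by
        rw [Fin.removeNth_apply, hi]
      have h3 : j (R p') ≤ y := (mem_filter.1 hp').2.1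
      have h4 : i ∈ univ.filter (fun i => j (p.removeNth R i) ≤ y) := by
        rw [mem_filter, h2]
        exact ⟨mem_univ _, h3⟩
      have h5 := Finset.le_sup (f := fun i => j (p.removeNth R i)) h4
      rwa [h2] at h5
    have hinj : Set.InjOn (fun p => j (R p)) (I : Set (Fin (n + 1))) := by
      intro p hp p' hp' heq
      by_contra hne
      have h2 := hle p (mem_coe.1 hp) p' (mem_coe.1 hp') (Ne.symm hne)
      have h3 := (mem_filter.1 (mem_coe.1 hp)).2.2
      simp only at heq
      rw [heq] at h3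
      exact h3 h2
    obtain ⟨T, hTS, hTb, hT⟩ := hb (I.image fun p => j (R p)) (by
      intro a ha
      obtain ⟨p, _, rfl⟩ := mem_image.1 ha
      exact ⟨R p, rfl⟩)
    by_contra hcon
    push Not at hcon
    have hcard : T.card < (I.image fun p => j (R p)).card := by
      rw [card_image_of_injOn hinj]
      have : b < I.card := by exact_mod_cast hcon
      omega
    obtain ⟨x, hx, hxT⟩ := exists_mem_notMem_of_card_lt_card hcard
    obtain ⟨p, hp, rfl⟩ := mem_image.1 hx
    refine (mem_filter.1 hp).2.2 ?_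
    have h2 : j (R p) ≤ T.sup id := by
      rw [hT]
      exact Finset.le_sup (f := id) hx
    refine h2.trans (Finset.sup_le ?_)
    intro t ht
    obtain ⟨p', hp', rfl⟩ := mem_image.1 (hTS ht)
    refine hle p hp p' hp' ?_
    rintro rfl
    exact hxT ht
  -- exchangeability
  have hex : ∀ p : Fin (n + 1), ∑ R : Fin (n + 1) → ι, (∏ i, ν (R i)) * F (R p) (p.removeNth R) =
      ∑ S : Fin n → ι, (∏ i, ν (S i)) * ∑ m, ν m * F m S := by
    intro p
    rw [← Equiv.sum_comp (Fin.insertNthEquiv (fun _ => ι) p), Fintype.sum_prod_type, sum_comm]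
    refine sum_congr rfl fun S _ => ?_
    rw [mul_sum]
    refine sum_congr rfl fun m _ => ?_
    have h1 : (Fin.insertNthEquiv (fun _ => ι) p) (m, S) = Fin.insertNth (α := fun _ => ι) p m S :=
      rfl
    rw [h1, Fin.prod_univ_succAbove _ p, Fin.removeNth_insertNth (α := fun _ => ι) p m S]
    simp only [Fin.insertNth_apply_same, Fin.insertNth_apply_succAbove]
    ring
  have htot : ∑ R : Fin (n + 1) → ι, (∏ i, ν (R i)) = 1 := by
    rw [← Fintype.sum_pow, hν1, one_pow]
  calc ((n : ℝ) + 1) * ∑ S : Fin n → ι, (∏ i, ν (S i)) * ∑ m, ν m * F m S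
      = ∑ p : Fin (n + 1), ∑ R : Fin (n + 1) → ι, (∏ i, ν (R i)) * F (R p) (p.removeNth R) := by
        simp only [hex]
        simp
    _ = ∑ R : Fin (n + 1) → ι, (∏ i, ν (R i)) * ∑ p, F (R p) (p.removeNth R) := by
        rw [sum_comm]
        refine sum_congr rfl fun R _ => ?_
        rw [mul_sum]
    _ ≤ ∑ R : Fin (n + 1) → ι, (∏ i, ν (R i)) * b := by
        refine sum_le_sum fun R _ => mul_le_mul_of_nonneg_left (key R) ?_
        exact prod_nonneg fun i _ => hν0 _
    _ = b := by rw [← sum_mul, htot, one_mul]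

end Pool.Agent.H73.BrLoo
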