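import Pool.Agent.H62.BrMax
import Pool.Agent.H38.BR.Hit

/-!
# Two nested scales of heads with few classes
-/

namespace Pool.Agent.H73.BrTwo

section
variable {L : Type*} [Lattice L] [BoundedOrder L]

open Classical in
/-- The head of `m`: the join of the elements of `Mx` below every `y ∈ Y` above `m`. -/
noncomputable def hd (Mx Y : Finset L) (m : L) : L :=
  (Mx.filter (fun m' => ∀ y ∈ Y, m ≤ y → m' ≤ y)).sup id

theorem le_hd (Mx Y : Finset L) (m : L) (hm : m ∈ Mx) : m ≤ hd Mx Y m := by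
  classical
  exact Finset.le_sup (f := id) (Finset.mem_filter.2 ⟨hm, fun y _ hmy => hmy⟩)

theorem hd_le (Mx Y : Finset L) (m y : L) (hy : y ∈ Y) (hmy : m ≤ y) : hd Mx Y m ≤ y := by
  classical
  refine Finset.sup_le ?_
  intro m' hm'
  exact (Finset.mem_filter.1 hm').2 y hy hmy

theorem hd_join (Mx Y : Finset L) (m : L) : ∃ A ⊆ Mx, hd Mx Y m = A.sup id := by
  classical
  exact ⟨_, Finset.filter_subset _ _, rfl⟩

open Classical in
theorem hd_card [Fintype L] (b : ℕ) (Mx : Finset L)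
    (h : ∀ A ⊆ Mx, ∃ B ⊆ A, B.card ≤ b ∧ B.sup id = A.sup id) (Y : Finset L) :
    ∃ G : Finset L, (∀ m, hd Mx Y m ∈ G) ∧ G.card ≤ (Y.card + 1) ^ b ∧
      ∀ u ∈ G, ∃ A ⊆ Mx, u = A.sup id := by
  set val : (Fin b → L) → L := fun f => (Mx.filter (fun m' => ∀ i, m' ≤ f i)).sup id with hval
  set G : Finset L := (Fintype.piFinset (fun _ : Fin b => insert ⊤ Y)).image val with hG
  refine ⟨G, ?_, H73.BrCls.card_aux b Y ⊤ _, ?_⟩
  · intro m
    obtain ⟨T, hTS, hTb, hT⟩ := H62.BrMax.few_bounds b Mx h (Y.filter (fun y => m ≤ y))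
    rw [hG, Finset.mem_image]
    obtain ⟨f, hf⟩ : ∃ f : Fin b → L, ∀ i, f i =
        if h : i.val < T.card then ((T.equivFin.symm ⟨i.val, h⟩ : T) : L) else ⊤ :=
      ⟨_, fun _ => rfl⟩
    refine ⟨f, ?_, ?_⟩
    · rw [Fintype.mem_piFinset]
      intro i
      rw [hf]
      by_cases h : i.val < T.card
      · rw [dif_pos h]
        exact Finset.mem_insert_of_mem
          (Finset.filter_subset _ _ (hTS (T.equivFin.symm ⟨i.val, h⟩).2))
      · rw [dif_neg h]
        exact Finset.mem_insert_self _ _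
    · have hfe : Mx.filter (fun m' => ∀ i, m' ≤ f i) =
          Mx.filter (fun m' => ∀ y ∈ Y, m ≤ y → m' ≤ y) := by
        ext m'
        simp only [Finset.mem_filter]
        refine and_congr_right fun hm' => ?_
        constructor
        · intro hi y hy hmy
          refine hT m' hm' ?_ y (Finset.mem_filter.2 ⟨hy, hmy⟩)
          intro t ht
          have hlt : (T.equivFin ⟨t, ht⟩).val < b := lt_of_lt_of_le (T.equivFin ⟨t, ht⟩).2 hTb
          have h1 := hi ⟨(T.equivFin ⟨t, ht⟩).val, hlt⟩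
          rw [hf, dif_pos (T.equivFin ⟨t, ht⟩).2] at h1
          simpa using h1
        · intro hy i
          rw [hf]
          by_cases h : i.val < T.card
          · rw [dif_pos h]
            have h1 := hTS (T.equivFin.symm ⟨i.val, h⟩).2
            rw [Finset.mem_filter] at h1
            exact hy _ h1.1 h1.2
          · rw [dif_neg h]
            exact le_top
      show (Mx.filter (fun m' => ∀ i, m' ≤ f i)).sup id = _
      rw [hfe]
      unfold hd
      exact Finset.sup_congr (by ext m'; simp only [Finset.mem_filter]) (fun _ _ => rfl)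
  · intro u hu
    obtain ⟨f, _, rfl⟩ := Finset.mem_image.1 hu
    exact ⟨_, Finset.filter_subset _ _, rfl⟩

/-- Joins of elements of `Mx` inherit the breadth bound. -/
theorem h_pass (b : ℕ) (Mx : Finset L)
    (h : ∀ A ⊆ Mx, ∃ B ⊆ A, B.card ≤ b ∧ B.sup id = A.sup id) (H : Finset L)
    (hH : ∀ u ∈ H, ∃ A ⊆ Mx, u = A.sup id) :
    ∀ A ⊆ H, ∃ B ⊆ A, B.card ≤ b ∧ B.sup id = A.sup id := by
  classical
  intro A hA
  obtain ⟨B, hBA, hBb, hB⟩ := h (Mx.filter (fun m' => ∃ u ∈ A, m' ≤ u)) (Finset.filter_subset _ _)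
  have hAJ : (Mx.filter (fun m' => ∃ u ∈ A, m' ≤ u)).sup id = A.sup id := by
    apply le_antisymm
    · refine Finset.sup_le ?_
      intro m' hm'
      obtain ⟨_, u, hu, hmu⟩ := Finset.mem_filter.1 hm'
      exact hmu.trans (Finset.le_sup (f := id) hu)
    · refine Finset.sup_le ?_
      intro u hu
      obtain ⟨C, hC, hCu⟩ := hH u (hA hu)
      have h1 : C.sup id ≤ (Mx.filter (fun m' => ∃ u ∈ A, m' ≤ u)).sup id := by
        refine Finset.sup_mono ?_
        intro m' hm'
        refine Finset.mem_filter.2 ⟨hC hm', u, hu, ?_⟩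
        rw [hCu]
        exact Finset.le_sup (f := id) hm'
      rw [← hCu] at h1
      exact h1
  have hex : ∀ m' ∈ B, ∃ u ∈ A, m' ≤ u := fun m' hm' => (Finset.mem_filter.1 (hBA hm')).2
  choose! γ hγA hγm using hex
  refine ⟨B.image γ, ?_, Finset.card_image_le.trans hBb, ?_⟩
  · intro u hu
    obtain ⟨m', hm', rfl⟩ := Finset.mem_image.1 hu
    exact hγA m' hm'
  · apply le_antisymm
    · refine Finset.sup_mono ?_
      intro u hu
      obtain ⟨m', hm', rfl⟩ := Finset.mem_image.1 hu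
      exact hγA m' hm'
    · rw [← hAJ, ← hB]
      refine Finset.sup_le ?_
      intro m' hm'
      exact (hγm m' hm').trans (Finset.le_sup (f := id) (Finset.mem_image_of_mem γ hm'))

open Classical in
theorem hd_classes [Fintype L] (b : ℕ) (Mx : Finset L)
    (h : ∀ A ⊆ Mx, ∃ B ⊆ A, B.card ≤ b ∧ B.sup id = A.sup id) (Y : Finset L) :
    ((Finset.univ : Finset L).image fun x => Mx.filter fun m => hd Mx Y m ≤ x).card ≤
      ((Y.card + 1) ^ b + 1) ^ b := by
  obtain ⟨G, hgG, hGcard, hGM⟩ := hd_card b Mx h Y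
  have hsub : ((Finset.univ : Finset L).image fun x => Mx.filter fun m => hd Mx Y m ≤ x) ⊆
      ((Fintype.piFinset (fun _ : Fin b => insert ⊥ G)).image (fun f => Finset.univ.sup f)).image
        (fun z => Mx.filter fun m => hd Mx Y m ≤ z) := by
    intro s hs
    obtain ⟨x, _, rfl⟩ := Finset.mem_image.1 hs
    obtain ⟨B, hBA, hBb, hB⟩ := h_pass b Mx h G hGM (G.filter (fun u => u ≤ x))
      (Finset.filter_subset _ _)
    refine Finset.mem_image.2 ⟨(G.filter (fun u => u ≤ x)).sup id, ?_, ?_⟩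
    · rw [← hB]
      exact H73.BrCls.sup_mem b G B (hBA.trans (Finset.filter_subset _ _)) hBb
    · apply Finset.filter_congr
      intro m _
      constructor
      · intro hm
        refine hm.trans (Finset.sup_le ?_)
        intro u hu
        exact (Finset.mem_filter.1 hu).2
      · intro hm
        exact Finset.le_sup (f := id) (Finset.mem_filter.2 ⟨hgG m, hm⟩)
  refine (Finset.card_le_card hsub).trans (Finset.card_image_le.trans
    ((H73.BrCls.card_aux b G ⊥ _).trans ?_))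
  exact Nat.pow_le_pow_left (Nat.succ_le_succ hGcard) b

end

open Classical in
theorem two_scale {L : Type*} [Lattice L] [BoundedOrder L] [Fintype L] (b : ℕ) (Mx : Finset L)
    (h : ∀ A ⊆ Mx, ∃ B ⊆ A, B.card ≤ b ∧ B.sup id = A.sup id) (e e1 : ℝ) (he : 0 < e)
    (he1 : 0 < e1) :
    ∃ (t t1 : ℕ) (g g1 : L → L),
      (∀ m ∈ Mx, m ≤ g m) ∧ (∀ m ∈ Mx, g m ≤ g1 m) ∧
      (∀ m ∈ Mx, ((Finset.univ.filter fun y => m ≤ y ∧ ¬ g m ≤ y).card : ℝ) ≤
        e * Fintype.card L) ∧
      (∀ m ∈ Mx, ((Finset.univ.filter fun y => g m ≤ y ∧ ¬ g1 m ≤ y).card : ℝ) ≤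
        e1 * Fintype.card L) ∧
      ((Finset.univ : Finset L).image fun x => Mx.filter fun m => g m ≤ x).card ≤
        ((t + 1) ^ b + 1) ^ b ∧
      ((Finset.univ : Finset L).image fun x => Mx.filter fun m => g1 m ≤ x).card ≤
        ((t1 + 1) ^ b + 1) ^ b ∧
      (t : ℝ) ≤ 2 * Real.log (Fintype.card L) / e + 1 ∧
      (t1 : ℝ) ≤ Real.log ((((t : ℝ) + 1) ^ b + 1) ^ (b + 1)) / e1 + 1 := by
  have : Nonempty L := ⟨⊥⟩
  set N : ℝ := (Fintype.card L : ℝ) with hN
  have hN1 : (1 : ℝ) ≤ N := by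
    rw [hN]
    exact_mod_cast Fintype.card_pos
  have hlogN : 0 ≤ Real.log N := Real.log_nonneg hN1
  -- fine scale
  obtain ⟨t, ht1, ht2⟩ : ∃ t : ℕ, (t : ℝ) ≤ 2 * Real.log N / e + 1 ∧ 2 * Real.log N < e * t := by
    refine ⟨⌊2 * Real.log N / e⌋₊ + 1, ?_, ?_⟩
    · push_cast
      have := Nat.floor_le (by positivity : 0 ≤ 2 * Real.log N / e)
      linarith
    · have h1 := Nat.lt_floor_add_one (2 * Real.log N / e)
      rw [div_lt_iff₀ he] at h1
      push_cast
      linarith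
  obtain ⟨Y, hYt, hY⟩ := H38.BR.hitting_log
    (fun q : L × L => Finset.univ.filter fun y => q.1 ≤ y ∧ ¬ q.2 ≤ y)
    (Finset.univ.filter fun q : L × L =>
      e * Fintype.card L ≤ ((Finset.univ.filter fun y => q.1 ≤ y ∧ ¬ q.2 ≤ y).card : ℝ)) e
    (fun q hq => (Finset.mem_filter.1 hq).2) t (by
      refine lt_of_le_of_lt ?_ ht2
      set c := (Finset.univ.filter fun q : L × L =>
        e * Fintype.card L ≤ ((Finset.univ.filter fun y => q.1 ≤ y ∧ ¬ q.2 ≤ y).card : ℝ)).card
      have hc : (c : ℝ) ≤ N ^ 2 := by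
        have h1 : c ≤ Fintype.card (L × L) := Finset.card_le_univ _
        rw [Fintype.card_prod] at h1
        have h2 : (c : ℝ) ≤ (Fintype.card L : ℝ) * Fintype.card L := by exact_mod_cast h1
        rw [sq]
        exact h2
      rcases Nat.eq_zero_or_pos c with h0 | h0
      · rw [h0, Nat.cast_zero, Real.log_zero]
        positivity
      · have h3 : Real.log c ≤ Real.log (N ^ 2) :=
          Real.log_le_log (by exact_mod_cast h0) hc
        rw [Real.log_pow] at h3
        exact_mod_cast h3)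
  set g : L → L := hd Mx Y with hg
  have hfine : ∀ m ∈ Mx, ((Finset.univ.filter fun y => m ≤ y ∧ ¬ g m ≤ y).card : ℝ) ≤ e * N := by
    intro m _
    by_contra hcon
    push Not at hcon
    obtain ⟨y, hyY, hy⟩ := hY (m, g m) (Finset.mem_filter.2 ⟨Finset.mem_univ _, hcon.le⟩)
    have hy' := (Finset.mem_filter.1 hy).2
    exact hy'.2 (hd_le Mx Y m y hyY hy'.1)
  obtain ⟨G, hgG, hGcard, hGM⟩ := hd_card b Mx h Y
  -- the fine heads
  set H : Finset L := Mx.image g with hH
  have hHG : H ⊆ G := by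
    intro u hu
    obtain ⟨m, _, rfl⟩ := Finset.mem_image.1 hu
    exact hgG m
  have hHcard : H.card ≤ (t + 1) ^ b :=
    (Finset.card_le_card hHG).trans (hGcard.trans
      (Nat.pow_le_pow_left (Nat.succ_le_succ hYt) b))
  have hHM : ∀ u ∈ H, ∃ A ⊆ Mx, u = A.sup id := fun u hu => hGM u (hHG hu)
  have hhH := h_pass b Mx h H hHM
  -- joins of fine heads
  set J : Finset L := (Fintype.piFinset (fun _ : Fin b => insert ⊥ H)).image
    (fun f => Finset.univ.sup f) with hJ
  have hJcard : J.card ≤ ((t + 1) ^ b + 1) ^ b :=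
    (H73.BrCls.card_aux b H ⊥ _).trans (Nat.pow_le_pow_left (Nat.succ_le_succ hHcard) b)
  set P : ℝ := (((t : ℝ) + 1) ^ b + 1) ^ (b + 1) with hP
  have hP1 : 1 ≤ P := by
    rw [hP]
    apply one_le_pow₀
    have : (0 : ℝ) ≤ ((t : ℝ) + 1) ^ b := by positivity
    linarith
  have hlogP : 0 ≤ Real.log P := Real.log_nonneg hP1
  obtain ⟨t1, ht11, ht12⟩ : ∃ t1 : ℕ, (t1 : ℝ) ≤ Real.log P / e1 + 1 ∧ Real.log P < e1 * t1 := by
    refine ⟨⌊Real.log P / e1⌋₊ + 1, ?_, ?_⟩
    · push_cast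
      have := Nat.floor_le (by positivity : 0 ≤ Real.log P / e1)
      linarith
    · have h1 := Nat.lt_floor_add_one (Real.log P / e1)
      rw [div_lt_iff₀ he1] at h1
      push_cast
      linarith
  obtain ⟨Y1, hY1t, hY1⟩ := H38.BR.hitting_log
    (fun q : L × L => Finset.univ.filter fun y => q.1 ≤ y ∧ ¬ q.2 ≤ y)
    ((H ×ˢ J).filter fun q : L × L =>
      e1 * Fintype.card L ≤ ((Finset.univ.filter fun y => q.1 ≤ y ∧ ¬ q.2 ≤ y).card : ℝ)) e1
    (fun q hq => (Finset.mem_filter.1 hq).2) t1 (by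
      refine lt_of_le_of_lt ?_ ht12
      set c := ((H ×ˢ J).filter fun q : L × L =>
        e1 * Fintype.card L ≤ ((Finset.univ.filter fun y => q.1 ≤ y ∧ ¬ q.2 ≤ y).card : ℝ)).card
      have hc : (c : ℝ) ≤ P := by
        have h1 : c ≤ H.card * J.card := by
          refine (Finset.card_filter_le _ _).trans ?_
          rw [Finset.card_product]
        have h2 : c ≤ ((t + 1) ^ b + 1) ^ (b + 1) := by
          refine h1.trans ?_
          rw [pow_succ, mul_comm]
          exact Nat.mul_le_mul hJcard (hHcard.trans (Nat.le_succ _))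
        rw [hP]
        exact_mod_cast h2
      rcases Nat.eq_zero_or_pos c with h0 | h0
      · rw [h0, Nat.cast_zero, Real.log_zero]
        exact hlogP
      · exact Real.log_le_log (by exact_mod_cast h0) hc)
  set g1 : L → L := fun m => hd H Y1 (g m) with hg1
  have hmemH : ∀ m ∈ Mx, g m ∈ H := fun m hm => Finset.mem_image_of_mem g hm
  refine ⟨t, t1, g, g1, fun m hm => le_hd Mx Y m hm, fun m hm => le_hd H Y1 (g m) (hmemH m hm),
    hfine, ?_, ?_, ?_, ht1, ht11⟩
  · intro m hm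
    by_contra hcon
    push Not at hcon
    obtain ⟨A, hAH, hA⟩ := hd_join H Y1 (g m)
    obtain ⟨B, hBA, hBb, hB⟩ := hhH A hAH
    have hJm : g1 m ∈ J := by
      show hd H Y1 (g m) ∈ J
      rw [hA, ← hB]
      exact H73.BrCls.sup_mem b H B (hBA.trans hAH) hBb
    obtain ⟨y, hyY, hy⟩ := hY1 (g m, g1 m) (Finset.mem_filter.2
      ⟨Finset.mem_product.2 ⟨hmemH m hm, hJm⟩, hcon.le⟩)
    have hy' := (Finset.mem_filter.1 hy).2
    exact hy'.2 (hd_le H Y1 (g m) y hyY hy'.1)
  · refine (hd_classes b Mx h Y).trans ?_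
    exact Nat.pow_le_pow_left (Nat.succ_le_succ
      (Nat.pow_le_pow_left (Nat.succ_le_succ hYt) b)) b
  · have h1 := hd_classes b H hhH Y1
    have hsub : ((Finset.univ : Finset L).image fun x => Mx.filter fun m => g1 m ≤ x) ⊆
        ((Finset.univ : Finset L).image fun x => H.filter fun a => hd H Y1 a ≤ x).image
          (fun s => Mx.filter fun m => g m ∈ s) := by
      intro s hs
      obtain ⟨x, _, rfl⟩ := Finset.mem_image.1 hs
      refine Finset.mem_image.2 ⟨_, Finset.mem_image_of_mem _ (Finset.mem_univ x), ?_⟩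
      apply Finset.filter_congr
      intro m hm
      rw [Finset.mem_filter]
      exact ⟨fun hh => hh.2, fun hh => ⟨hmemH m hm, hh⟩⟩
    refine (Finset.card_le_card hsub).trans (Finset.card_image_le.trans (h1.trans ?_))
    exact Nat.pow_le_pow_left (Nat.succ_le_succ
      (Nat.pow_le_pow_left (Nat.succ_le_succ hY1t) b)) b


open Classical in
theorem card_split {L : Type*} [Lattice L] [Fintype L] (m z : L) (hmz : m ≤ z) :
    ((Finset.univ.filter fun y : L => m ≤ y).card : ℝ) =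
      ((Finset.univ.filter fun y : L => z ≤ y).card : ℝ) +
      ((Finset.univ.filter fun y : L => m ≤ y ∧ ¬ z ≤ y).card : ℝ) := by
  have h1 := Finset.card_filter_add_card_filter_not (s := Finset.univ.filter fun y : L => m ≤ y)
    (fun y => z ≤ y)
  rw [Finset.filter_filter, Finset.filter_filter] at h1
  have h2 : (Finset.univ.filter fun y : L => m ≤ y ∧ z ≤ y) =
      Finset.univ.filter fun y : L => z ≤ y := by
    apply Finset.filter_congr
    intro y _
    exact ⟨fun hh => hh.2, fun hh => ⟨hmz.trans hh, hh⟩⟩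
  rw [h2] at h1
  exact_mod_cast h1.symm

open Classical in
/-- Two levels, in the form (I3). -/
theorem two_level {L : Type*} [Lattice L] [BoundedOrder L] [Fintype L] (b : ℕ) (Mx : Finset L)
    (h : ∀ A ⊆ Mx, ∃ B ⊆ A, B.card ≤ b ∧ B.sup id = A.sup id) (e e1 : ℝ)
    (t t1 : ℕ) (ht : 2 * Real.log (Fintype.card L) < e * t)
    (ht1 : 2 * Real.log ((((t : ℝ) + 1) ^ b + 1) ^ b) < e1 * t1) :
    ∃ g g1 : L → L,
      (∀ m ∈ Mx, m ≤ g m) ∧ (∀ m ∈ Mx, g m ≤ g1 m) ∧
      (∀ m ∈ Mx, ((Finset.univ.filter fun y => m ≤ y).card : ℝ) ≤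
        ((Finset.univ.filter fun y => g m ≤ y).card : ℝ) + e * Fintype.card L) ∧
      (∀ m ∈ Mx, ((Finset.univ.filter fun y => g m ≤ y).card : ℝ) ≤
        ((Finset.univ.filter fun y => g1 m ≤ y).card : ℝ) + e1 * Fintype.card L) ∧
      ((Finset.univ : Finset L).image fun x => Mx.filter fun m => g m ≤ x).card ≤
        ((t + 1) ^ b + 1) ^ b ∧
      ((Finset.univ : Finset L).image fun x => Mx.filter fun m => g1 m ≤ x).card ≤
        ((t1 + 1) ^ b + 1) ^ b ∧
      ∀ x x', (∀ m ∈ Mx, (g m ≤ x ↔ g m ≤ x')) → ∀ m ∈ Mx, (g1 m ≤ x ↔ g1 m ≤ x') := by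
  have : Nonempty L := ⟨⊥⟩
  set N : ℝ := (Fintype.card L : ℝ) with hN
  have hN1 : (1 : ℝ) ≤ N := by
    rw [hN]
    exact_mod_cast Fintype.card_pos
  have hlogN : 0 ≤ Real.log N := Real.log_nonneg hN1
  obtain ⟨Y, hYt, hY⟩ := H38.BR.hitting_log
    (fun q : L × L => Finset.univ.filter fun y => q.1 ≤ y ∧ ¬ q.2 ≤ y)
    (Finset.univ.filter fun q : L × L =>
      e * Fintype.card L ≤ ((Finset.univ.filter fun y => q.1 ≤ y ∧ ¬ q.2 ≤ y).card : ℝ)) e
    (fun q hq => (Finset.mem_filter.1 hq).2) t (by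
      refine lt_of_le_of_lt ?_ ht
      set c := (Finset.univ.filter fun q : L × L =>
        e * Fintype.card L ≤ ((Finset.univ.filter fun y => q.1 ≤ y ∧ ¬ q.2 ≤ y).card : ℝ)).card
      have hc : (c : ℝ) ≤ N ^ 2 := by
        have h1 : c ≤ Fintype.card (L × L) := Finset.card_le_univ _
        rw [Fintype.card_prod] at h1
        have h2 : (c : ℝ) ≤ (Fintype.card L : ℝ) * Fintype.card L := by exact_mod_cast h1
        rw [sq]
        exact h2
      rcases Nat.eq_zero_or_pos c with h0 | h0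
      · rw [h0, Nat.cast_zero, Real.log_zero]
        positivity
      · have h3 : Real.log c ≤ Real.log (N ^ 2) :=
          Real.log_le_log (by exact_mod_cast h0) hc
        rw [Real.log_pow] at h3
        exact_mod_cast h3)
  set g : L → L := hd Mx Y with hg
  have hfine : ∀ m ∈ Mx, ((Finset.univ.filter fun y => m ≤ y ∧ ¬ g m ≤ y).card : ℝ) ≤ e * N := by
    intro m _
    by_contra hcon
    push Not at hcon
    obtain ⟨y, hyY, hy⟩ := hY (m, g m) (Finset.mem_filter.2 ⟨Finset.mem_univ _, hcon.le⟩)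
    have hy' := (Finset.mem_filter.1 hy).2
    exact hy'.2 (hd_le Mx Y m y hyY hy'.1)
  obtain ⟨G, hgG, hGcard, hGM⟩ := hd_card b Mx h Y
  -- the fine heads
  set H : Finset L := Mx.image g with hH
  have hHG : H ⊆ G := by
    intro u hu
    obtain ⟨m, _, rfl⟩ := Finset.mem_image.1 hu
    exact hgG m
  have hHcard : H.card ≤ (t + 1) ^ b :=
    (Finset.card_le_card hHG).trans (hGcard.trans
      (Nat.pow_le_pow_left (Nat.succ_le_succ hYt) b))
  have hHM : ∀ u ∈ H, ∃ A ⊆ Mx, u = A.sup id := fun u hu => hGM u (hHG hu)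
  have hhH := h_pass b Mx h H hHM
  -- joins of fine heads
  set J : Finset L := (Fintype.piFinset (fun _ : Fin b => insert ⊥ H)).image
    (fun f => Finset.univ.sup f) with hJ
  have hJcard : J.card ≤ ((t + 1) ^ b + 1) ^ b :=
    (H73.BrCls.card_aux b H ⊥ _).trans (Nat.pow_le_pow_left (Nat.succ_le_succ hHcard) b)
  set P : ℝ := (((t : ℝ) + 1) ^ b + 1) ^ b with hP
  have hP1 : 1 ≤ P := by
    rw [hP]
    apply one_le_pow₀
    have : (0 : ℝ) ≤ ((t : ℝ) + 1) ^ b := by positivity
    linarith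
  have hlogP : 0 ≤ Real.log P := Real.log_nonneg hP1
  have hHK : (t + 1) ^ b ≤ ((t + 1) ^ b + 1) ^ b := by
    rcases Nat.eq_zero_or_pos b with h0 | h0
    · rw [h0]; simp
    · calc (t + 1) ^ b ≤ (t + 1) ^ b + 1 := Nat.le_succ _
        _ ≤ ((t + 1) ^ b + 1) ^ b := Nat.le_self_pow (by omega) _
  obtain ⟨Y1, hY1t, hY1⟩ := H38.BR.hitting_log
    (fun q : L × L => Finset.univ.filter fun y => q.1 ≤ y ∧ ¬ q.2 ≤ y)
    ((H ×ˢ J).filter fun q : L × L =>
      e1 * Fintype.card L ≤ ((Finset.univ.filter fun y => q.1 ≤ y ∧ ¬ q.2 ≤ y).card : ℝ)) e1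
    (fun q hq => (Finset.mem_filter.1 hq).2) t1 (by
      refine lt_of_le_of_lt ?_ ht1
      set c := ((H ×ˢ J).filter fun q : L × L =>
        e1 * Fintype.card L ≤ ((Finset.univ.filter fun y => q.1 ≤ y ∧ ¬ q.2 ≤ y).card : ℝ)).card
      have hc : (c : ℝ) ≤ P ^ 2 := by
        have h1 : c ≤ H.card * J.card := by
          refine (Finset.card_filter_le _ _).trans ?_
          rw [Finset.card_product]
        have h2 : c ≤ (((t + 1) ^ b + 1) ^ b) ^ 2 := by
          refine h1.trans ?_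
          rw [sq]
          exact Nat.mul_le_mul (hHcard.trans hHK) hJcard
        rw [hP]
        exact_mod_cast h2
      rcases Nat.eq_zero_or_pos c with h0 | h0
      · rw [h0, Nat.cast_zero, Real.log_zero]
        positivity
      · have h3 : Real.log c ≤ Real.log (P ^ 2) :=
          Real.log_le_log (by exact_mod_cast h0) hc
        rw [Real.log_pow] at h3
        exact_mod_cast h3)
  set g1 : L → L := fun m => hd H Y1 (g m) with hg1
  have hmemH : ∀ m ∈ Mx, g m ∈ H := fun m hm => Finset.mem_image_of_mem g hm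
  have hle1 : ∀ m ∈ Mx, m ≤ g m := fun m hm => le_hd Mx Y m hm
  have hle2 : ∀ m ∈ Mx, g m ≤ g1 m := fun m hm => le_hd H Y1 (g m) (hmemH m hm)
  have hcoarse : ∀ m ∈ Mx, ((Finset.univ.filter fun y => g m ≤ y ∧ ¬ g1 m ≤ y).card : ℝ) ≤
      e1 * N := by
    intro m hm
    by_contra hcon
    push Not at hcon
    obtain ⟨A, hAH, hA⟩ := hd_join H Y1 (g m)
    obtain ⟨B, hBA, hBb, hB⟩ := hhH A hAH
    have hJm : g1 m ∈ J := by
      show hd H Y1 (g m) ∈ J
      rw [hA, ← hB]
      exact H73.BrCls.sup_mem b H B (hBA.trans hAH) hBb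
    obtain ⟨y, hyY, hy⟩ := hY1 (g m, g1 m) (Finset.mem_filter.2
      ⟨Finset.mem_product.2 ⟨hmemH m hm, hJm⟩, hcon.le⟩)
    have hy' := (Finset.mem_filter.1 hy).2
    exact hy'.2 (hd_le H Y1 (g m) y hyY hy'.1)
  refine ⟨g, g1, hle1, hle2, ?_, ?_, ?_, ?_, ?_⟩
  · intro m hm
    rw [card_split m (g m) (hle1 m hm)]
    have := hfine m hm
    linarith
  · intro m hm
    rw [card_split (g m) (g1 m) (hle2 m hm)]
    have := hcoarse m hm
    linarith
  · refine (hd_classes b Mx h Y).trans ?_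
    exact Nat.pow_le_pow_left (Nat.succ_le_succ
      (Nat.pow_le_pow_left (Nat.succ_le_succ hYt) b)) b
  · have h1 := hd_classes b H hhH Y1
    have hsub : ((Finset.univ : Finset L).image fun x => Mx.filter fun m => g1 m ≤ x) ⊆
        ((Finset.univ : Finset L).image fun x => H.filter fun a => hd H Y1 a ≤ x).image
          (fun s => Mx.filter fun m => g m ∈ s) := by
      intro s hs
      obtain ⟨x, _, rfl⟩ := Finset.mem_image.1 hs
      refine Finset.mem_image.2 ⟨_, Finset.mem_image_of_mem _ (Finset.mem_univ x), ?_⟩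
      apply Finset.filter_congr
      intro m hm
      rw [Finset.mem_filter]
      exact ⟨fun hh => hh.2, fun hh => ⟨hmemH m hm, hh⟩⟩
    refine (Finset.card_le_card hsub).trans (Finset.card_image_le.trans (h1.trans ?_))
    exact Nat.pow_le_pow_left (Nat.succ_le_succ
      (Nat.pow_le_pow_left (Nat.succ_le_succ hY1t) b)) b
  · have hmono : ∀ x x', (∀ m ∈ Mx, (g m ≤ x ↔ g m ≤ x')) → ∀ m ∈ Mx, g1 m ≤ x → g1 m ≤ x' := by
      intro x x' hxx m _ hx
      obtain ⟨A, hAH, hA⟩ := hd_join H Y1 (g m)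
      have hx2 : A.sup id ≤ x := by
        rw [← hA]; exact hx
      show hd H Y1 (g m) ≤ x'
      rw [hA]
      refine Finset.sup_le ?_
      intro a ha
      obtain ⟨m', hm', rfl⟩ := Finset.mem_image.1 (hAH ha)
      exact (hxx m' hm').1 ((Finset.le_sup (f := id) ha).trans hx2)
    intro x x' hxx m hm
    exact ⟨hmono x x' hxx m hm, hmono x' x (fun m' hm' => (hxx m' hm').symm) m hm⟩

end Pool.Agent.H73.BrTwo
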