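import Mathlib

open Finset

namespace Pool.Agent.H73.BrVal

open Classical in
theorem values {L : Type*} [Lattice L] [BoundedOrder L] [Fintype L] {ι : Type*}
    (j : ι → L) (b n : ℕ)
    (hb : ∀ S : Finset L, (∀ a ∈ S, ∃ m, a = j m) → ∃ T ⊆ S, T.card ≤ b ∧ T.sup id = S.sup id)
    (S : Fin n → ι) :
    ((univ : Finset L).image fun x => (univ.filter (fun i => j (S i) ≤ x)).sup
      (fun i => j (S i))).card ≤ ∑ i ∈ range (b + 1), n.choose i := by
  have hsub : ((univ : Finset L).image fun x => (univ.filter (fun i => j (S i) ≤ x)).sup
      (fun i => j (S i))) ⊆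
      ((range (b + 1)).biUnion fun i => powersetCard i (univ : Finset (Fin n))).image
        (fun I => I.sup fun i => j (S i)) := by
    intro v hv
    obtain ⟨x, _, rfl⟩ := mem_image.1 hv
    set J := univ.filter (fun i => j (S i) ≤ x) with hJ
    obtain ⟨T, hTS, hTb, hT⟩ := hb (J.image fun i => j (S i)) (by
      intro a ha
      obtain ⟨i, _, rfl⟩ := mem_image.1 ha
      exact ⟨S i, rfl⟩)
    -- choose indices
    have hch : ∀ t : T, ∃ i ∈ J, j (S i) = t.1 := fun t => mem_image.1 (hTS t.2)
    choose f hfJ hf using hch
    refine mem_image.2 ⟨(univ : Finset T).image f, ?_, ?_⟩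
    · refine mem_biUnion.2 ⟨((univ : Finset T).image f).card, ?_, ?_⟩
      · rw [mem_range]
        have : ((univ : Finset T).image f).card ≤ (univ : Finset T).card := card_image_le
        rw [card_univ, Fintype.card_coe] at this
        omega
      · rw [mem_powersetCard]
        exact ⟨subset_univ _, rfl⟩
    · show ((univ : Finset T).image f).sup (fun i => j (S i)) = J.sup (fun i => j (S i))
      rw [sup_image]
      have h1 : (univ : Finset T).sup ((fun i => j (S i)) ∘ f) = T.sup id := by
        apply le_antisymm
        · apply Finset.sup_le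
          intro t _
          rw [Function.comp_apply, hf t]
          exact Finset.le_sup (f := id) t.2
        · apply Finset.sup_le
          intro t ht
          have h2 := Finset.le_sup (f := (fun i => j (S i)) ∘ f) (mem_univ (⟨t, ht⟩ : T))
          rw [Function.comp_apply, hf ⟨t, ht⟩] at h2
          exact h2
      rw [h1, hT, sup_image]
      rfl
  refine (card_le_card hsub).trans (card_image_le.trans (card_biUnion_le.trans ?_))
  refine sum_le_sum fun i _ => ?_
  rw [card_powersetCard, card_univ, Fintype.card_fin]

end Pool.Agent.H73.BrVal
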