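import Mathlib

open Finset

namespace Pool.Agent.H73.RkTr

variable {X : Type*} [Fintype X] [DecidableEq X]

theorem trace_mul_self (A : Matrix X X ℝ) (hA : A.IsHermitian) :
    (A * A).trace = ∑ i, (hA.eigenvalues i) ^ 2 := by
  have h := hA.spectral_theorem
  have h2 : A * A = Unitary.conjStarAlgAut ℝ _ hA.eigenvectorUnitary
      (Matrix.diagonal (RCLike.ofReal ∘ hA.eigenvalues) *
        Matrix.diagonal (RCLike.ofReal ∘ hA.eigenvalues)) := by
    rw [map_mul, ← h]
  rw [h2, Unitary.conjStarAlgAut_apply, Matrix.trace_mul_cycle]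
  simp [Matrix.diagonal_mul_diagonal, Matrix.trace_diagonal, sq]

/-- (tr A)^2 is at most rank A times the sum of the squares of the entries, A symmetric. -/
theorem trace_sq_le (A : Matrix X X ℝ) (hA : A.IsHermitian) :
    A.trace ^ 2 ≤ (A.rank : ℝ) * ∑ x, ∑ y, (A x y) ^ 2 := by
  classical
  have h1 : A.trace = ∑ i, hA.eigenvalues i := by
    simpa using hA.trace_eq_sum_eigenvalues
  have h2 : ∑ x, ∑ y, (A x y) ^ 2 = ∑ i, (hA.eigenvalues i) ^ 2 := by
    rw [← trace_mul_self A hA, Matrix.trace]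
    refine Finset.sum_congr rfl fun x _ => ?_
    rw [Matrix.diag_apply, Matrix.mul_apply]
    refine Finset.sum_congr rfl fun y _ => ?_
    have := hA.apply x y
    simp only [star_trivial] at this
    rw [sq, this]
  have h3 : (A.rank : ℝ) = ((univ.filter fun i => hA.eigenvalues i ≠ 0).card : ℝ) := by
    rw [hA.rank_eq_card_non_zero_eigs, Fintype.card_subtype]
  have h4 : ∑ i, hA.eigenvalues i =
      ∑ i ∈ univ.filter (fun i => hA.eigenvalues i ≠ 0), hA.eigenvalues i := by
    rw [Finset.sum_filter_ne_zero]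
  have h5 : ∑ i ∈ univ.filter (fun i => hA.eigenvalues i ≠ 0), (hA.eigenvalues i) ^ 2 ≤
      ∑ i, (hA.eigenvalues i) ^ 2 :=
    Finset.sum_le_sum_of_subset_of_nonneg (Finset.filter_subset _ _)
      (fun i _ _ => sq_nonneg _)
  rw [h1, h2, h3, h4]
  refine le_trans sq_sum_le_card_mul_sum_sq ?_
  exact mul_le_mul_of_nonneg_left h5 (Nat.cast_nonneg _)

theorem rank_trace' {κ : Type*} [Fintype κ] (W B : X → κ → ℝ) (c : ℝ) (P : X → X → ℝ)
    (hP : ∀ x y, P x y = c - ∑ m, (W x m * B y m + B x m * W y m)) :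
    (∑ x, P x x) ^ 2 ≤ (2 * (Fintype.card κ : ℝ) + 1) * ∑ x, ∑ y, (P x y) ^ 2 := by
  classical
  let A : Matrix X X ℝ := Matrix.of P
  have hA : A.IsHermitian := by
    ext x y
    simp only [Matrix.conjTranspose_apply, star_trivial, A, Matrix.of_apply, hP]
    congr 1
    refine Finset.sum_congr rfl fun m _ => ?_
    ring
  let F : Matrix X (Unit ⊕ (κ ⊕ κ)) ℝ :=
    Matrix.of fun x => Sum.elim (fun _ => 1) (Sum.elim (W x) (B x))
  let G : Matrix (Unit ⊕ (κ ⊕ κ)) X ℝ :=
    Matrix.of fun k y => Sum.elim (fun _ => c) (Sum.elim (fun m => - B y m) (fun m => - W y m)) k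
  have hFG : A = F * G := by
    ext x y
    rw [Matrix.mul_apply, Fintype.sum_sum_type, Fintype.sum_sum_type]
    simp only [A, F, G, Matrix.of_apply, Sum.elim_inl, Sum.elim_inr, hP, Finset.sum_add_distrib,
      Finset.univ_unique, Finset.sum_singleton, one_mul, mul_neg, Finset.sum_neg_distrib]
    ring
  have hr : A.rank ≤ 2 * Fintype.card κ + 1 := by
    rw [hFG]
    refine le_trans (Matrix.rank_mul_le_left F G) ?_
    refine le_trans (Matrix.rank_le_card_width F) ?_
    simp only [Fintype.card_sum, Fintype.card_unit]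
    omega
  have h := trace_sq_le A hA
  have ht : A.trace = ∑ x, P x x := rfl
  rw [ht] at h
  refine le_trans h ?_
  have hs : 0 ≤ ∑ x, ∑ y, (A x y) ^ 2 :=
    Finset.sum_nonneg fun x _ => Finset.sum_nonneg fun y _ => sq_nonneg _
  have hr' : (A.rank : ℝ) ≤ 2 * (Fintype.card κ : ℝ) + 1 := by exact_mod_cast hr
  exact mul_le_mul_of_nonneg_right hr' hs

theorem rank_trace (r : ℕ) (W B : X → Fin r → ℝ) (c : ℝ) (P : X → X → ℝ)
    (hP : ∀ x y, P x y = c - ∑ m, (W x m * B y m + B x m * W y m)) :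
    (∑ x, P x x) ^ 2 ≤ (2 * r + 1) * ∑ x, ∑ y, (P x y) ^ 2 := by
  have := rank_trace' W B c P hP
  rwa [Fintype.card_fin] at this

end Pool.Agent.H73.RkTr
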