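import Mathlib

open Finset

namespace Pool.Agent.H73.SlW

variable {ι α : Type*} [Fintype ι] [DecidableEq ι] [DecidableEq α]

/-- keep the coordinates in A, put the value d elsewhere -/
def proj (d : α) (A : Finset ι) (x : ι → α) : ι → α := fun m => if m ∈ A then x m else d

omit [DecidableEq α] in
/-- Gibbs inequality in the form needed. -/
theorem gibbs {V : Finset α} (hV : V.Nonempty) (n k : α → ℝ) (hn : ∀ a ∈ V, 0 < n a)
    (hk : ∀ a ∈ V, 0 < k a) {N : ℝ} (hN : ∑ a ∈ V, n a = N) :
    ∑ a ∈ V, (n a / N) * (Real.log N - Real.log (n a) + Real.log (k a)) ≤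
      Real.log (∑ a ∈ V, k a) := by
  have hNpos : 0 < N := by
    rw [← hN]; exact Finset.sum_pos hn hV
  set K := ∑ a ∈ V, k a with hK
  have hKpos : 0 < K := Finset.sum_pos hk hV
  have hsum1 : ∑ a ∈ V, n a / N = 1 := by
    rw [← Finset.sum_div, hN, div_self hNpos.ne']
  have h1 : ∑ a ∈ V, (n a / N) * (Real.log N - Real.log (n a) + Real.log (k a)) - Real.log K =
      ∑ a ∈ V, (n a / N) * Real.log (k a * N / (n a * K)) := by
    have : Real.log K = ∑ a ∈ V, (n a / N) * Real.log K := by
      rw [← Finset.sum_mul, hsum1, one_mul]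
    rw [this, ← Finset.sum_sub_distrib]
    refine Finset.sum_congr rfl fun a ha => ?_
    rw [Real.log_div (mul_pos (hk a ha) hNpos).ne' (mul_pos (hn a ha) hKpos).ne',
      Real.log_mul (hk a ha).ne' hNpos.ne', Real.log_mul (hn a ha).ne' hKpos.ne']
    ring
  have h2 : ∑ a ∈ V, (n a / N) * Real.log (k a * N / (n a * K)) ≤
      ∑ a ∈ V, (n a / N) * (k a * N / (n a * K) - 1) := by
    refine Finset.sum_le_sum fun a ha => ?_
    refine mul_le_mul_of_nonneg_left ?_ (div_pos (hn a ha) hNpos).le
    exact Real.log_le_sub_one_of_pos
      (div_pos (mul_pos (hk a ha) hNpos) (mul_pos (hn a ha) hKpos))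
  have h3 : ∑ a ∈ V, (n a / N) * (k a * N / (n a * K) - 1) = 0 := by
    have : ∀ a ∈ V, (n a / N) * (k a * N / (n a * K) - 1) = k a / K - n a / N := by
      intro a ha
      have := (hn a ha).ne'
      field_simp
    rw [Finset.sum_congr rfl this, Finset.sum_sub_distrib, ← Finset.sum_div, ← hK,
      div_self hKpos.ne', hsum1, sub_self]
  linarith

theorem weights_aux (d : α) (S : Finset ι) : ∀ D : Finset (ι → α), D.Nonempty →
    (∀ x ∈ D, ∀ y ∈ D, (∀ m ∈ S, x m = y m) → x = y) →
    ∃ w : ι → ℝ, (∀ m, 0 ≤ w m) ∧ ∑ m ∈ S, w m = Real.log (D.card : ℝ) ∧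
      ∀ A ⊆ S, ∑ m ∈ A, w m ≤ Real.log ((D.image (proj d A)).card : ℝ) := by
  induction S using Finset.induction_on with
  | empty =>
    intro D hD hinj
    refine ⟨fun _ => 0, fun _ => le_rfl, ?_, ?_⟩
    · have : D.card = 1 := by
        rw [Finset.card_eq_one]
        obtain ⟨x, hx⟩ := hD
        refine ⟨x, ?_⟩
        ext y
        rw [Finset.mem_singleton]
        constructor
        · intro hy
          exact hinj y hy x hx (by simp)
        · rintro rfl; exact hx
      rw [this]; simp
    · intro A hA
      rw [Finset.sum_const_zero]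
      refine Real.log_natCast_nonneg _
  | insert i S hi ih =>
    intro D hD hinj
    set V := D.image (fun x => x i) with hV
    have hVne : V.Nonempty := hD.image _
    have hDa : ∀ a ∈ V, (D.filter (fun x => x i = a)).Nonempty := by
      intro a ha
      rw [hV, Finset.mem_image] at ha
      obtain ⟨x, hx, rfl⟩ := ha
      exact ⟨x, Finset.mem_filter.2 ⟨hx, rfl⟩⟩
    have hex : ∀ a : α, ∃ w : ι → ℝ, a ∈ V → (∀ m, 0 ≤ w m) ∧
        ∑ m ∈ S, w m = Real.log (((D.filter (fun x => x i = a))).card : ℝ) ∧
        ∀ A ⊆ S, ∑ m ∈ A, w m ≤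
          Real.log ((((D.filter (fun x => x i = a))).image (proj d A)).card : ℝ) := by
      intro a
      by_cases ha : a ∈ V
      · obtain ⟨w, h1, h2, h3⟩ := ih (D.filter (fun x => x i = a)) (hDa a ha) (by
          intro x hx y hy hxy
          rw [Finset.mem_filter] at hx hy
          refine hinj x hx.1 y hy.1 ?_
          intro m hm
          rcases Finset.mem_insert.1 hm with rfl | hm
          · rw [hx.2, hy.2]
          · exact hxy m hm)
        exact ⟨w, fun _ => ⟨h1, h2, h3⟩⟩
      · exact ⟨fun _ => 0, fun h => absurd h ha⟩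
    choose w' hw' using hex
    set n : α → ℝ := fun a => ((D.filter (fun x => x i = a)).card : ℝ) with hn
    have hnpos : ∀ a ∈ V, 0 < n a := fun a ha => by
      simp only [hn]; exact_mod_cast (hDa a ha).card_pos
    have hNsum : ∑ a ∈ V, n a = (D.card : ℝ) := by
      rw [Finset.card_eq_sum_card_image (fun x => x i) D]
      push_cast
      rfl
    have hNpos : (0 : ℝ) < (D.card : ℝ) := by exact_mod_cast hD.card_pos
    set N : ℝ := (D.card : ℝ) with hNdef
    have hP1 : ∑ a ∈ V, n a / N = 1 := by
      rw [← Finset.sum_div, hNsum, div_self hNpos.ne']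
    have hPnn : ∀ a ∈ V, 0 ≤ n a / N := fun a ha => (div_pos (hnpos a ha) hNpos).le
    have hnle : ∀ a, n a ≤ N := fun a => by
      simp only [hn, hNdef]; exact_mod_cast Finset.card_filter_le _ _
    set w : ι → ℝ := fun m => if m = i then ∑ a ∈ V, (n a / N) * (Real.log N - Real.log (n a))
      else ∑ a ∈ V, (n a / N) * w' a m with hw
    have hwi : w i = ∑ a ∈ V, (n a / N) * (Real.log N - Real.log (n a)) := by simp [hw]
    have hwm : ∀ A : Finset ι, i ∉ A → ∑ m ∈ A, w m = ∑ a ∈ V, (n a / N) * ∑ m ∈ A, w' a m := by
      intro A hA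
      have : ∀ m ∈ A, w m = ∑ a ∈ V, (n a / N) * w' a m := by
        intro m hm
        have : m ≠ i := fun h => hA (h ▸ hm)
        simp [hw, this]
      rw [Finset.sum_congr rfl this, Finset.sum_comm]
      refine Finset.sum_congr rfl fun a _ => ?_
      rw [Finset.mul_sum]
    refine ⟨w, ?_, ?_, ?_⟩
    · intro m
      by_cases hm : m = i
      · rw [hm, hwi]
        refine Finset.sum_nonneg fun a ha => mul_nonneg (hPnn a ha) ?_
        exact sub_nonneg.2 (Real.log_le_log (hnpos a ha) (hnle a))
      · simp only [hw, if_neg hm]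
        exact Finset.sum_nonneg fun a ha => mul_nonneg (hPnn a ha) ((hw' a ha).1 m)
    · rw [Finset.sum_insert hi, hwi, hwm S hi, ← Finset.sum_add_distrib]
      have : ∀ a ∈ V, (n a / N) * (Real.log N - Real.log (n a)) +
          (n a / N) * ∑ m ∈ S, w' a m = (n a / N) * Real.log N := by
        intro a ha
        rw [(hw' a ha).2.1]
        simp only [hn]
        ring
      rw [Finset.sum_congr rfl this, ← Finset.sum_mul, hP1, one_mul]
    · intro A hA
      by_cases hiA : i ∈ A
      · set A' := A.erase i with hA'
        have hA'S : A' ⊆ S := by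
          intro m hm
          rw [hA', Finset.mem_erase] at hm
          exact (Finset.mem_insert.1 (hA hm.2)).resolve_left hm.1
        have hiA' : i ∉ A' := Finset.notMem_erase _ _
        have hsplit : ∑ m ∈ A, w m = w i + ∑ m ∈ A', w m := by
          rw [hA', Finset.add_sum_erase _ _ hiA]
        set k : α → ℝ := fun a =>
          (((D.filter (fun x => x i = a)).image (proj d A')).card : ℝ) with hk
        have hkpos : ∀ a ∈ V, 0 < k a := fun a ha => by
          simp only [hk]; exact_mod_cast ((hDa a ha).image _).card_pos
        have hb : ∑ m ∈ A, w m ≤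
            ∑ a ∈ V, (n a / N) * (Real.log N - Real.log (n a) + Real.log (k a)) := by
          rw [hsplit, hwi, hwm A' hiA', ← Finset.sum_add_distrib]
          refine Finset.sum_le_sum fun a ha => ?_
          rw [← mul_add]
          refine mul_le_mul_of_nonneg_left ?_ (hPnn a ha)
          have := (hw' a ha).2.2 A' hA'S
          simp only [hk]
          linarith
        refine le_trans hb (le_trans (gibbs hVne n k hnpos hkpos hNsum) ?_)
        refine Real.log_le_log (Finset.sum_pos hkpos hVne) ?_
        have hcard : ∑ a ∈ V, ((D.filter (fun x => x i = a)).image (proj d A')).card ≤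
            (D.image (proj d A)).card := by
          rw [Finset.card_eq_sum_card_fiberwise (f := fun z : ι → α => z i) (t := V)
            (s := D.image (proj d A))]
          · refine Finset.sum_le_sum fun a ha => ?_
            have hsub : (D.filter (fun x => x i = a)).image (proj d A') ⊆
                ((D.image (proj d A)).filter (fun z => z i = a)).image (proj d A') := by
              intro z hz
              rw [Finset.mem_image] at hz ⊢
              obtain ⟨x, hx, rfl⟩ := hz
              rw [Finset.mem_filter] at hx
              refine ⟨proj d A x, ?_, ?_⟩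
              · rw [Finset.mem_filter, Finset.mem_image]
                refine ⟨⟨x, hx.1, rfl⟩, ?_⟩
                simp [proj, hiA, hx.2]
              · ext m
                simp only [proj]
                by_cases hm : m ∈ A'
                · have : m ∈ A := Finset.mem_of_mem_erase hm
                  simp [hm, this]
                · simp [hm]
            exact le_trans (Finset.card_le_card hsub) Finset.card_image_le
          · intro z hz
            rw [Finset.mem_coe, Finset.mem_image] at hz
            obtain ⟨x, hx, rfl⟩ := hz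
            simp only [proj, hiA, if_true, hV]
            exact Finset.mem_coe.2 (Finset.mem_image.2 ⟨x, hx, rfl⟩)
        simp only [hk]
        exact_mod_cast hcard
      · have hAS : A ⊆ S := fun m hm =>
          (Finset.mem_insert.1 (hA hm)).resolve_left (fun h => hiA (h ▸ hm))
        rw [hwm A hiA]
        have : ∀ a ∈ V, (n a / N) * ∑ m ∈ A, w' a m ≤
            (n a / N) * Real.log ((D.image (proj d A)).card : ℝ) := by
          intro a ha
          refine mul_le_mul_of_nonneg_left ?_ (hPnn a ha)
          refine le_trans ((hw' a ha).2.2 A hAS) ?_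
          refine Real.log_le_log ?_ ?_
          · exact_mod_cast ((hDa a ha).image _).card_pos
          · exact_mod_cast Finset.card_le_card
              (Finset.image_subset_image (Finset.filter_subset _ _))
        refine le_trans (Finset.sum_le_sum this) ?_
        rw [← Finset.sum_mul, hP1, one_mul]

/-- Weights of a finite set of vectors: nonnegative, total log |D|, and the sum over A is at most
the log of the number of A-projections. -/
theorem weights (d : α) (D : Finset (ι → α)) (hD : D.Nonempty) :
    ∃ w : ι → ℝ, (∀ m, 0 ≤ w m) ∧ ∑ m, w m = Real.log (D.card : ℝ) ∧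
      ∀ A : Finset ι, ∑ m ∈ A, w m ≤ Real.log ((D.image (proj d A)).card : ℝ) := by
  obtain ⟨w, h1, h2, h3⟩ := weights_aux d Finset.univ D hD
    (fun x _ y _ h => funext fun m => h m (Finset.mem_univ m))
  exact ⟨w, h1, h2, fun A => h3 A (Finset.subset_univ A)⟩

end Pool.Agent.H73.SlW
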