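import Mathlib
import Pool.Agent.H73.RkTr
import Pool.Agent.H73.SlW

open Finset

namespace Pool.Agent.H73.MaxJI

section core

variable {L ι : Type*} [Lattice L] [OrderBot L] [Fintype L] [DecidableEq L] [DecidableLE L]
  [Fintype ι] [DecidableEq ι]

/-- the coordinates of x -/
def vec (j : ι → L) (x : L) : ι → L := fun m => x ⊓ j m

/-- the set of indices m with j m below x -/
def T (j : ι → L) (x : L) : Finset ι := univ.filter (fun m => j m ≤ x)

/-- coordinate vectors of the elements with index set S -/
def D (j : ι → L) (S : Finset ι) : Finset (ι → L) := (univ.filter (fun x => T j x = S)).image (vec j)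

omit [OrderBot L] [DecidableLE L] [Fintype L] [DecidableEq L] [Fintype ι] [DecidableEq ι] in
theorem vec_inj {j : ι → L} (hinj : ∀ x y : L, (∀ m, x ⊓ j m = y ⊓ j m) → x = y) :
    Function.Injective (vec j) := fun x y h => hinj x y fun m => congrFun h m

theorem card_D {j : ι → L} (hinj : ∀ x y : L, (∀ m, x ⊓ j m = y ⊓ j m) → x = y) (S : Finset ι) :
    (D j S).card = (univ.filter (fun x => T j x = S)).card :=
  Finset.card_image_of_injective _ (vec_inj hinj)

theorem prod_le (j : ι → L) (x y : L) :
    ((D j (T j x)).image (SlW.proj ⊥ (T j y))).card *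
      ((D j (T j y)).image (SlW.proj ⊥ (T j x))).card ≤ Fintype.card L := by
  rw [← Finset.card_product]
  let g : L → (ι → L) × (ι → L) := fun z =>
    (SlW.proj ⊥ (T j y) (vec j z), SlW.proj ⊥ (T j x) (vec j z))
  have hsub : ((D j (T j x)).image (SlW.proj ⊥ (T j y))) ×ˢ
      ((D j (T j y)).image (SlW.proj ⊥ (T j x))) ⊆ (univ : Finset L).image g := by
    rintro ⟨p, q⟩ hpq
    rw [Finset.mem_product] at hpq
    obtain ⟨hp, hq⟩ := hpq
    simp only [D, Finset.mem_image, Finset.mem_filter, Finset.mem_univ, true_and] at hp hq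
    obtain ⟨_, ⟨x', hx', rfl⟩, rfl⟩ := hp
    obtain ⟨_, ⟨y', hy', rfl⟩, rfl⟩ := hq
    rw [Finset.mem_image]
    refine ⟨x' ⊓ y', Finset.mem_univ _, ?_⟩
    simp only [g, Prod.mk.injEq]
    constructor
    · ext m
      simp only [SlW.proj, vec]
      by_cases hm : m ∈ T j y
      · rw [if_pos hm, if_pos hm]
        rw [← hy'] at hm
        simp only [T, Finset.mem_filter, Finset.mem_univ, true_and] at hm
        rw [inf_assoc, inf_eq_right.2 hm]
      · rw [if_neg hm, if_neg hm]
    · ext m
      simp only [SlW.proj, vec]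
      by_cases hm : m ∈ T j x
      · rw [if_pos hm, if_pos hm]
        rw [← hx'] at hm
        simp only [T, Finset.mem_filter, Finset.mem_univ, true_and] at hm
        rw [inf_comm x' y', inf_assoc, inf_eq_right.2 hm]
      · rw [if_neg hm, if_neg hm]
  refine le_trans (Finset.card_le_card hsub) ?_
  refine le_trans Finset.card_image_le ?_
  rw [Finset.card_univ]

theorem diag_le (j : ι → L) (x : L) :
    ((D j (T j x)).image (SlW.proj ⊥ (T j x))).card ≤ 1 := by
  have hsub : (D j (T j x)).image (SlW.proj ⊥ (T j x)) ⊆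
      {fun m => if m ∈ T j x then j m else ⊥} := by
    intro p hp
    simp only [D, Finset.mem_image, Finset.mem_filter, Finset.mem_univ, true_and] at hp
    obtain ⟨_, ⟨x', hx', rfl⟩, rfl⟩ := hp
    rw [Finset.mem_singleton]
    ext m
    simp only [SlW.proj, vec]
    by_cases hm : m ∈ T j x
    · rw [if_pos hm, if_pos hm]
      rw [← hx'] at hm
      simp only [T, Finset.mem_filter, Finset.mem_univ, true_and] at hm
      exact inf_eq_right.2 hm
    · rw [if_neg hm, if_neg hm]
  exact le_trans (Finset.card_le_card hsub) (by simp)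

/-- sum of the logarithms of the class sizes -/
theorem log_classes (j : ι → L) [Nonempty L] :
    (Fintype.card L : ℝ) * Real.log (Fintype.card L) -
      (Fintype.card L : ℝ) * ((Fintype.card ι : ℝ) * Real.log 2) ≤
    ∑ x : L, Real.log ((univ.filter (fun y => T j y = T j x)).card : ℝ) := by
  classical
  set N : ℝ := (Fintype.card L : ℝ) with hN
  have hNpos : 0 < N := by rw [hN]; exact_mod_cast Fintype.card_pos
  set c : L → ℝ := fun x => ((univ.filter (fun y => T j y = T j x)).card : ℝ) with hc
  have hcpos : ∀ x, 0 < c x := fun x => by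
    simp only [hc]
    exact_mod_cast Finset.card_pos.2 ⟨x, by simp⟩
  set K : ℝ := 2 ^ (Fintype.card ι) with hK
  have hKpos : 0 < K := by positivity
  have hinv : ∑ x : L, 1 / c x ≤ K := by
    rw [← Finset.sum_fiberwise (s := (univ : Finset L)) (g := T j) (f := fun x => 1 / c x)]
    have : ∀ S ∈ (univ : Finset (Finset ι)),
        ∑ x ∈ univ.filter (fun x => T j x = S), 1 / c x ≤ 1 := by
      intro S _
      have h1 : ∀ x ∈ univ.filter (fun x => T j x = S), 1 / c x =
          1 / ((univ.filter (fun x => T j x = S)).card : ℝ) := by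
        intro x hx
        rw [Finset.mem_filter] at hx
        simp only [hc, hx.2]
      rw [Finset.sum_congr rfl h1, Finset.sum_const, nsmul_eq_mul]
      by_cases h0 : (univ.filter (fun x => T j x = S)).card = 0
      · rw [h0]; simp
      · rw [mul_one_div, div_self (by exact_mod_cast h0)]
    refine le_trans (Finset.sum_le_sum this) ?_
    rw [Finset.sum_const, Finset.card_univ, Fintype.card_finset, nsmul_eq_mul, mul_one, hK]
    push_cast
    exact le_rfl
  have h2 : ∀ x, Real.log N - Real.log K - Real.log (c x) ≤ N / (c x * K) - 1 := by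
    intro x
    have := Real.log_le_sub_one_of_pos (div_pos hNpos (mul_pos (hcpos x) hKpos))
    rw [Real.log_div hNpos.ne' (mul_pos (hcpos x) hKpos).ne',
      Real.log_mul (hcpos x).ne' hKpos.ne'] at this
    linarith
  have h3 := Finset.sum_le_sum fun x (_ : x ∈ (univ : Finset L)) => h2 x
  rw [Finset.sum_sub_distrib, Finset.sum_sub_distrib, Finset.sum_const, Finset.sum_const,
    Finset.card_univ, nsmul_eq_mul, nsmul_eq_mul] at h3
  rw [← hN] at h3
  have h4 : ∑ x : L, N / (c x * K) = N / K * ∑ x : L, 1 / c x := by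
    rw [Finset.mul_sum]
    refine Finset.sum_congr rfl fun x _ => ?_
    have := (hcpos x).ne'
    field_simp
  have h5 : N / K * ∑ x : L, 1 / c x ≤ N := by
    have := mul_le_mul_of_nonneg_left hinv (div_pos hNpos hKpos).le
    rwa [div_mul_cancel₀ _ hKpos.ne'] at this
  have h6 : Real.log K = (Fintype.card ι : ℝ) * Real.log 2 := by
    rw [hK, Real.log_pow]
  rw [Finset.sum_sub_distrib, Finset.sum_const, Finset.card_univ, nsmul_eq_mul, ← hN, h4] at h3
  rw [← h6]
  linarith

theorem core [Nonempty L] (j : ι → L)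
    (hinj : ∀ x y : L, (∀ m, x ⊓ j m = y ⊓ j m) → x = y)
    (hN : 2 ^ (Fintype.card ι * (2 * Fintype.card ι + 1)) < Fintype.card L) :
    ∃ m, 2 * (univ.filter (fun x => j m ≤ x)).card < Fintype.card L := by
  classical
  by_contra hcon
  push Not at hcon
  set N : ℝ := (Fintype.card L : ℝ) with hNdef
  have hN1 : 1 < Fintype.card L := lt_of_le_of_lt Nat.one_le_two_pow hN
  have hNpos : 0 < N := by rw [hNdef]; exact_mod_cast Fintype.card_pos
  have hlogN : 0 < Real.log N := Real.log_pos (by rw [hNdef]; exact_mod_cast hN1)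
  have hDne : ∀ x, (D j (T j x)).Nonempty := fun x =>
    ⟨vec j x, Finset.mem_image.2 ⟨x, by simp, rfl⟩⟩
  choose W hW0 hW1 hW2 using fun x : L => SlW.weights (⊥ : L) (D j (T j x)) (hDne x)
  set B : L → ι → ℝ := fun x m => if j m ≤ x then 1 else 0 with hB
  have hB0 : ∀ x m, 0 ≤ B x m := fun x m => by simp only [hB]; split_ifs <;> norm_num
  have hTsum : ∀ (f : ι → ℝ) (y : L), ∑ m, f m * B y m = ∑ m ∈ T j y, f m := by
    intro f y
    simp only [hB, T, Finset.sum_filter, mul_ite, mul_one, mul_zero]
  set M : L → L → ℝ := fun x y => ∑ m, (W x m * B y m + B x m * W y m) with hM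
  have hM0 : ∀ x y, 0 ≤ M x y := fun x y => by
    simp only [hM]
    exact Finset.sum_nonneg fun m _ =>
      add_nonneg (mul_nonneg (hW0 x m) (hB0 y m)) (mul_nonneg (hB0 x m) (hW0 y m))
  have hMeq : ∀ x y, M x y = ∑ m ∈ T j y, W x m + ∑ m ∈ T j x, W y m := fun x y => by
    simp only [hM]
    rw [Finset.sum_add_distrib, hTsum (W x) y]
    congr 1
    rw [← hTsum (W y) x]
    exact Finset.sum_congr rfl fun m _ => mul_comm _ _
  have hpos : ∀ x y, 0 < ((D j (T j x)).image (SlW.proj ⊥ (T j y))).card := fun x y =>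
    ((hDne x).image _).card_pos
  have hMle : ∀ x y, M x y ≤ Real.log N := fun x y => by
    rw [hMeq]
    have h1 := hW2 x (T j y)
    have h2 := hW2 y (T j x)
    have h3 : Real.log (((D j (T j x)).image (SlW.proj ⊥ (T j y))).card : ℝ) +
        Real.log (((D j (T j y)).image (SlW.proj ⊥ (T j x))).card : ℝ) ≤ Real.log N := by
      rw [← Real.log_mul (by exact_mod_cast (hpos x y).ne') (by exact_mod_cast (hpos y x).ne')]
      refine Real.log_le_log ?_ ?_
      · exact_mod_cast Nat.mul_pos (hpos x y) (hpos y x)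
      · rw [hNdef]; exact_mod_cast prod_le j x y
    linarith
  have hMdiag : ∀ x, M x x = 0 := fun x => by
    refine le_antisymm ?_ (hM0 x x)
    rw [hMeq]
    have h1 := hW2 x (T j x)
    have h2 : ((D j (T j x)).image (SlW.proj ⊥ (T j x))).card = 1 :=
      le_antisymm (diag_le j x) (hpos x x)
    rw [h2, Nat.cast_one, Real.log_one] at h1
    linarith
  have hu : ∀ m, ∑ y : L, B y m = ((univ.filter (fun x => j m ≤ x)).card : ℝ) := fun m => by
    simp only [hB]
    rw [Finset.sum_boole]
  have hsumM : ∑ x : L, ∑ y : L, M x y =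
      2 * ∑ x : L, ∑ m, W x m * ((univ.filter (fun x => j m ≤ x)).card : ℝ) := by
    have e1 : ∀ x : L, ∑ y : L, ∑ m, W x m * B y m =
        ∑ m, W x m * ((univ.filter (fun x => j m ≤ x)).card : ℝ) := by
      intro x
      rw [Finset.sum_comm]
      refine Finset.sum_congr rfl fun m _ => ?_
      rw [← Finset.mul_sum, hu]
    have e2 : ∑ x : L, ∑ y : L, ∑ m, B x m * W y m =
        ∑ x : L, ∑ m, W x m * ((univ.filter (fun x => j m ≤ x)).card : ℝ) := by
      rw [Finset.sum_comm]
      refine Finset.sum_congr rfl fun x _ => ?_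
      rw [← e1 x]
      refine Finset.sum_congr rfl fun y _ => Finset.sum_congr rfl fun m _ => mul_comm _ _
    simp only [hM, Finset.sum_add_distrib]
    rw [Finset.sum_congr rfl fun x _ => e1 x, e2]
    ring
  have hlower : N * ∑ x : L, Real.log ((univ.filter (fun y => T j y = T j x)).card : ℝ) ≤
      ∑ x : L, ∑ y : L, M x y := by
    rw [hsumM, Finset.mul_sum, Finset.mul_sum]
    refine Finset.sum_le_sum fun x _ => ?_
    rw [← card_D hinj, ← hW1 x, Finset.mul_sum, Finset.mul_sum]
    refine Finset.sum_le_sum fun m _ => ?_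
    have h1 : N ≤ 2 * ((univ.filter (fun x => j m ≤ x)).card : ℝ) := by
      rw [hNdef]; exact_mod_cast hcon m
    have := mul_le_mul_of_nonneg_left h1 (hW0 x m)
    linarith
  have hcl := log_classes (L := L) j
  rw [← hNdef] at hcl
  have hlow2 : N * (N * Real.log N - N * ((Fintype.card ι : ℝ) * Real.log 2)) ≤
      ∑ x : L, ∑ y : L, M x y := le_trans (mul_le_mul_of_nonneg_left hcl hNpos.le) hlower
  set P : L → L → ℝ := fun x y => Real.log N - M x y with hP
  have hrt := RkTr.rank_trace' W B (Real.log N) P (fun x y => rfl)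
  have hPd : ∑ x : L, P x x = N * Real.log N := by
    simp only [hP, hMdiag, sub_zero]
    rw [Finset.sum_const, Finset.card_univ, nsmul_eq_mul, hNdef]
  have hPs : ∑ x : L, ∑ y : L, (P x y) ^ 2 ≤ Real.log N * ∑ x : L, ∑ y : L, P x y := by
    rw [Finset.mul_sum]
    refine Finset.sum_le_sum fun x _ => ?_
    rw [Finset.mul_sum]
    refine Finset.sum_le_sum fun y _ => ?_
    rw [sq]
    refine mul_le_mul_of_nonneg_right ?_ (sub_nonneg.2 (hMle x y))
    simp only [hP]
    linarith [hM0 x y]
  have hPsum : ∑ x : L, ∑ y : L, P x y = N * (N * Real.log N) - ∑ x : L, ∑ y : L, M x y := by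
    simp only [hP, Finset.sum_sub_distrib, Finset.sum_const, Finset.card_univ, nsmul_eq_mul]
    rw [← hNdef]
  set r : ℝ := (Fintype.card ι : ℝ) with hr
  have hr0 : 0 ≤ r := by rw [hr]; exact Nat.cast_nonneg _
  have hfin : (N * Real.log N) ^ 2 ≤ (2 * r + 1) * (Real.log N * (N * N * (r * Real.log 2))) := by
    rw [hPd] at hrt
    refine le_trans hrt (mul_le_mul_of_nonneg_left ?_ (by positivity))
    refine le_trans hPs (mul_le_mul_of_nonneg_left ?_ hlogN.le)
    rw [hPsum]
    nlinarith [hlow2]
  have hfin2 : Real.log N ≤ (2 * r + 1) * (r * Real.log 2) := by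
    have hpos2 : 0 < N * N * Real.log N := by positivity
    have : (N * N * Real.log N) * Real.log N ≤
        (N * N * Real.log N) * ((2 * r + 1) * (r * Real.log 2)) := by
      nlinarith [hfin]
    exact le_of_mul_le_mul_left this hpos2
  have hcontra : (2 * r + 1) * (r * Real.log 2) < Real.log N := by
    have h1 : Real.log ((2 : ℝ) ^ (Fintype.card ι * (2 * Fintype.card ι + 1))) < Real.log N := by
      refine Real.log_lt_log (by positivity) ?_
      rw [hNdef]
      exact_mod_cast hN
    rw [Real.log_pow] at h1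
    push_cast at h1
    rw [← hr] at h1
    linarith
  linarith

end core

/-- Every finite lattice with more than 2^(r(2r+1)) elements, r the number of its maximal
join-irreducible elements, has a maximal join-irreducible element below less than half of the
elements. -/
theorem main (L : Type*) [Lattice L] [Fintype L]
    (hN : 2 ^ (Nat.card {a : L // Maximal SupIrred a} *
      (2 * Nat.card {a : L // Maximal SupIrred a} + 1)) < Nat.card L) :
    ∃ a : L, Maximal SupIrred a ∧ 2 * Nat.card {x : L // a ≤ x} < Nat.card L := by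
  classical
  rw [Nat.card_eq_fintype_card, Nat.card_eq_fintype_card] at hN
  haveI : Nonempty L := Fintype.card_pos_iff.1 (lt_of_le_of_lt (Nat.zero_le _) hN)
  letI : OrderBot L := Fintype.toOrderBot L
  have hinj : ∀ x y : L, (∀ m : {a : L // Maximal SupIrred a}, x ⊓ (m : L) = y ⊓ (m : L)) →
      x = y := by
    have key : ∀ x y : L, (∀ m : {a : L // Maximal SupIrred a}, x ⊓ (m : L) = y ⊓ (m : L)) →
        x ≤ y := by
      intro x y h
      obtain ⟨s, hs, hirr⟩ := exists_supIrred_decomposition x
      rw [← hs]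
      refine Finset.sup_le fun b hb => ?_
      obtain ⟨m, hbm, hm⟩ := (Set.toFinite {a : L | SupIrred a}).exists_le_maximal (hirr hb)
      have hbx : b ≤ x := by
        rw [← hs]; exact Finset.le_sup (f := id) hb
      have := h ⟨m, hm⟩
      calc b ≤ x ⊓ m := le_inf hbx hbm
        _ = y ⊓ m := this
        _ ≤ y := inf_le_left
    intro x y h
    exact le_antisymm (key x y h) (key y x fun m => (h m).symm)
  obtain ⟨m, hm⟩ := core (fun m : {a : L // Maximal SupIrred a} => (m : L)) hinj hN
  refine ⟨m, m.2, ?_⟩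
  rw [Nat.card_eq_fintype_card, Nat.card_eq_fintype_card, Fintype.card_subtype]
  exact hm

end Pool.Agent.H73.MaxJI
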