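import Mathlib
import Pool.Agent.H73.RkTr

open Finset Matrix

namespace Pool.Agent.H73.RkTr

variable {X : Type*} [Fintype X] [DecidableEq X]

/-- If A = Q - R with R positive semidefinite (R = G Gᵀ) and Q symmetric, then a nonnegative trace
of A is at most sqrt (rank Q) times the Frobenius norm of A. -/
theorem trace_sq_le_pos {κ : Type*} [Fintype κ] (A Q : Matrix X X ℝ) (G : Matrix X κ ℝ)
    (hQ : Q.IsHermitian) (hA : A = Q - G * Gᵀ) (htr : 0 ≤ A.trace) :
    A.trace ^ 2 ≤ (Q.rank : ℝ) * ∑ x, ∑ y, (A x y) ^ 2 := by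
  classical
  let U : Matrix X X ℝ := (hQ.eigenvectorUnitary : Matrix X X ℝ)
  have hU1 : Uᵀ * U = 1 := by
    have := Unitary.coe_star_mul_self hQ.eigenvectorUnitary
    simpa [U, Matrix.star_eq_conjTranspose, Matrix.conjTranspose_eq_transpose_of_trivial] using this
  have hU2 : U * Uᵀ = 1 := by
    have := Unitary.coe_mul_star_self hQ.eigenvectorUnitary
    simpa [U, Matrix.star_eq_conjTranspose, Matrix.conjTranspose_eq_transpose_of_trivial] using this
  let C : Matrix X X ℝ := Uᵀ * A * U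
  have hCtr : C.trace = A.trace := by
    simp only [C]
    rw [Matrix.trace_mul_comm, ← Matrix.mul_assoc, hU2, Matrix.one_mul]
  have hQU : Uᵀ * Q * U = Matrix.diagonal hQ.eigenvalues := by
    have := hQ.conjStarAlgAut_star_eigenvectorUnitary
    rw [Unitary.conjStarAlgAut_star_apply] at this
    simpa [U, Matrix.star_eq_conjTranspose, Matrix.conjTranspose_eq_transpose_of_trivial] using this
  have hCC : C = Matrix.diagonal hQ.eigenvalues - (Uᵀ * G) * (Uᵀ * G)ᵀ := by
    simp only [C]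
    rw [hA, Matrix.mul_sub, Matrix.sub_mul, hQU, Matrix.transpose_mul, Matrix.transpose_transpose]
    simp only [Matrix.mul_assoc]
  have hCdiag : ∀ i, hQ.eigenvalues i = 0 → C i i ≤ 0 := by
    intro i hi
    rw [hCC, Matrix.sub_apply, Matrix.diagonal_apply_eq, hi, Matrix.mul_apply]
    have : 0 ≤ ∑ k, (Uᵀ * G) i k * (Uᵀ * G)ᵀ k i :=
      Finset.sum_nonneg fun k _ => by rw [Matrix.transpose_apply]; exact mul_self_nonneg _
    linarith
  have hfrob : ∑ x, ∑ y, (C x y) ^ 2 = ∑ x, ∑ y, (A x y) ^ 2 := by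
    have e : ∀ E : Matrix X X ℝ, ∑ x, ∑ y, (E x y) ^ 2 = (E * Eᵀ).trace := by
      intro E
      rw [Matrix.trace]
      refine Finset.sum_congr rfl fun x _ => ?_
      rw [Matrix.diag_apply, Matrix.mul_apply]
      exact Finset.sum_congr rfl fun y _ => by rw [Matrix.transpose_apply, sq]
    rw [e, e]
    have h1 : C * Cᵀ = Uᵀ * (A * Aᵀ) * U := by
      simp only [C]
      rw [Matrix.transpose_mul, Matrix.transpose_mul, Matrix.transpose_transpose]
      calc Uᵀ * A * U * (Uᵀ * (Aᵀ * U)) = Uᵀ * A * (U * Uᵀ) * Aᵀ * U := by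
            simp only [Matrix.mul_assoc]
        _ = Uᵀ * (A * Aᵀ) * U := by rw [hU2, Matrix.mul_one]; simp only [Matrix.mul_assoc]
    rw [h1, Matrix.trace_mul_comm, ← Matrix.mul_assoc, hU2, Matrix.one_mul]
  set S : Finset X := univ.filter fun i => hQ.eigenvalues i ≠ 0 with hS
  have hrank : (Q.rank : ℝ) = (S.card : ℝ) := by
    rw [hQ.rank_eq_card_non_zero_eigs, Fintype.card_subtype]
  have hle : C.trace ≤ ∑ i ∈ S, C i i := by
    rw [Matrix.trace, ← Finset.sum_filter_add_sum_filter_not univ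
      (fun i => hQ.eigenvalues i ≠ 0)]
    simp only [Matrix.diag_apply]
    have : ∑ i ∈ univ.filter (fun i => ¬ hQ.eigenvalues i ≠ 0), C i i ≤ 0 :=
      Finset.sum_nonpos fun i hi => by
        rw [Finset.mem_filter, not_not] at hi
        exact hCdiag i hi.2
    linarith
  have hsq : C.trace ^ 2 ≤ (∑ i ∈ S, C i i) ^ 2 := by
    rw [hCtr] at hle ⊢
    exact pow_le_pow_left₀ htr hle 2
  have hcs : (∑ i ∈ S, C i i) ^ 2 ≤ (S.card : ℝ) * ∑ i ∈ S, (C i i) ^ 2 :=
    sq_sum_le_card_mul_sum_sq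
  have hd : ∑ i ∈ S, (C i i) ^ 2 ≤ ∑ x, ∑ y, (C x y) ^ 2 := by
    refine le_trans (Finset.sum_le_sum_of_subset_of_nonneg (Finset.subset_univ S)
      (fun i _ _ => sq_nonneg _)) ?_
    exact Finset.sum_le_sum fun i _ =>
      Finset.single_le_sum (f := fun y => (C i y) ^ 2) (fun y _ => sq_nonneg _)
        (Finset.mem_univ i)
  rw [hrank, ← hfrob, ← hCtr]
  exact le_trans hsq (le_trans hcs (mul_le_mul_of_nonneg_left hd (Nat.cast_nonneg _)))

theorem rank_trace_pos {κ : Type*} [Fintype κ] (W B : X → κ → ℝ) (c : ℝ)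
    (P : X → X → ℝ) (hP : ∀ x y, P x y = c - ∑ m, (W x m * B y m + B x m * W y m))
    (htr : 0 ≤ ∑ x, P x x) :
    (∑ x, P x x) ^ 2 ≤ ((Fintype.card κ : ℝ) + 1) * ∑ x, ∑ y, (P x y) ^ 2 := by
  classical
  let A : Matrix X X ℝ := Matrix.of P
  let s : ℝ := Real.sqrt (1 / 2)
  have hs : s * s = 1 / 2 := Real.mul_self_sqrt (by norm_num)
  let G : Matrix X κ ℝ := Matrix.of fun x m => s * (W x m + B x m)
  let F : Matrix X (Unit ⊕ κ) ℝ :=
    Matrix.of fun x => Sum.elim (fun _ => c) (fun m => s * (W x m - B x m))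
  let F' : Matrix (Unit ⊕ κ) X ℝ :=
    Matrix.of fun k y => Sum.elim (fun _ => 1) (fun m => s * (W y m - B y m)) k
  let Q : Matrix X X ℝ := F * F'
  have hQapp : ∀ x y, Q x y = c + ∑ m, (1 / 2) * ((W x m - B x m) * (W y m - B y m)) := by
    intro x y
    simp only [Q]
    rw [Matrix.mul_apply, Fintype.sum_sum_type]
    simp only [F, F', Matrix.of_apply, Sum.elim_inl, Sum.elim_inr, Finset.univ_unique,
      Finset.sum_singleton, mul_one]
    congr 1
    refine Finset.sum_congr rfl fun m _ => ?_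
    rw [← hs]; ring
  have hQ : Q.IsHermitian := by
    ext x y
    rw [Matrix.conjTranspose_apply, star_trivial, hQapp, hQapp]
    congr 1
    exact Finset.sum_congr rfl fun m _ => by ring
  have hA : A = Q - G * Gᵀ := by
    ext x y
    rw [Matrix.sub_apply, hQapp, Matrix.mul_apply]
    simp only [A, G, Matrix.of_apply, Matrix.transpose_apply, hP]
    rw [add_sub_assoc, ← Finset.sum_sub_distrib, sub_eq_add_neg, ← Finset.sum_neg_distrib]
    congr 1
    refine Finset.sum_congr rfl fun m _ => ?_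
    have : s * (W x m + B x m) * (s * (W y m + B y m)) =
        (s * s) * ((W x m + B x m) * (W y m + B y m)) := by ring
    rw [this, hs]; ring
  have hr : Q.rank ≤ Fintype.card κ + 1 := by
    refine le_trans (Matrix.rank_mul_le_left F F') ?_
    refine le_trans (Matrix.rank_le_card_width F) ?_
    simp only [Fintype.card_sum, Fintype.card_unit]
    omega
  have ht : A.trace = ∑ x, P x x := rfl
  have h := trace_sq_le_pos A Q G hQ hA (by rw [ht]; exact htr)
  rw [ht] at h
  refine le_trans h ?_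
  have hs0 : 0 ≤ ∑ x, ∑ y, (A x y) ^ 2 :=
    Finset.sum_nonneg fun x _ => Finset.sum_nonneg fun y _ => sq_nonneg _
  have hr' : (Q.rank : ℝ) ≤ (Fintype.card κ : ℝ) + 1 := by exact_mod_cast hr
  exact mul_le_mul_of_nonneg_right hr' hs0

end Pool.Agent.H73.RkTr
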