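import Mathlib
import Pool.Agent.H73.RkTr2
import Pool.Agent.H73.MaxJI

open Finset

namespace Pool.Agent.H73.MaxJI

section core2

variable {L ι : Type*} [Lattice L] [OrderBot L] [Fintype L] [DecidableEq L] [DecidableLE L]
  [Fintype ι] [DecidableEq ι]

/-- sum of the logarithms of the class sizes -/
theorem log_classes2 (j : ι → L) [Nonempty L] :
    (Fintype.card L : ℝ) * Real.log (Fintype.card L) -
      (Fintype.card L : ℝ) * Real.log ((univ.image (T j)).card : ℝ) ≤
    ∑ x : L, Real.log ((univ.filter (fun y => T j y = T j x)).card : ℝ) := by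
  classical
  set N : ℝ := (Fintype.card L : ℝ) with hN
  have hNpos : 0 < N := by rw [hN]; exact_mod_cast Fintype.card_pos
  set c : L → ℝ := fun x => ((univ.filter (fun y => T j y = T j x)).card : ℝ) with hc
  have hcpos : ∀ x, 0 < c x := fun x => by
    simp only [hc]
    exact_mod_cast Finset.card_pos.2 ⟨x, by simp⟩
  set K : ℝ := ((univ.image (T j)).card : ℝ) with hK
  have hKpos : 0 < K := by
    rw [hK]; exact_mod_cast (Finset.univ_nonempty.image (T j)).card_pos
  have hinv : ∑ x : L, 1 / c x ≤ K := by
    rw [← Finset.sum_fiberwise_of_maps_to (s := (univ : Finset L)) (t := univ.image (T j))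
      (g := T j) (fun x hx => Finset.mem_image_of_mem _ hx) (f := fun x => 1 / c x)]
    have : ∀ S ∈ univ.image (T j),
        ∑ x ∈ univ.filter (fun x => T j x = S), 1 / c x ≤ 1 := by
      intro S _
      have h1 : ∀ x ∈ univ.filter (fun x => T j x = S), 1 / c x =
          1 / ((univ.filter (fun x => T j x = S)).card : ℝ) := by
        intro x hx
        rw [Finset.mem_filter] at hx
        simp only [hc, hx.2]
      rw [Finset.sum_congr rfl h1, Finset.sum_const, nsmul_eq_mul]
      by_cases h0 : (univ.filter (fun x => T j x = S)).card = 0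
      · rw [h0]; simp
      · rw [mul_one_div, div_self (by exact_mod_cast h0)]
    refine le_trans (Finset.sum_le_sum this) ?_
    rw [Finset.sum_const, nsmul_eq_mul, mul_one, hK]
  have h2 : ∀ x, Real.log N - Real.log K - Real.log (c x) ≤ N / (c x * K) - 1 := by
    intro x
    have := Real.log_le_sub_one_of_pos (div_pos hNpos (mul_pos (hcpos x) hKpos))
    rw [Real.log_div hNpos.ne' (mul_pos (hcpos x) hKpos).ne',
      Real.log_mul (hcpos x).ne' hKpos.ne'] at this
    linarith
  have h3 := Finset.sum_le_sum fun x (_ : x ∈ (univ : Finset L)) => h2 x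
  rw [Finset.sum_sub_distrib, Finset.sum_sub_distrib, Finset.sum_const, Finset.sum_const,
    Finset.card_univ, nsmul_eq_mul, nsmul_eq_mul] at h3
  rw [← hN] at h3
  have h4 : ∑ x : L, N / (c x * K) = N / K * ∑ x : L, 1 / c x := by
    rw [Finset.mul_sum]
    refine Finset.sum_congr rfl fun x _ => ?_
    have := (hcpos x).ne'
    field_simp
  have h5 : N / K * ∑ x : L, 1 / c x ≤ N := by
    have := mul_le_mul_of_nonneg_left hinv (div_pos hNpos hKpos).le
    rwa [div_mul_cancel₀ _ hKpos.ne'] at this
  rw [Finset.sum_sub_distrib, Finset.sum_const, Finset.card_univ, nsmul_eq_mul, ← hN, h4] at h3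
  linarith

theorem core2 [Nonempty L] (j : ι → L)
    (hinj : ∀ x y : L, (∀ m, x ⊓ j m = y ⊓ j m) → x = y)
    (hN : (univ.image (T j)).card ^ (Fintype.card ι + 1) < Fintype.card L) :
    ∃ m, 2 * (univ.filter (fun x => j m ≤ x)).card < Fintype.card L := by
  classical
  by_contra hcon
  push Not at hcon
  set N : ℝ := (Fintype.card L : ℝ) with hNdef
  have hK1 : 0 < (univ.image (T j)).card := (Finset.univ_nonempty.image (T j)).card_pos
  have hN1 : 1 < Fintype.card L := lt_of_le_of_lt (Nat.one_le_pow _ _ hK1) hN
  set K : ℝ := ((univ.image (T j)).card : ℝ) with hKdef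
  have hKpos : 0 < K := by rw [hKdef]; exact_mod_cast hK1
  have hlogK : 0 ≤ Real.log K := Real.log_nonneg (by rw [hKdef]; exact_mod_cast hK1)
  have hNpos : 0 < N := by rw [hNdef]; exact_mod_cast Fintype.card_pos
  have hlogN : 0 < Real.log N := Real.log_pos (by rw [hNdef]; exact_mod_cast hN1)
  have hDne : ∀ x, (D j (T j x)).Nonempty := fun x =>
    ⟨vec j x, Finset.mem_image.2 ⟨x, by simp, rfl⟩⟩
  choose W hW0 hW1 hW2 using fun x : L => SlW.weights (⊥ : L) (D j (T j x)) (hDne x)
  set B : L → ι → ℝ := fun x m => if j m ≤ x then 1 else 0 with hB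
  have hB0 : ∀ x m, 0 ≤ B x m := fun x m => by simp only [hB]; split_ifs <;> norm_num
  have hTsum : ∀ (f : ι → ℝ) (y : L), ∑ m, f m * B y m = ∑ m ∈ T j y, f m := by
    intro f y
    simp only [hB, T, Finset.sum_filter, mul_ite, mul_one, mul_zero]
  set M : L → L → ℝ := fun x y => ∑ m, (W x m * B y m + B x m * W y m) with hM
  have hM0 : ∀ x y, 0 ≤ M x y := fun x y => by
    simp only [hM]
    exact Finset.sum_nonneg fun m _ =>
      add_nonneg (mul_nonneg (hW0 x m) (hB0 y m)) (mul_nonneg (hB0 x m) (hW0 y m))
  have hMeq : ∀ x y, M x y = ∑ m ∈ T j y, W x m + ∑ m ∈ T j x, W y m := fun x y => by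
    simp only [hM]
    rw [Finset.sum_add_distrib, hTsum (W x) y]
    congr 1
    rw [← hTsum (W y) x]
    exact Finset.sum_congr rfl fun m _ => mul_comm _ _
  have hpos : ∀ x y, 0 < ((D j (T j x)).image (SlW.proj ⊥ (T j y))).card := fun x y =>
    ((hDne x).image _).card_pos
  have hMle : ∀ x y, M x y ≤ Real.log N := fun x y => by
    rw [hMeq]
    have h1 := hW2 x (T j y)
    have h2 := hW2 y (T j x)
    have h3 : Real.log (((D j (T j x)).image (SlW.proj ⊥ (T j y))).card : ℝ) +
        Real.log (((D j (T j y)).image (SlW.proj ⊥ (T j x))).card : ℝ) ≤ Real.log N := by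
      rw [← Real.log_mul (by exact_mod_cast (hpos x y).ne') (by exact_mod_cast (hpos y x).ne')]
      refine Real.log_le_log ?_ ?_
      · exact_mod_cast Nat.mul_pos (hpos x y) (hpos y x)
      · rw [hNdef]; exact_mod_cast prod_le j x y
    linarith
  have hMdiag : ∀ x, M x x = 0 := fun x => by
    refine le_antisymm ?_ (hM0 x x)
    rw [hMeq]
    have h1 := hW2 x (T j x)
    have h2 : ((D j (T j x)).image (SlW.proj ⊥ (T j x))).card = 1 :=
      le_antisymm (diag_le j x) (hpos x x)
    rw [h2, Nat.cast_one, Real.log_one] at h1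
    linarith
  have hu : ∀ m, ∑ y : L, B y m = ((univ.filter (fun x => j m ≤ x)).card : ℝ) := fun m => by
    simp only [hB]
    rw [Finset.sum_boole]
  have hsumM : ∑ x : L, ∑ y : L, M x y =
      2 * ∑ x : L, ∑ m, W x m * ((univ.filter (fun x => j m ≤ x)).card : ℝ) := by
    have e1 : ∀ x : L, ∑ y : L, ∑ m, W x m * B y m =
        ∑ m, W x m * ((univ.filter (fun x => j m ≤ x)).card : ℝ) := by
      intro x
      rw [Finset.sum_comm]
      refine Finset.sum_congr rfl fun m _ => ?_
      rw [← Finset.mul_sum, hu]
    have e2 : ∑ x : L, ∑ y : L, ∑ m, B x m * W y m =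
        ∑ x : L, ∑ m, W x m * ((univ.filter (fun x => j m ≤ x)).card : ℝ) := by
      rw [Finset.sum_comm]
      refine Finset.sum_congr rfl fun x _ => ?_
      rw [← e1 x]
      refine Finset.sum_congr rfl fun y _ => Finset.sum_congr rfl fun m _ => mul_comm _ _
    simp only [hM, Finset.sum_add_distrib]
    rw [Finset.sum_congr rfl fun x _ => e1 x, e2]
    ring
  have hlower : N * ∑ x : L, Real.log ((univ.filter (fun y => T j y = T j x)).card : ℝ) ≤
      ∑ x : L, ∑ y : L, M x y := by
    rw [hsumM, Finset.mul_sum, Finset.mul_sum]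
    refine Finset.sum_le_sum fun x _ => ?_
    rw [← card_D hinj, ← hW1 x, Finset.mul_sum, Finset.mul_sum]
    refine Finset.sum_le_sum fun m _ => ?_
    have h1 : N ≤ 2 * ((univ.filter (fun x => j m ≤ x)).card : ℝ) := by
      rw [hNdef]; exact_mod_cast hcon m
    have := mul_le_mul_of_nonneg_left h1 (hW0 x m)
    linarith
  have hcl := log_classes2 (L := L) j
  rw [← hNdef, ← hKdef] at hcl
  have hlow2 : N * (N * Real.log N - N * Real.log K) ≤
      ∑ x : L, ∑ y : L, M x y := le_trans (mul_le_mul_of_nonneg_left hcl hNpos.le) hlower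
  set P : L → L → ℝ := fun x y => Real.log N - M x y with hP
  
  have hPd : ∑ x : L, P x x = N * Real.log N := by
    simp only [hP, hMdiag, sub_zero]
    rw [Finset.sum_const, Finset.card_univ, nsmul_eq_mul, hNdef]
  have hrt := RkTr.rank_trace_pos W B (Real.log N) P (fun x y => rfl)
    (by rw [hPd]; positivity)
  have hPs : ∑ x : L, ∑ y : L, (P x y) ^ 2 ≤ Real.log N * ∑ x : L, ∑ y : L, P x y := by
    rw [Finset.mul_sum]
    refine Finset.sum_le_sum fun x _ => ?_
    rw [Finset.mul_sum]
    refine Finset.sum_le_sum fun y _ => ?_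
    rw [sq]
    refine mul_le_mul_of_nonneg_right ?_ (sub_nonneg.2 (hMle x y))
    simp only [hP]
    linarith [hM0 x y]
  have hPsum : ∑ x : L, ∑ y : L, P x y = N * (N * Real.log N) - ∑ x : L, ∑ y : L, M x y := by
    simp only [hP, Finset.sum_sub_distrib, Finset.sum_const, Finset.card_univ, nsmul_eq_mul]
    rw [← hNdef]
  set r : ℝ := (Fintype.card ι : ℝ) with hr
  have hr0 : 0 ≤ r := by rw [hr]; exact Nat.cast_nonneg _
  have hfin : (N * Real.log N) ^ 2 ≤ (r + 1) * (Real.log N * (N * N * Real.log K)) := by
    rw [hPd] at hrt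
    refine le_trans hrt (mul_le_mul_of_nonneg_left ?_ (by positivity))
    refine le_trans hPs (mul_le_mul_of_nonneg_left ?_ hlogN.le)
    rw [hPsum]
    nlinarith [hlow2]
  have hfin2 : Real.log N ≤ (r + 1) * Real.log K := by
    have hpos2 : 0 < N * N * Real.log N := by positivity
    have : (N * N * Real.log N) * Real.log N ≤
        (N * N * Real.log N) * ((r + 1) * Real.log K) := by
      nlinarith [hfin]
    exact le_of_mul_le_mul_left this hpos2
  have hcontra : (r + 1) * Real.log K < Real.log N := by
    have h1 : Real.log (K ^ (Fintype.card ι + 1)) < Real.log N := by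
      refine Real.log_lt_log (by positivity) ?_
      rw [hNdef, hKdef]
      exact_mod_cast hN
    rw [Real.log_pow] at h1
    push_cast at h1
    rw [← hr] at h1
    linarith
  linarith

end core2

/-- Let L be a finite lattice, r the number of its maximal join-irreducible elements and K the
number of different sets of maximal join-irreducible elements below an element of L.  If
K^(r+1) < |L|, then some maximal join-irreducible element is below less than half of L. -/
theorem main2 (L : Type*) [Lattice L] [Finite L]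
    (hN : (Nat.card (Set.range fun x : L => {a : L | Maximal SupIrred a ∧ a ≤ x})) ^
      (Nat.card {a : L // Maximal SupIrred a} + 1) < Nat.card L) :
    ∃ a : L, Maximal SupIrred a ∧ 2 * Nat.card {x : L // a ≤ x} < Nat.card L := by
  classical
  have := Fintype.ofFinite L
  have hne : Nonempty L := by
    by_contra h
    rw [not_nonempty_iff] at h
    rw [Nat.card_of_isEmpty (α := L)] at hN
    exact absurd hN (Nat.not_lt_zero _)
  let hbot : OrderBot L := Fintype.toOrderBot L
  have hinj : ∀ x y : L, (∀ m : {a : L // Maximal SupIrred a}, x ⊓ (m : L) = y ⊓ (m : L)) →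
      x = y := by
    have key : ∀ x y : L, (∀ m : {a : L // Maximal SupIrred a}, x ⊓ (m : L) = y ⊓ (m : L)) →
        x ≤ y := by
      intro x y h
      obtain ⟨s, hs, hirr⟩ := exists_supIrred_decomposition x
      rw [← hs]
      refine Finset.sup_le fun b hb => ?_
      obtain ⟨m, hbm, hm⟩ := (Set.toFinite {a : L | SupIrred a}).exists_le_maximal (hirr hb)
      have hbx : b ≤ x := by
        rw [← hs]; exact Finset.le_sup (f := id) hb
      have := h ⟨m, hm⟩
      calc b ≤ x ⊓ m := le_inf hbx hbm
        _ = y ⊓ m := this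
        _ ≤ y := inf_le_left
    intro x y h
    exact le_antisymm (key x y h) (key y x fun m => (h m).symm)
  have hK : (univ.image (T (fun m : {a : L // Maximal SupIrred a} => (m : L)))).card =
      Nat.card (Set.range fun x : L => {a : L | Maximal SupIrred a ∧ a ≤ x}) := by
    let φ : Finset {a : L // Maximal SupIrred a} → Set L :=
      fun S => Subtype.val '' (S : Set {a : L // Maximal SupIrred a})
    have hφ : Function.Injective φ := fun S S' h => by
      have := Set.image_injective.2 Subtype.val_injective h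
      exact_mod_cast this
    have h1 : (Set.range fun x : L => {a : L | Maximal SupIrred a ∧ a ≤ x}) =
        ((univ.image (T (fun m : {a : L // Maximal SupIrred a} => (m : L)))).map ⟨φ, hφ⟩ :
          Set (Set L)) := by
      ext s
      simp only [Set.mem_range, Finset.coe_map, Function.Embedding.coeFn_mk, Finset.coe_image,
        Finset.coe_univ, Set.image_univ, Set.mem_image, exists_exists_eq_and]
      constructor
      · rintro ⟨x, rfl⟩
        refine ⟨x, ?_⟩
        ext a
        simp [φ, T, and_comm]
      · rintro ⟨x, rfl⟩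
        refine ⟨x, ?_⟩
        ext a
        simp [φ, T, and_comm]
    rw [h1, Nat.card_coe_set_eq, Set.ncard_coe_finset, Finset.card_map]
  rw [← hK, Nat.card_eq_fintype_card, Nat.card_eq_fintype_card] at hN
  obtain ⟨m, hm⟩ := core2 (fun m : {a : L // Maximal SupIrred a} => (m : L)) hinj hN
  refine ⟨m, m.2, ?_⟩
  rw [Nat.card_eq_fintype_card, Nat.card_eq_fintype_card, Fintype.card_subtype]
  exact hm

end Pool.Agent.H73.MaxJI
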