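import Pool.Agent.H73.PreorderDefs

/-!
# Nachbin's version of Urysohn's lemma, and the equivalence of three properties of a space
-/

namespace Pool.Agent.H73.Preord

open Set

variable {X : Type*} [TopologicalSpace X] {r : X → X → Prop}

/-- The interpolation property used for `Urysohns.CU`. -/
def PP (r : X → X → Prop) (c u : Set X) : Prop :=
  IsDecr r u ∧ ∃ C' : Set X, IsClosed C' ∧ IsDecr r C' ∧ c ⊆ C' ∧ C' ⊆ u

omit [TopologicalSpace X] in
lemma isIncr_compl {D : Set X} (h : IsDecr r D) : IsIncr r Dᶜ :=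
  fun z x hxz hx hz => hx (h x z hxz hz)

omit [TopologicalSpace X] in
lemma isDecr_compl {D : Set X} (h : IsIncr r D) : IsDecr r Dᶜ :=
  fun z x hzx hx hz => hx (h x z hzx hz)

lemma approx_increasing (n : ℕ) (c : Urysohns.CU (PP r)) : Increasing r (c.approx n) := by
  induction n generalizing c with
  | zero =>
    intro x y hxy
    simp only [Urysohns.CU.approx]
    by_cases hx : x ∈ c.U
    · rw [indicator_of_notMem (by simpa using hx)]
      exact indicator_nonneg (fun _ _ => zero_le_one) _
    · have hy : y ∉ c.U := fun hy => hx (c.P_C_U.1 x y hxy hy)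
      rw [indicator_of_mem (by simpa using hx), indicator_of_mem (by simpa using hy)]
      simp
  | succ n ih =>
    intro x y hxy
    simp only [Urysohns.CU.approx]
    exact midpoint_le_midpoint (ih _ x y hxy) (ih _ x y hxy)

lemma lim_increasing (c : Urysohns.CU (PP r)) : Increasing r c.lim := by
  intro x y hxy
  exact ciSup_mono (c.bddAbove_range_approx y) fun n => approx_increasing n c x y hxy

/-- Nachbin's version of Urysohn's lemma. -/
theorem urysohn (hr : IsNormalRel r) {A B : Set X} (hA : IsClosed A) (hA' : IsDecr r A)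
    (hB : IsClosed B) (hB' : IsIncr r B) (hAB : A ∩ B = ∅) :
    ∃ f : X → ℝ, Continuous f ∧ Increasing r f ∧ (∀ x ∈ A, f x = 0) ∧ (∀ x ∈ B, f x = 1) ∧
      ∀ x, f x ∈ Icc (0 : ℝ) 1 := by
  have hsub : A ⊆ Bᶜ := fun x hx hx' => by
    have : x ∈ A ∩ B := ⟨hx, hx'⟩
    rw [hAB] at this
    exact this
  let c : Urysohns.CU (PP r) :=
    { C := A
      U := Bᶜ
      P_C_U := ⟨isDecr_compl hB', A, hA, hA', Subset.rfl, hsub⟩
      closed_C := hA
      open_U := hB.isOpen_compl
      subset := hsub
      hP := by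
        rintro c u - ⟨hu', C', hC', hC'', hcC, hCu⟩ hu -
        obtain ⟨U, V, hU, hU', hV, hV', h1, h2, h3⟩ := hr C' uᶜ hC' hC'' hu.isClosed_compl
          (isIncr_compl hu') (by
            rw [← Set.disjoint_iff_inter_eq_empty, Set.disjoint_compl_right_iff_subset]
            exact hCu)
        have hUV : U ⊆ Vᶜ := fun x hx hx' => by
          have : x ∈ U ∩ V := ⟨hx, hx'⟩
          rw [h3] at this
          exact this
        have hclU : closure U ⊆ Vᶜ := closure_minimal hUV hV.isClosed_compl
        have hVu : Vᶜ ⊆ u := by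
          rw [Set.compl_subset_comm]
          exact h2
        exact ⟨U, hU, hcC.trans h1, hclU.trans hVu, ⟨hU', C', hC', hC'', hcC, h1⟩,
          ⟨hu', Vᶜ, hV.isClosed_compl, isDecr_compl hV', hclU, hVu⟩⟩ }
  exact ⟨c.lim, c.continuous_lim, lim_increasing c, fun x hx => c.lim_of_mem_C x hx,
    fun x hx => c.lim_of_notMem_U x (fun h => h hx), fun x => c.lim_mem_Icc x⟩

lemma isClosed_lower (hr : IsClosedPreorder r) (y : X) : IsClosed {z | r z y} :=
  hr.isClosed.preimage (f := fun z => (z, y)) (by fun_prop)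

lemma isClosed_upper (hr : IsClosedPreorder r) (x : X) : IsClosed {z | r x z} :=
  hr.isClosed.preimage (f := fun z => (x, z)) (by fun_prop)

/-- A normal closed preorder has a continuous multi-utility representation; in a strong form. -/
lemma exists_sep (hr : IsClosedPreorder r) (hn : IsNormalRel r) {x y : X} (hxy : ¬ r x y) :
    ∃ f : X → ℝ, Continuous f ∧ Increasing r f ∧ f y = 0 ∧ f x = 1 ∧
      ∀ z, f z ∈ Icc (0 : ℝ) 1 := by
  obtain ⟨f, hf, hf', h0, h1, h2⟩ := urysohn hn (isClosed_lower hr y)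
    (fun z x hzx hx => hr.isPreorder.trans _ _ _ hzx hx) (isClosed_upper hr x)
    (fun z w hwz hw => hr.isPreorder.trans _ _ _ hw hwz) (by
      apply Set.eq_empty_of_forall_notMem
      rintro z ⟨h1, h2⟩
      exact hxy (hr.isPreorder.trans _ _ _ h2 h1))
  exact ⟨f, hf, hf', h0 y (hr.isPreorder.refl y), h1 x (hr.isPreorder.refl x), h2⟩

lemma hasMultiUtility_of_normal (hr : IsClosedPreorder r) (hn : IsNormalRel r) :
    HasMultiUtility r := by
  refine ⟨{f | Continuous f ∧ Increasing r f}, fun f hf => hf, fun x y => ⟨fun h f hf =>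
    hf.2 x y h, fun h => ?_⟩⟩
  by_contra hxy
  obtain ⟨f, hf, hf', h0, h1, -⟩ := exists_sep hr hn hxy
  have := h f ⟨hf, hf'⟩
  rw [h0, h1] at this
  linarith

lemma weaklyContinuous_of_multiUtility (h : HasMultiUtility r) : WeaklyContinuous r := by
  obtain ⟨F, hF, hF'⟩ := h
  intro x y hxy hyx
  rw [hF'] at hyx
  push Not at hyx
  obtain ⟨f, hf, hlt⟩ := hyx
  exact ⟨f, (hF f hf).1, (hF f hf).2, hlt⟩

/-- The preorder obtained by making `A` the set of least and `B` the set of greatest elements. -/
lemma isClosedPreorder_extend (hr : IsClosedPreorder r) {A B : Set X} (hA : IsClosed A)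
    (hA' : IsDecr r A) (hB : IsClosed B) (hB' : IsIncr r B) (hAB : A ∩ B = ∅) :
    IsClosedPreorder (fun x y => x ∈ A ∨ r x y ∨ y ∈ B) where
  isPreorder := {
    refl := fun x => Or.inr (Or.inl (hr.isPreorder.refl x))
    trans := by
      intro x y z h1 h2
      have hd : ∀ w, w ∈ A → w ∈ B → False := fun w h3 h4 => by
        have : w ∈ A ∩ B := ⟨h3, h4⟩
        rw [hAB] at this
        exact this
      rcases h1 with h1 | h1 | h1
      · exact Or.inl h1
      · rcases h2 with h2 | h2 | h2
        · exact Or.inl (hA' x y h1 h2)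
        · exact Or.inr (Or.inl (hr.isPreorder.trans _ _ _ h1 h2))
        · exact Or.inr (Or.inr h2)
      · rcases h2 with h2 | h2 | h2
        · exact (hd y h2 h1).elim
        · exact Or.inr (Or.inr (hB' z y h2 h1))
        · exact Or.inr (Or.inr h2) }
  isClosed := by
    have : {p : X × X | p.1 ∈ A ∨ r p.1 p.2 ∨ p.2 ∈ B} =
        Prod.fst ⁻¹' A ∪ ({p : X × X | r p.1 p.2} ∪ Prod.snd ⁻¹' B) := by
      ext p; simp
    rw [this]
    exact (hA.preimage continuous_fst).union (hr.isClosed.union (hB.preimage continuous_snd))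

/-- In a space with the property, closed preorders are normal. -/
lemma normal_of_property (h : ClosedPreordersWeaklyContinuous X) (hr : IsClosedPreorder r) :
    IsNormalRel r := by
  intro A B hA hA' hB hB' hAB
  by_cases hAe : A = ∅
  · exact ⟨∅, univ, isOpen_empty, fun _ _ _ h => h.elim, isOpen_univ, fun _ _ _ _ => mem_univ _,
      by rw [hAe], subset_univ _, by simp⟩
  by_cases hBe : B = ∅
  · exact ⟨univ, ∅, isOpen_univ, fun _ _ _ _ => mem_univ _, isOpen_empty, fun _ _ _ h => h.elim,
      subset_univ _, by rw [hBe], by simp⟩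
  obtain ⟨a, ha⟩ := Set.nonempty_iff_ne_empty.2 hAe
  obtain ⟨b, hb⟩ := Set.nonempty_iff_ne_empty.2 hBe
  have hd : ∀ w, w ∈ A → w ∈ B → False := fun w h3 h4 => by
    have : w ∈ A ∩ B := ⟨h3, h4⟩
    rw [hAB] at this
    exact this
  obtain ⟨f, hf, hf', hlt⟩ := h _ (isClosedPreorder_extend hr hA hA' hB hB' hAB) a b
    (Or.inl ha) (by
      rintro (h1 | h1 | h1)
      · exact hd b h1 hb
      · exact hd b (hA' b a h1 ha) hb
      · exact hd a ha h1)
  have hAc : ∀ x ∈ A, f x = f a := fun x hx =>
    le_antisymm (hf' x a (Or.inl hx)) (hf' a x (Or.inl ha))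
  have hBc : ∀ x ∈ B, f x = f b := fun x hx =>
    le_antisymm (hf' x b (Or.inr (Or.inr hb))) (hf' b x (Or.inr (Or.inr hx)))
  have hinc : ∀ x y, r x y → f x ≤ f y := fun x y hxy => hf' x y (Or.inr (Or.inl hxy))
  refine ⟨{x | f x < (f a + f b) / 2}, {x | (f a + f b) / 2 < f x},
    isOpen_lt hf continuous_const, fun z x hzx hx => lt_of_le_of_lt (hinc z x hzx) hx,
    isOpen_lt continuous_const hf, fun z x hxz hx => lt_of_lt_of_le hx (hinc x z hxz), ?_, ?_, ?_⟩
  · intro x hx
    change f x < _
    rw [hAc x hx]; linarith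
  · intro x hx
    change _ < f x
    rw [hBc x hx]; linarith
  · apply Set.eq_empty_of_forall_notMem
    rintro x ⟨h1, h2⟩
    have h1' : f x < (f a + f b) / 2 := h1
    have h2' : (f a + f b) / 2 < f x := h2
    exact lt_asymm h1' h2'

theorem tfae_property (X : Type*) [TopologicalSpace X] :
    List.TFAE [ClosedPreordersWeaklyContinuous X,
      ∀ r : X → X → Prop, IsClosedPreorder r → HasMultiUtility r,
      ∀ r : X → X → Prop, IsClosedPreorder r → IsNormalRel r] := by
  tfae_have 1 → 3 := fun h r hr => normal_of_property h hr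
  tfae_have 3 → 2 := fun h r hr => hasMultiUtility_of_normal hr (h r hr)
  tfae_have 2 → 1 := fun h r hr => weaklyContinuous_of_multiUtility (h r hr)
  tfae_finish

end Pool.Agent.H73.Preord
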