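import Pool.Agent.H73.PreorderNec

/-!
# Spaces covered by countably many sets with closed projections
-/

namespace Pool.Agent.H73.Preord

open Set Filter Topology

variable {X : Type*} [TopologicalSpace X] {r : X → X → Prop}

lemma isClosed_iHull_of_proj (hr : IsClosedPreorder r) {C S : Set X}
    (hC : IsClosedMap (fun p : C × X => p.2)) (hS : IsClosed S) (hSC : S ⊆ C) :
    IsClosed (iHull r S) := by
  have h1 : IsClosed {p : C × X | (p.1 : X) ∈ S ∧ r p.1 p.2} :=
    (hS.preimage (f := fun p : C × X => (p.1 : X)) (by fun_prop)).inter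
      (hr.isClosed.preimage (f := fun p : C × X => ((p.1 : X), p.2)) (by fun_prop))
  have h2 := hC _ h1
  have h3 : iHull r S = (fun p : C × X => p.2) '' {p : C × X | (p.1 : X) ∈ S ∧ r p.1 p.2} := by
    ext y
    constructor
    · rintro ⟨x, hx, hxy⟩
      exact ⟨(⟨x, hSC hx⟩, y), ⟨hx, hxy⟩, rfl⟩
    · rintro ⟨⟨x, y'⟩, ⟨hx, hxy⟩, rfl⟩
      exact ⟨x, hx, hxy⟩
  rw [h3]
  exact h2

lemma isClosed_dHull_of_proj (hr : IsClosedPreorder r) {C S : Set X}
    (hC : IsClosedMap (fun p : C × X => p.2)) (hS : IsClosed S) (hSC : S ⊆ C) :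
    IsClosed (dHull r S) :=
  isClosed_iHull_of_proj (isClosedPreorder_swap hr) hC hS hSC

lemma isClosed_of_proj [T2Space X] {C : Set X} (hC : IsClosedMap (fun p : C × X => p.2)) :
    IsClosed C := by
  have h1 : IsClosed {p : C × X | (p.1 : X) = p.2} := isClosed_eq (by fun_prop) (by fun_prop)
  have h2 := hC _ h1
  have h3 : C = (fun p : C × X => p.2) '' {p : C × X | (p.1 : X) = p.2} := by
    ext y
    constructor
    · intro hy
      exact ⟨(⟨y, hy⟩, y), rfl, rfl⟩
    · rintro ⟨⟨x, y'⟩, hxy, rfl⟩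
      have h4 : (x : X) = y' := hxy
      simp only
      rw [← h4]
      exact x.2
  rw [h3]
  exact h2

/-- The invariant. -/
structure Pr' (r : X → X → Prop) (pq : Set X × Set X) : Prop where
  closed1 : IsClosed pq.1
  closed2 : IsClosed pq.2
  decr : IsDecr r pq.1
  incr : IsIncr r pq.2
  disj : ∀ x ∈ pq.1, x ∉ pq.2

lemma half_step [T2Space X] [NormalSpace X] (hr : IsClosedPreorder r) {C : Set X}
    (hC : IsClosedMap (fun p : C × X => p.2)) {A B : Set X} (hA : IsClosed A)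
    (hB : IsClosed B) (hA' : IsDecr r A) (hB' : IsIncr r B) (hAB : ∀ x ∈ A, x ∉ B) :
    ∃ A', IsClosed A' ∧ IsDecr r A' ∧ (∀ x ∈ A', x ∉ B) ∧ A ⊆ A' ∧
      ∀ p ∈ A, p ∈ interior C → A' ∈ 𝓝 p := by
  have hCc := isClosed_of_proj hC
  obtain ⟨N, hN, hAN, hNB⟩ := normal_exists_closure_subset (hA.inter hCc) hB.isOpen_compl
    (fun x hx => hAB x hx.1)
  have h1 : IsClosed (dHull r (closure N ∩ C)) :=
    isClosed_dHull_of_proj hr hC (isClosed_closure.inter hCc) inter_subset_right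
  refine ⟨A ∪ dHull r (closure N ∩ C), hA.union h1, ?_, ?_, subset_union_left, ?_⟩
  · intro z x hzx hx
    rcases hx with hx | hx
    · exact Or.inl (hA' z x hzx hx)
    · exact Or.inr (isDecr_dHull hr.isPreorder _ z x hzx hx)
  · rintro x (hx | ⟨y, hy, hxy⟩)
    · exact hAB x hx
    · exact fun hxB => hNB hy.1 (hB' y x hxy hxB)
  · intro p hp hpC
    have h2 : N ∩ interior C ∈ 𝓝 p := (hN.inter isOpen_interior).mem_nhds
      ⟨hAN ⟨hp, interior_subset hpC⟩, hpC⟩
    refine Filter.mem_of_superset h2 (Subset.trans ?_ subset_union_right)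
    intro y hy
    exact subset_dHull hr.isPreorder _ ⟨subset_closure hy.1, interior_subset hy.2⟩

lemma pr_step' [T2Space X] [NormalSpace X] (hr : IsClosedPreorder r) {C : Set X}
    (hC : IsClosedMap (fun p : C × X => p.2)) (pq : Set X × Set X) (h : Pr' r pq) :
    ∃ pq' : Set X × Set X, Pr' r pq' ∧ pq.1 ⊆ pq'.1 ∧ pq.2 ⊆ pq'.2 ∧
      (∀ p ∈ pq.1, p ∈ interior C → pq'.1 ∈ 𝓝 p) ∧
      (∀ p ∈ pq.2, p ∈ interior C → pq'.2 ∈ 𝓝 p) := by
  obtain ⟨A, B⟩ := pq
  obtain ⟨hA, hB, hA', hB', hAB⟩ := h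
  simp only at hA hB hA' hB' hAB
  obtain ⟨A', h1, h2, h3, h4, h5⟩ := half_step hr hC hA hB hA' hB' hAB
  obtain ⟨B', k1, k2, k3, k4, k5⟩ := half_step (isClosedPreorder_swap hr) hC hB h1
    (fun z x hzx hx => hB' z x hzx hx) (fun z x hzx hx => h2 z x hzx hx)
    (fun x hx hx' => h3 x hx' hx)
  exact ⟨(A', B'), ⟨h1, k1, h2, fun z x hxz hx => k2 z x hxz hx, fun x hx hx' => k3 x hx' hx⟩,
    h4, k4, h5, k5⟩

/-- Closed preorders are normal on a normal Hausdorff space whose non-isolated points are covered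
by the interiors of countably many sets with closed projections. -/
lemma normal_of_cover [T2Space X] [NormalSpace X] (hr : IsClosedPreorder r) (C : ℕ → Set X)
    (hC : ∀ k, IsClosedMap (fun p : C k × X => p.2))
    (hcov : nonIsolated X ⊆ ⋃ k, interior (C k)) : IsNormalRel r := by
  intro A B hA hA' hB hB' hAB
  have hAB' : ∀ x ∈ A, x ∉ B := fun x hx hx' => by
    have : x ∈ A ∩ B := ⟨hx, hx'⟩
    rw [hAB] at this
    exact this
  have hs := fun n : ℕ => pr_step' hr (hC (Nat.unpair n).1)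
  choose nxt hn1 hn2 hn3 hn4 hn5 using hs
  let sq : ℕ → {pq : Set X × Set X // Pr' r pq} := fun n =>
    Nat.rec ⟨(A, B), ⟨hA, hB, hA', hB', hAB'⟩⟩ (fun n pq => ⟨nxt n pq.1 pq.2, hn1 n pq.1 pq.2⟩) n
  have h1 : Monotone (fun n => (sq n).1.1) :=
    monotone_nat_of_le_succ fun n => hn2 n (sq n).1 (sq n).2
  have h2 : Monotone (fun n => (sq n).1.2) :=
    monotone_nat_of_le_succ fun n => hn3 n (sq n).1 (sq n).2
  refine ⟨⋃ n, (sq n).1.1, ⋃ n, (sq n).1.2, ?_, ?_, ?_, ?_, ?_, ?_, ?_⟩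
  · rw [isOpen_iff_mem_nhds]
    intro p hp
    by_cases hpi : IsOpen ({p} : Set X)
    · exact Filter.mem_of_superset (hpi.mem_nhds rfl) (singleton_subset_iff.2 hp)
    obtain ⟨n, hn⟩ := mem_iUnion.1 hp
    obtain ⟨k, hk⟩ := mem_iUnion.1 (hcov hpi)
    have h3 := hn4 (Nat.pair k n) (sq _).1 (sq _).2 p (h1 (Nat.right_le_pair k n) hn)
      (by simpa using hk)
    exact Filter.mem_of_superset h3 (subset_iUnion (fun n => (sq n).1.1) (Nat.pair k n + 1))
  · intro z x hzx hx
    obtain ⟨n, hn⟩ := mem_iUnion.1 hx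
    exact mem_iUnion.2 ⟨n, (sq n).2.decr z x hzx hn⟩
  · rw [isOpen_iff_mem_nhds]
    intro p hp
    by_cases hpi : IsOpen ({p} : Set X)
    · exact Filter.mem_of_superset (hpi.mem_nhds rfl) (singleton_subset_iff.2 hp)
    obtain ⟨n, hn⟩ := mem_iUnion.1 hp
    obtain ⟨k, hk⟩ := mem_iUnion.1 (hcov hpi)
    have h3 := hn5 (Nat.pair k n) (sq _).1 (sq _).2 p (h2 (Nat.right_le_pair k n) hn)
      (by simpa using hk)
    exact Filter.mem_of_superset h3 (subset_iUnion (fun n => (sq n).1.2) (Nat.pair k n + 1))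
  · intro z x hxz hx
    obtain ⟨n, hn⟩ := mem_iUnion.1 hx
    exact mem_iUnion.2 ⟨n, (sq n).2.incr z x hxz hn⟩
  · exact subset_iUnion (fun n => (sq n).1.1) 0
  · exact subset_iUnion (fun n => (sq n).1.2) 0
  · apply Set.eq_empty_of_forall_notMem
    rintro x ⟨h3, h4⟩
    obtain ⟨n, hn⟩ := mem_iUnion.1 h3
    obtain ⟨m, hm⟩ := mem_iUnion.1 h4
    exact (sq (max m n)).2.disj x (h1 (le_max_right _ _) hn) (h2 (le_max_left _ _) hm)

/-- A Hausdorff space with the property is normal. -/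
lemma normalSpace_of_property [T2Space X] (h : ClosedPreordersWeaklyContinuous X) :
    NormalSpace X := by
  have hr : IsClosedPreorder (fun x y : X => x = y) :=
    ⟨⟨fun _ => rfl, fun _ _ _ h1 h2 => h1.trans h2⟩, isClosed_eq continuous_fst continuous_snd⟩
  refine ⟨fun A B hA hB hAB => ?_⟩
  obtain ⟨U, V, hU, -, hV, -, h1, h2, h3⟩ := normal_of_property h hr A B hA
    (fun z x hzx hx => by subst hzx; exact hx) hB (fun z x hzx hx => by subst hzx; exact hx)
    (Set.disjoint_iff_inter_eq_empty.1 hAB)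
  exact ⟨U, V, hU, hV, h1, h2, Set.disjoint_iff_inter_eq_empty.2 h3⟩

theorem property_iff_normal [T2Space X] (C : ℕ → Set X)
    (hC : ∀ k, IsClosedMap (fun p : C k × X => p.2))
    (hcov : nonIsolated X ⊆ ⋃ k, interior (C k)) :
    ClosedPreordersWeaklyContinuous X ↔ NormalSpace X := by
  constructor
  · exact normalSpace_of_property
  · intro hX r hr
    exact weaklyContinuous_of_multiUtility (hasMultiUtility_of_normal hr
      (normal_of_cover hr C hC hcov))

/-- Closed countably compact subsets of sequential spaces have closed projections. -/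
lemma isClosedMap_of_countablyCompact [SequentialSpace X] {C : Set X}
    (hC : ∀ u : ℕ → X, (∀ n, u n ∈ C) → ∃ x ∈ C, MapClusterPt x atTop u) :
    IsClosedMap (fun p : C × X => p.2) := by
  intro S hS
  apply IsSeqClosed.isClosed
  intro y z hy hyz
  choose p hp hpy using hy
  obtain ⟨x, hxC, hx⟩ := hC (fun n => (p n).1) (fun n => (p n).1.2)
  refine ⟨(⟨x, hxC⟩, z), ?_, rfl⟩
  rw [← hS.closure_eq, mem_closure_iff_nhds]
  intro W hW
  obtain ⟨U, hU, V, hV, hUV⟩ := mem_nhds_prod_iff.1 hW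
  obtain ⟨U', hU', hUU'⟩ := mem_nhds_subtype _ _ _ |>.1 hU
  have h1 : ∃ᶠ n in atTop, ((p n).1 : X) ∈ U' := mapClusterPt_iff_frequently.1 hx U' hU'
  have h2 : ∀ᶠ n in atTop, y n ∈ V := hyz hV
  obtain ⟨n, hn1, hn2⟩ := (h1.and_eventually h2).exists
  have h3 : (p n).2 = y n := hpy n
  exact ⟨p n, hUV ⟨hUU' hn1, h3 ▸ hn2⟩, hp n⟩

/-- The case of countably compact sequential spaces. -/
theorem property_iff_normal_of_countablyCompact [T2Space X] [SequentialSpace X]
    (hX : ∀ u : ℕ → X, ∃ x, MapClusterPt x atTop u) :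
    ClosedPreordersWeaklyContinuous X ↔ NormalSpace X :=
  property_iff_normal (fun _ => univ)
    (fun _ => isClosedMap_of_countablyCompact fun u _ => by
      obtain ⟨x, hx⟩ := hX u
      exact ⟨x, trivial, hx⟩)
    (fun x _ => mem_iUnion.2 ⟨0, by simp⟩)

end Pool.Agent.H73.Preord
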