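import Mathlib

/-!
# Closed preorders on topological spaces: definitions of problem MP_bb0bf1_gt
-/

namespace Pool.Agent.H73.Preord

/-- `r` is a preorder (a reflexive and transitive relation) on `X`. -/
structure IsPreorderRel {X : Type*} (r : X → X → Prop) : Prop where
  refl : ∀ x, r x x
  trans : ∀ x y z, r x y → r y z → r x z

/-- `r` is a closed preorder on the topological space `X`: a preorder which is a closed subset of
`X × X`. -/
structure IsClosedPreorder {X : Type*} [TopologicalSpace X] (r : X → X → Prop) : Prop where
  isPreorder : IsPreorderRel r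
  isClosed : IsClosed {p : X × X | r p.1 p.2}

/-- The real function `f` is increasing for the relation `r`. -/
def Increasing {X : Type*} (r : X → X → Prop) (f : X → ℝ) : Prop := ∀ x y, r x y → f x ≤ f y

/-- `r` is weakly continuous: whenever `x` is strictly below `y`, there is a continuous increasing
real function `f` with `f x < f y`. -/
def WeaklyContinuous {X : Type*} [TopologicalSpace X] (r : X → X → Prop) : Prop :=
  ∀ x y, r x y → ¬ r y x → ∃ f : X → ℝ, Continuous f ∧ Increasing r f ∧ f x < f y

/-- `r` has a continuous multi-utility representation. -/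
def HasMultiUtility {X : Type*} [TopologicalSpace X] (r : X → X → Prop) : Prop :=
  ∃ F : Set (X → ℝ), (∀ f ∈ F, Continuous f ∧ Increasing r f) ∧
    ∀ x y, r x y ↔ ∀ f ∈ F, f x ≤ f y

/-- `D` is decreasing for `r`. -/
def IsDecr {X : Type*} (r : X → X → Prop) (D : Set X) : Prop := ∀ z x, r z x → x ∈ D → z ∈ D

/-- `D` is increasing for `r`. -/
def IsIncr {X : Type*} (r : X → X → Prop) (D : Set X) : Prop := ∀ z x, r x z → x ∈ D → z ∈ D

/-- `r` is normal: a closed decreasing set and a closed increasing set which are disjoint are
contained in disjoint open sets, the first one decreasing and the second one increasing. -/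
def IsNormalRel {X : Type*} [TopologicalSpace X] (r : X → X → Prop) : Prop :=
  ∀ A B : Set X, IsClosed A → IsDecr r A → IsClosed B → IsIncr r B → A ∩ B = ∅ →
    ∃ U V : Set X, IsOpen U ∧ IsDecr r U ∧ IsOpen V ∧ IsIncr r V ∧ A ⊆ U ∧ B ⊆ V ∧ U ∩ V = ∅

/-- The property of the space `X` asked about in the problem: every closed preorder on `X` is weakly
continuous. -/
def ClosedPreordersWeaklyContinuous (X : Type*) [TopologicalSpace X] : Prop :=
  ∀ r : X → X → Prop, IsClosedPreorder r → WeaklyContinuous r

/-- The set of the non-isolated points of `X`. -/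
def nonIsolated (X : Type*) [TopologicalSpace X] : Set X := {x | ¬ IsOpen ({x} : Set X)}

/-- `X` is of pointwise countable type: every point lies in a compact set whose filter of
neighbourhoods has a countable base. -/
def PointwiseCountableType (X : Type*) [TopologicalSpace X] : Prop :=
  ∀ x : X, ∃ K : Set X, IsCompact K ∧ x ∈ K ∧ (nhdsSet K).IsCountablyGenerated

end Pool.Agent.H73.Preord
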