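import Pool.Agent.H73.PreorderDefs

/-!
# The sum of a sequential fan and countably many convergent sequences: definitions
-/

namespace Pool.Agent.H73.Preord

open Set Filter Topology Cardinal

/-- The points of the space `X_κ`: the apex of the fan, the points `s i j` of the spines of the
fan, the limits `a n` of the convergent sequences, and their members `c n m`. -/
inductive FanPt (κ : Type) : Type
  | apex : FanPt κ
  | s (i : κ) (j : ℕ) : FanPt κ
  | a (n : ℕ) : FanPt κ
  | c (n m : ℕ) : FanPt κ

open FanPt

/-- The topology of `X_κ`, the disjoint sum of the sequential fan with set of spines `κ` and of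
countably many convergent sequences: a set `U` is open if, whenever it contains the apex, it
contains almost all points of every spine, and whenever it contains `a n`, it contains
`c n m` for almost all `m`. -/
instance (κ : Type) : TopologicalSpace (FanPt κ) where
  IsOpen U := (apex ∈ U → ∀ i, ∃ N, ∀ j, N ≤ j → s i j ∈ U) ∧
    ∀ n, a n ∈ U → ∃ N, ∀ m, N ≤ m → c n m ∈ U
  isOpen_univ := ⟨fun _ _ => ⟨0, fun _ _ => trivial⟩, fun _ _ => ⟨0, fun _ _ => trivial⟩⟩
  isOpen_inter U V hU hV := by
    constructor
    · intro h i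
      obtain ⟨N, hN⟩ := hU.1 h.1 i
      obtain ⟨M, hM⟩ := hV.1 h.2 i
      exact ⟨max N M, fun j hj => ⟨hN j ((le_max_left _ _).trans hj),
        hM j ((le_max_right _ _).trans hj)⟩⟩
    · intro n h
      obtain ⟨N, hN⟩ := hU.2 n h.1
      obtain ⟨M, hM⟩ := hV.2 n h.2
      exact ⟨max N M, fun j hj => ⟨hN j ((le_max_left _ _).trans hj),
        hM j ((le_max_right _ _).trans hj)⟩⟩
  isOpen_sUnion 𝒰 h𝒰 := by
    constructor
    · rintro ⟨U, hU, h⟩ i
      obtain ⟨N, hN⟩ := (h𝒰 U hU).1 h i
      exact ⟨N, fun j hj => ⟨U, hU, hN j hj⟩⟩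
    · rintro n ⟨U, hU, h⟩
      obtain ⟨N, hN⟩ := (h𝒰 U hU).2 n h
      exact ⟨N, fun j hj => ⟨U, hU, hN j hj⟩⟩

/-- A set `S` of functions from the integers to the integers is bounded for eventual
domination. -/
def EvBounded (S : Set (ℕ → ℕ)) : Prop := ∃ h : ℕ → ℕ, ∀ f ∈ S, ∀ᶠ n in atTop, f n ≤ h n

/-- The bounding number: the least cardinal of a set of functions from the integers to the
integers which is unbounded for eventual domination. -/
noncomputable def boundingNumber : Cardinal.{0} := sInf {k | ∃ S : Set (ℕ → ℕ), ¬ EvBounded S ∧ #S = k}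

end Pool.Agent.H73.Preord
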