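import Pool.Agent.H73.PreorderNec
import Pool.Agent.H73.PreorderFanDefs

/-!
# The sum of a sequential fan and countably many convergent sequences
-/

namespace Pool.Agent.H73.Preord

open Set Filter Topology Cardinal

/-! ### A criterion of normality -/

section criterion

variable {X : Type*} [TopologicalSpace X] {r : X → X → Prop}

/-- The invariant. -/
structure Pr (r : X → X → Prop) (pq : Set X × Set X) : Prop where
  closed1 : IsClosed pq.1
  closed2 : IsClosed pq.2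
  decr : IsDecr r pq.1
  incr : IsIncr r pq.2
  disj : ∀ x ∈ pq.1, x ∉ pq.2

lemma pr_step (hr : IsClosedPreorder r)
    (hbase : ∀ p ∈ nonIsolated X, ∀ O ∈ 𝓝 p, ∃ N ∈ 𝓝 p, N ⊆ O ∧ IsClosed (dHull r N) ∧
      IsClosed (iHull r N)) (p : X) (pq : Set X × Set X) (h : Pr r pq) :
    ∃ pq' : Set X × Set X, Pr r pq' ∧ pq.1 ⊆ pq'.1 ∧ pq.2 ⊆ pq'.2 ∧
      (p ∈ pq.1 → pq'.1 ∈ 𝓝 p) ∧ (p ∈ pq.2 → pq'.2 ∈ 𝓝 p) := by
  obtain ⟨A, B⟩ := pq
  obtain ⟨hA, hB, hA', hB', hAB⟩ := h
  simp only at hA hB hA' hB' hAB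
  by_cases hp : IsOpen ({p} : Set X)
  · have h1 : ∀ S : Set X, p ∈ S → S ∈ 𝓝 p := fun S hS =>
      Filter.mem_of_superset (hp.mem_nhds rfl) (singleton_subset_iff.2 hS)
    exact ⟨(A, B), ⟨hA, hB, hA', hB', hAB⟩, Subset.rfl, Subset.rfl, h1 A, h1 B⟩
  by_cases hpA : p ∈ A
  · obtain ⟨N, hN, hNB, hN1, -⟩ := hbase p hp Bᶜ (hB.isOpen_compl.mem_nhds (hAB p hpA))
    refine ⟨(A ∪ dHull r N, B), ⟨hA.union hN1, hB, ?_, hB', ?_⟩, subset_union_left, Subset.rfl,
      fun _ => ?_, fun h => (hAB p hpA h).elim⟩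
    · intro z x hzx hx
      rcases hx with hx | hx
      · exact Or.inl (hA' z x hzx hx)
      · exact Or.inr (isDecr_dHull hr.isPreorder _ z x hzx hx)
    · rintro x (hx | ⟨y, hy, hxy⟩)
      · exact hAB x hx
      · exact fun hxB => hNB hy (hB' y x hxy hxB)
    · exact Filter.mem_of_superset hN
        ((subset_dHull hr.isPreorder N).trans subset_union_right)
  · by_cases hpB : p ∈ B
    · obtain ⟨N, hN, hNA, -, hN1⟩ := hbase p hp Aᶜ (hA.isOpen_compl.mem_nhds hpA)
      refine ⟨(A, B ∪ iHull r N), ⟨hA, hB.union hN1, hA', ?_, ?_⟩, Subset.rfl,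
        subset_union_left, fun h => (hpA h).elim, fun _ => ?_⟩
      · intro z x hxz hx
        rcases hx with hx | hx
        · exact Or.inl (hB' z x hxz hx)
        · exact Or.inr (isIncr_iHull hr.isPreorder _ z x hxz hx)
      · rintro x hx (hx' | ⟨y, hy, hyx⟩)
        · exact hAB x hx hx'
        · exact hNA hy (hA' y x hyx hx)
      · exact Filter.mem_of_superset hN
          ((subset_iHull hr.isPreorder N).trans subset_union_right)
    · exact ⟨(A, B), ⟨hA, hB, hA', hB', hAB⟩, Subset.rfl, Subset.rfl,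
        fun h => (hpA h).elim, fun h => (hpB h).elim⟩

/-- A closed preorder is normal if there are only countably many non-isolated points and each of
them has a base of neighbourhoods with closed hulls. -/
lemma normal_of_hull_base (hr : IsClosedPreorder r) (hc : (nonIsolated X).Countable)
    (hbase : ∀ p ∈ nonIsolated X, ∀ O ∈ 𝓝 p, ∃ N ∈ 𝓝 p, N ⊆ O ∧ IsClosed (dHull r N) ∧
      IsClosed (iHull r N)) : IsNormalRel r := by
  intro A B hA hA' hB hB' hAB
  have hAB' : ∀ x ∈ A, x ∉ B := fun x hx hx' => by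
    have : x ∈ A ∩ B := ⟨hx, hx'⟩
    rw [hAB] at this
    exact this
  by_cases hne : nonIsolated X = ∅
  · exact ⟨A, B, isOpen_of_isolated (by simp [hne]), hA', isOpen_of_isolated (by simp [hne]), hB',
      Subset.rfl, Subset.rfl, hAB⟩
  obtain ⟨e, he⟩ := hc.exists_eq_range (Set.nonempty_iff_ne_empty.2 hne)
  have hs := fun n : ℕ => pr_step hr hbase (e (Nat.unpair n).1)
  choose nxt hn1 hn2 hn3 hn4 hn5 using hs
  let sq : ℕ → {pq : Set X × Set X // Pr r pq} := fun n =>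
    Nat.rec ⟨(A, B), ⟨hA, hB, hA', hB', hAB'⟩⟩ (fun n pq => ⟨nxt n pq.1 pq.2, hn1 n pq.1 pq.2⟩) n
  have h1 : Monotone (fun n => (sq n).1.1) :=
    monotone_nat_of_le_succ fun n => hn2 n (sq n).1 (sq n).2
  have h2 : Monotone (fun n => (sq n).1.2) :=
    monotone_nat_of_le_succ fun n => hn3 n (sq n).1 (sq n).2
  have hrev : ∀ p ∈ nonIsolated X, ∀ n, ∃ m, n ≤ m ∧ e (Nat.unpair m).1 = p := by
    intro p hp n
    rw [he] at hp
    obtain ⟨k, rfl⟩ := hp
    exact ⟨Nat.pair k n, Nat.right_le_pair k n, by simp⟩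
  refine ⟨⋃ n, (sq n).1.1, ⋃ n, (sq n).1.2, ?_, ?_, ?_, ?_, ?_, ?_, ?_⟩
  · rw [isOpen_iff_mem_nhds]
    intro p hp
    by_cases hpi : IsOpen ({p} : Set X)
    · exact Filter.mem_of_superset (hpi.mem_nhds rfl) (singleton_subset_iff.2 hp)
    obtain ⟨n, hn⟩ := mem_iUnion.1 hp
    obtain ⟨m, hnm, hm⟩ := hrev p hpi n
    have h3 := hn4 m (sq m).1 (sq m).2 (by rw [hm]; exact h1 hnm hn)
    rw [hm] at h3
    exact Filter.mem_of_superset h3 (subset_iUnion (fun n => (sq n).1.1) (m + 1))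
  · intro z x hzx hx
    obtain ⟨n, hn⟩ := mem_iUnion.1 hx
    exact mem_iUnion.2 ⟨n, (sq n).2.decr z x hzx hn⟩
  · rw [isOpen_iff_mem_nhds]
    intro p hp
    by_cases hpi : IsOpen ({p} : Set X)
    · exact Filter.mem_of_superset (hpi.mem_nhds rfl) (singleton_subset_iff.2 hp)
    obtain ⟨n, hn⟩ := mem_iUnion.1 hp
    obtain ⟨m, hnm, hm⟩ := hrev p hpi n
    have h3 := hn5 m (sq m).1 (sq m).2 (by rw [hm]; exact h2 hnm hn)
    rw [hm] at h3
    exact Filter.mem_of_superset h3 (subset_iUnion (fun n => (sq n).1.2) (m + 1))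
  · intro z x hxz hx
    obtain ⟨n, hn⟩ := mem_iUnion.1 hx
    exact mem_iUnion.2 ⟨n, (sq n).2.incr z x hxz hn⟩
  · exact subset_iUnion (fun n => (sq n).1.1) 0
  · exact subset_iUnion (fun n => (sq n).1.2) 0
  · apply Set.eq_empty_of_forall_notMem
    rintro x ⟨h3, h4⟩
    obtain ⟨n, hn⟩ := mem_iUnion.1 h3
    obtain ⟨m, hm⟩ := mem_iUnion.1 h4
    exact (sq (max m n)).2.disj x (h1 (le_max_right _ _) hn) (h2 (le_max_left _ _) hm)

end criterion

/-! ### The space -/

open FanPt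

variable {κ : Type}

lemma isOpen_iff_fan (U : Set (FanPt κ)) : IsOpen U ↔
    (apex ∈ U → ∀ i, ∃ N, ∀ j, N ≤ j → s i j ∈ U) ∧
    ∀ n, a n ∈ U → ∃ N, ∀ m, N ≤ m → c n m ∈ U := Iff.rfl

/-- basic neighbourhoods of the apex -/
def VV (g : κ → ℕ) : Set (FanPt κ) := {x | x = apex ∨ ∃ i j, g i ≤ j ∧ x = s i j}

/-- basic neighbourhoods of the point `a n` -/
def WW (n k : ℕ) : Set (FanPt κ) := {x | x = a n ∨ ∃ m, k ≤ m ∧ x = c n m}

lemma isOpen_VV (g : κ → ℕ) : IsOpen (VV g) := by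
  rw [isOpen_iff_fan]
  refine ⟨fun _ i => ⟨g i, fun j hj => Or.inr ⟨i, j, hj, rfl⟩⟩, fun n h => ?_⟩
  simp [VV] at h

lemma isOpen_WW (n k : ℕ) : IsOpen (WW n k : Set (FanPt κ)) := by
  rw [isOpen_iff_fan]
  refine ⟨fun h => ?_, fun n' h => ?_⟩
  · simp [WW] at h
  · have : n' = n := by simpa [WW] using h
    subst this
    exact ⟨k, fun m hm => Or.inr ⟨m, hm, rfl⟩⟩

lemma isOpen_s (i : κ) (j : ℕ) : IsOpen ({s i j} : Set (FanPt κ)) := by
  rw [isOpen_iff_fan]; simp

lemma isOpen_c (n m : ℕ) : IsOpen ({c n m} : Set (FanPt κ)) := by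
  rw [isOpen_iff_fan]; simp

lemma exists_VV {O : Set (FanPt κ)} (hO : O ∈ 𝓝 apex) : ∃ g : κ → ℕ, VV g ⊆ O := by
  obtain ⟨U, hUO, hU, hU'⟩ := mem_nhds_iff.1 hO
  obtain ⟨h1, -⟩ := (isOpen_iff_fan U).1 hU
  choose g hg using h1 hU'
  refine ⟨g, ?_⟩
  rintro x (rfl | ⟨i, j, hj, rfl⟩)
  · exact hUO hU'
  · exact hUO (hg i j hj)

lemma exists_WW {n : ℕ} {O : Set (FanPt κ)} (hO : O ∈ 𝓝 (a n)) : ∃ k, WW n k ⊆ O := by
  obtain ⟨U, hUO, hU, hU'⟩ := mem_nhds_iff.1 hO
  obtain ⟨-, h1⟩ := (isOpen_iff_fan U).1 hU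
  obtain ⟨k, hk⟩ := h1 n hU'
  refine ⟨k, ?_⟩
  rintro x (rfl | ⟨m, hm, rfl⟩)
  · exact hUO hU'
  · exact hUO (hk m hm)

lemma isClosed_of (S : Set (FanPt κ)) (h1 : apex ∉ S → ∀ i, ∃ N, ∀ j, N ≤ j → s i j ∉ S)
    (h2 : ∀ n, a n ∉ S → ∃ N, ∀ m, N ≤ m → c n m ∉ S) : IsClosed S := by
  rw [← isOpen_compl_iff, isOpen_iff_fan]
  exact ⟨h1, h2⟩

instance : T2Space (FanPt κ) := by
  have hcl : ∀ x : FanPt κ, IsClosed ({x} : Set (FanPt κ)) := by
    intro x
    apply isClosed_of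
    · intro _ i
      cases x with
      | s i' j' => exact ⟨j' + 1, fun j hj h => by
          have h' : s i j = s i' j' := h
          have := (FanPt.s.inj h').2
          omega⟩
      | _ => exact ⟨0, fun j _ h => by simp at h⟩
    · intro n _
      cases x with
      | c n' m' => exact ⟨m' + 1, fun m hm h => by
          have h' : c n m = c n' m' := h
          have := (FanPt.c.inj h').2
          omega⟩
      | _ => exact ⟨0, fun j _ h => by simp at h⟩
  -- an isolated point can be separated from any other point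
  have hiso : ∀ x y : FanPt κ, IsOpen ({x} : Set (FanPt κ)) → x ≠ y →
      ∃ u v : Set (FanPt κ), IsOpen u ∧ IsOpen v ∧ x ∈ u ∧ y ∈ v ∧ Disjoint u v := by
    intro x y hx hxy
    exact ⟨{x}, {x}ᶜ, hx, (hcl x).isOpen_compl, rfl, fun h => hxy h.symm, disjoint_compl_right⟩
  have hsymm : ∀ x y : FanPt κ, (∃ u v : Set (FanPt κ), IsOpen u ∧ IsOpen v ∧ x ∈ u ∧ y ∈ v ∧
      Disjoint u v) → ∃ u v : Set (FanPt κ), IsOpen u ∧ IsOpen v ∧ y ∈ u ∧ x ∈ v ∧
      Disjoint u v := by
    rintro x y ⟨u, v, hu, hv, hxu, hyv, huv⟩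
    exact ⟨v, u, hv, hu, hyv, hxu, huv.symm⟩
  have hab : ∀ n, ∃ u v : Set (FanPt κ), IsOpen u ∧ IsOpen v ∧ apex ∈ u ∧ a n ∈ v ∧
      Disjoint u v := fun n =>
    ⟨VV (fun _ => 0), WW n 0, isOpen_VV _, isOpen_WW _ _, Or.inl rfl, Or.inl rfl, by
      rw [Set.disjoint_left]
      rintro x (rfl | ⟨i, j, hj, rfl⟩) h <;> simp [WW] at h⟩
  refine ⟨fun x y hxy => ?_⟩
  cases x with
  | s i j => exact hiso _ _ (isOpen_s i j) hxy
  | c n m => exact hiso _ _ (isOpen_c n m) hxy
  | apex =>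
    cases y with
    | s i j => exact hsymm _ _ (hiso _ _ (isOpen_s i j) hxy.symm)
    | c n m => exact hsymm _ _ (hiso _ _ (isOpen_c n m) hxy.symm)
    | apex => exact (hxy rfl).elim
    | a n => exact hab n
  | a n =>
    cases y with
    | s i j => exact hsymm _ _ (hiso _ _ (isOpen_s i j) hxy.symm)
    | c n' m => exact hsymm _ _ (hiso _ _ (isOpen_c n' m) hxy.symm)
    | apex => exact hsymm _ _ (hab n)
    | a n' =>
      have hne : n ≠ n' := fun h => hxy (by rw [h])
      exact ⟨WW n 0, WW n' 0, isOpen_WW _ _, isOpen_WW _ _, Or.inl rfl, Or.inl rfl, by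
        rw [Set.disjoint_left]
        rintro x (rfl | ⟨m, hm, rfl⟩) h
        · simp [WW, hne] at h
        · simp [WW, hne] at h⟩

/-- If some family of functions indexed by `κ` is unbounded, then the property fails. -/
lemma fan_fails (φ : κ → ℕ → ℕ) (hφ : ¬ EvBounded (range φ)) :
    ¬ ClosedPreordersWeaklyContinuous (FanPt κ) := by
  have hA : IsClosed {x : FanPt κ | ∃ n, x = a n} := by
    apply isClosed_of
    · exact fun _ i => ⟨0, fun j _ h => by simp at h⟩
    · exact fun n h => (h ⟨n, rfl⟩).elim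
  have hB : IsClosed ({apex} : Set (FanPt κ)) := isClosed_singleton
  have hF : IsClosed {p : FanPt κ × FanPt κ | ∃ i n, p.1 = s i n ∧ p.2 = c n (φ i n)} := by
    rw [← isOpen_compl_iff, isOpen_iff_mem_nhds]
    rintro ⟨x, y⟩ hxy
    have key : ∀ U V : Set (FanPt κ), IsOpen U → IsOpen V → x ∈ U → y ∈ V →
        (∀ i n, s i n ∈ U → c n (φ i n) ∈ V → False) →
        {p : FanPt κ × FanPt κ | ∃ i n, p.1 = s i n ∧ p.2 = c n (φ i n)}ᶜ ∈ 𝓝 (x, y) := by
      intro U V hU hV hx hy h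
      refine Filter.mem_of_superset ((hU.prod hV).mem_nhds ⟨hx, hy⟩) ?_
      rintro ⟨x', y'⟩ ⟨hx', hy'⟩ ⟨i, n, h1, h2⟩
      simp only at h1 h2 hx' hy'
      subst h1 h2
      exact h i n hx' hy'
    cases x with
    | a k =>
      exact key (WW k 0) univ (isOpen_WW _ _) isOpen_univ (Or.inl rfl) trivial
        (fun i n h _ => by simp [WW] at h)
    | c k m =>
      exact key {c k m} univ (isOpen_c _ _) isOpen_univ rfl trivial
        (fun i n h _ => by simp at h)
    | apex =>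
      cases y with
      | apex =>
        exact key univ (VV fun _ => 0) isOpen_univ (isOpen_VV _) trivial (Or.inl rfl)
          (fun i n _ h => by simp [VV] at h)
      | s i j =>
        exact key univ {s i j} isOpen_univ (isOpen_s _ _) trivial rfl
          (fun i n _ h => by simp at h)
      | a k =>
        refine key (VV fun _ => k + 1) (WW k 0) (isOpen_VV _) (isOpen_WW _ _) (Or.inl rfl)
          (Or.inl rfl) (fun i n h h' => ?_)
        have h1 : k + 1 ≤ n := by simpa [VV] using h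
        have h2 : n = k := by simpa [WW] using h'
        omega
      | c k m =>
        refine key (VV fun _ => k + 1) {c k m} (isOpen_VV _) (isOpen_c _ _) (Or.inl rfl) rfl
          (fun i n h h' => ?_)
        have h1 : k + 1 ≤ n := by simpa [VV] using h
        have h2 : n = k := (FanPt.c.inj (show c n (φ i n) = c k m from h')).1
        omega
    | s i j =>
      cases y with
      | apex =>
        exact key univ (VV fun _ => 0) isOpen_univ (isOpen_VV _) trivial (Or.inl rfl)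
          (fun i n _ h => by simp [VV] at h)
      | s i j =>
        exact key univ {s i j} isOpen_univ (isOpen_s _ _) trivial rfl
          (fun i n _ h => by simp at h)
      | a k =>
        refine key {s i j} (WW k (φ i j + 1)) (isOpen_s _ _) (isOpen_WW _ _) rfl (Or.inl rfl)
          (fun i' n h h' => ?_)
        obtain ⟨h1, h2⟩ := FanPt.s.inj (show s i' n = s i j from h)
        subst h1 h2
        have h3 : n = k ∧ φ i' n + 1 ≤ φ i' n := by
          rcases h' with h' | ⟨m, hm, h'⟩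
          · cases h'
          · obtain ⟨h4, h5⟩ := FanPt.c.inj h'
            exact ⟨h4, by rw [h5] at hm ⊢; exact hm⟩
        omega
      | c k m =>
        refine key {s i j} {c k m} (isOpen_s _ _) (isOpen_c _ _) rfl rfl (fun i' n h h' => ?_)
        obtain ⟨h1, h2⟩ := FanPt.s.inj (show s i' n = s i j from h)
        subst h1 h2
        obtain ⟨h3, h4⟩ := FanPt.c.inj (show c n (φ i' n) = c k m from h')
        exact hxy ⟨i', n, rfl, by rw [← h3, ← h4]⟩
  refine not_property_of_rel hA hB hF ⟨a 0, 0, rfl⟩ ⟨apex, rfl⟩ ?_ ?_ ?_ ?_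
  · rintro x ⟨n, rfl⟩ h
    simp at h
  · rintro ⟨x, y⟩ ⟨i, n, h1, h2⟩
    simp only at h1 h2
    subst h1 h2
    refine ⟨?_, ?_, ?_, ?_⟩ <;> simp
  · rintro ⟨x, y⟩ ⟨i, n, h1, h2⟩ ⟨x', y'⟩ ⟨i', n', h1', h2'⟩ h
    simp only at h1 h2 h1' h2' h
    rw [h1, h2'] at h
    cases h
  · intro V W hV hW hBV hAW
    obtain ⟨hV1, -⟩ := (isOpen_iff_fan V).1 hV
    obtain ⟨-, hW1⟩ := (isOpen_iff_fan W).1 hW
    choose g hg using hV1 (hBV rfl)
    choose h hh using fun n => hW1 n (hAW ⟨n, rfl⟩)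
    obtain ⟨i, hi⟩ : ∃ i, ¬ ∀ᶠ n in atTop, φ i n ≤ h n := by
      by_contra hcon
      push Not at hcon
      apply hφ
      refine ⟨h, ?_⟩
      rintro _ ⟨i, rfl⟩
      exact hcon i
    rw [not_eventually] at hi
    obtain ⟨n, hn1, hn2⟩ := (hi.and_eventually (eventually_ge_atTop (g i))).exists
    exact ⟨(s i n, c n (φ i n)), ⟨i, n, rfl, rfl⟩, hg i n hn2, hh n _ (not_le.1 hn1).le⟩

variable {r : FanPt κ → FanPt κ → Prop}

/-- If all families of functions indexed by `κ` are bounded, then small neighbourhoods of the apex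
have closed decreasing hulls. -/
lemma fan_hulls (hr : IsClosedPreorder r) (hb : ∀ φ : κ → ℕ → ℕ, EvBounded (range φ)) :
    ∃ g₀ : κ → ℕ, ∀ g : κ → ℕ, (∀ i, g₀ i ≤ g i) → IsClosed (dHull r (VV g)) := by
  have h1 : ∀ n : ℕ, ∃ (k : ℕ) (G : κ → ℕ), ¬ r (a n) apex →
      ∀ x ∈ WW n k, ∀ y ∈ VV G, ¬ r x y := by
    intro n
    by_cases hn : r (a n) apex
    · exact ⟨0, fun _ => 0, fun h => (h hn).elim⟩
    · have h2 : {p : FanPt κ × FanPt κ | r p.1 p.2}ᶜ ∈ 𝓝 ((a n, apex) : FanPt κ × FanPt κ) :=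
        hr.isClosed.isOpen_compl.mem_nhds hn
      obtain ⟨U, hU, V, hV, hUV⟩ := mem_nhds_prod_iff.1 h2
      obtain ⟨k, hk⟩ := exists_WW hU
      obtain ⟨G, hG⟩ := exists_VV hV
      exact ⟨k, G, fun _ x hx y hy h => hUV (⟨hk hx, hG hy⟩ : (x, y) ∈ U ×ˢ V) h⟩
  choose k G hkG using h1
  have h2 : ∀ (n : ℕ) (i : κ) (j : ℕ), ∃ M, ¬ r (a n) (s i j) →
      ∀ m, M ≤ m → ¬ r (c n m) (s i j) := by
    intro n i j
    by_cases hn : r (a n) (s i j)
    · exact ⟨0, fun h => (h hn).elim⟩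
    · have h3 : {x | r x (s i j)}ᶜ ∈ 𝓝 (a n) :=
        (isClosed_lower hr (s i j)).isOpen_compl.mem_nhds hn
      obtain ⟨M, hM⟩ := exists_WW h3
      exact ⟨M, fun _ m hm => hM (Or.inr ⟨m, hm, rfl⟩)⟩
  choose M hM using h2
  obtain ⟨h, hh⟩ := hb fun i n => (Finset.range (G n i)).sup (M n i)
  have h3 : ∀ i : κ, ∃ N, ∀ n, N ≤ n → (Finset.range (G n i)).sup (M n i) ≤ h n := fun i =>
    eventually_atTop.1 (hh _ ⟨i, rfl⟩)
  choose N hN using h3
  refine ⟨fun i => (Finset.range (N i)).sup fun n => G n i, fun g hg => ?_⟩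
  apply isClosed_of
  · intro h
    exact (h ⟨apex, Or.inl rfl, hr.isPreorder.refl _⟩).elim
  · intro n hn
    have hn1 : ¬ r (a n) apex := fun h => hn ⟨apex, Or.inl rfl, h⟩
    refine ⟨max (h n) (k n), fun m hm => ?_⟩
    have hm1 : h n ≤ m := (le_max_left _ _).trans hm
    have hm2 : k n ≤ m := (le_max_right _ _).trans hm
    rintro ⟨y, hy | ⟨i, j, hj, hy⟩, hxy⟩
    · subst hy
      exact hkG n hn1 _ (Or.inr ⟨m, hm2, rfl⟩) _ (Or.inl rfl) hxy
    · subst hy
      by_cases hjG : G n i ≤ j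
      · exact hkG n hn1 _ (Or.inr ⟨m, hm2, rfl⟩) _ (Or.inr ⟨i, j, hjG, rfl⟩) hxy
      · have hnN : N i ≤ n := by
          by_contra hcon
          have h4 : G n i ≤ (Finset.range (N i)).sup fun n => G n i :=
            Finset.le_sup (f := fun n => G n i) (Finset.mem_range.2 (not_le.1 hcon))
          have := hg i
          simp only at this
          omega
        have h5 : M n i j ≤ (Finset.range (G n i)).sup (M n i) :=
          Finset.le_sup (Finset.mem_range.2 (not_le.1 hjG))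
        exact hM n i j (fun h6 => hn ⟨s i j, Or.inr ⟨i, j, hj, rfl⟩, h6⟩) m
          ((h5.trans (hN i n hnN)).trans hm1) hxy

lemma isCompact_WW (n k : ℕ) : IsCompact (WW n k : Set (FanPt κ)) := by
  have h1 : Tendsto (fun m : ℕ => (c n (k + m) : FanPt κ)) atTop (𝓝 (a n)) := by
    rw [tendsto_def]
    intro O hO
    obtain ⟨M, hM⟩ := exists_WW hO
    exact mem_atTop_sets.2 ⟨M, fun m hm => hM (Or.inr ⟨k + m, by omega, rfl⟩)⟩
  have h2 : (WW n k : Set (FanPt κ)) = insert (a n) (range fun m : ℕ => c n (k + m)) := by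
    ext x
    constructor
    · rintro (rfl | ⟨m, hm, rfl⟩)
      · exact Or.inl rfl
      · exact Or.inr ⟨m - k, by simp only; congr 1; omega⟩
    · rintro (rfl | ⟨m, rfl⟩)
      · exact Or.inl rfl
      · exact Or.inr ⟨k + m, by omega, rfl⟩
  rw [h2]
  exact h1.isCompact_insert_range

/-- If all families of functions indexed by `κ` are bounded, then the property holds. -/
lemma fan_holds (hb : ∀ φ : κ → ℕ → ℕ, EvBounded (range φ)) :
    ClosedPreordersWeaklyContinuous (FanPt κ) := by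
  intro r hr
  apply weaklyContinuous_of_multiUtility
  apply hasMultiUtility_of_normal hr
  obtain ⟨g₁, hg₁⟩ := fan_hulls hr hb
  obtain ⟨g₂, hg₂⟩ := fan_hulls (isClosedPreorder_swap hr) hb
  have hsub : nonIsolated (FanPt κ) ⊆ insert apex (range a) := by
    intro p hp
    cases p with
    | apex => exact Or.inl rfl
    | a n => exact Or.inr ⟨n, rfl⟩
    | s i j => exact (hp (isOpen_s i j)).elim
    | c n m => exact (hp (isOpen_c n m)).elim
  apply normal_of_hull_base hr (((countable_range a).insert apex).mono hsub)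
  intro p hp O hO
  rcases hsub hp with rfl | ⟨n, rfl⟩
  · obtain ⟨g, hg⟩ := exists_VV hO
    refine ⟨VV (fun i => max (g i) (max (g₁ i) (g₂ i))), (isOpen_VV _).mem_nhds (Or.inl rfl),
      ?_, ?_, ?_⟩
    · refine Subset.trans ?_ hg
      rintro x (rfl | ⟨i, j, hj, rfl⟩)
      · exact Or.inl rfl
      · exact Or.inr ⟨i, j, (le_max_left _ _).trans hj, rfl⟩
    · exact hg₁ _ fun i => (le_max_left _ _).trans (le_max_right _ _)
    · exact hg₂ _ fun i => (le_max_right _ _).trans (le_max_right _ _)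
  · obtain ⟨k, hk⟩ := exists_WW hO
    exact ⟨WW n k, (isOpen_WW n k).mem_nhds (Or.inl rfl), hk,
      isClosed_dHull hr (isCompact_WW n k), isClosed_iHull hr (isCompact_WW n k)⟩

/-- Families indexed by `κ` are bounded iff the cardinal of `κ` is less than the bounding
number. -/
lemma lt_boundingNumber_iff : #κ < boundingNumber ↔ ∀ φ : κ → ℕ → ℕ, EvBounded (range φ) := by
  constructor
  · intro h φ
    by_contra hφ
    have h1 : boundingNumber ≤ #(range φ) := csInf_le' ⟨range φ, hφ, rfl⟩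
    exact absurd (h1.trans mk_range_le) (not_le.2 h)
  · intro h
    by_contra hcon
    rw [not_lt] at hcon
    have hne : {k : Cardinal.{0} | ∃ S : Set (ℕ → ℕ), ¬ EvBounded S ∧ #S = k}.Nonempty := by
      refine ⟨_, univ, ?_, rfl⟩
      rintro ⟨h, hh⟩
      obtain ⟨n, hn⟩ := (hh (fun n => h n + 1) trivial).exists
      omega
    obtain ⟨S, hS, hS'⟩ := csInf_mem hne
    have hle : #S ≤ #κ := by
      rw [hS']; exact hcon
    obtain ⟨ι⟩ := hle
    have hSne : Nonempty S := by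
      by_contra hemp
      apply hS
      refine ⟨fun _ => 0, fun f hf => ?_⟩
      exact (hemp ⟨⟨f, hf⟩⟩).elim
    have hsurj : Function.Surjective (Function.invFun ι) :=
      Function.invFun_surjective ι.injective
    apply hS
    obtain ⟨g, hg⟩ := h fun i => (Function.invFun ι i).1
    refine ⟨g, fun f hf => ?_⟩
    obtain ⟨i, hi⟩ := hsurj ⟨f, hf⟩
    exact hg f ⟨i, by simp [hi]⟩

theorem fan_iff (κ : Type) : ClosedPreordersWeaklyContinuous (FanPt κ) ↔ #κ < boundingNumber := by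
  rw [lt_boundingNumber_iff]
  constructor
  · intro h φ
    by_contra hφ
    exact fan_fails φ hφ h
  · exact fan_holds

end Pool.Agent.H73.Preord
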