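import Pool.Agent.H73.PreorderMain

/-!
# Examples of spaces of pointwise countable type (sanity checks)
-/

namespace Pool.Agent.H73.Preord

open Set Filter Topology

variable {X : Type*} [TopologicalSpace X]

lemma pct_of_firstCountable [FirstCountableTopology X] : PointwiseCountableType X := fun x =>
  ⟨{x}, isCompact_singleton, rfl, by rw [nhdsSet_singleton]; infer_instance⟩

lemma pct_of_locallyCompact [T2Space X] [LocallyCompactSpace X] : PointwiseCountableType X := by
  intro x
  -- a decreasing sequence of compact neighbourhoods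
  have hstep : ∀ N : {N : Set X // IsCompact N ∧ N ∈ 𝓝 x},
      ∃ N' : {N : Set X // IsCompact N ∧ N ∈ 𝓝 x}, N'.1 ⊆ interior N.1 := by
    rintro ⟨N, hN, hN'⟩
    obtain ⟨C, hC, hC1, hC2⟩ := exists_compact_subset isOpen_interior
      (mem_interior_iff_mem_nhds.2 hN')
    exact ⟨⟨C, hC, mem_interior_iff_mem_nhds.1 hC1⟩, hC2⟩
  choose nx hnx using hstep
  obtain ⟨C, hC, hC'⟩ := exists_compact_mem_nhds x
  let sq : ℕ → {N : Set X // IsCompact N ∧ N ∈ 𝓝 x} := fun n =>
    Nat.rec ⟨C, hC, hC'⟩ (fun _ N => nx N) n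
  have hsq : ∀ n, (sq (n + 1)).1 ⊆ interior (sq n).1 := fun n => hnx (sq n)
  have hanti : Antitone (fun n => (sq n).1) :=
    antitone_nat_of_succ_le fun n => (hsq n).trans interior_subset
  have hK : IsCompact (⋂ n, (sq n).1) :=
    (sq 0).2.1.of_isClosed_subset (isClosed_iInter fun n => (sq n).2.1.isClosed)
      (iInter_subset _ 0)
  refine ⟨⋂ n, (sq n).1, hK, mem_iInter.2 fun n => mem_of_mem_nhds (sq n).2.2, ?_⟩
  have hbasis : (𝓝ˢ (⋂ n, (sq n).1)).HasBasis (fun _ : ℕ => True) (fun n => (sq n).1) := by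
    refine ⟨fun t => ⟨fun ht => ?_, ?_⟩⟩
    · obtain ⟨U, hU, hKU, hUt⟩ := mem_nhdsSet_iff_exists.1 ht
      obtain ⟨n, hn⟩ := exists_subset_nhds_of_isCompact' (V := fun n => (sq n).1)
        (directed_of_isDirected_le fun m n h => hanti h) (fun n => (sq n).2.1)
        (fun n => (sq n).2.1.isClosed) (U := U) (fun y hy => hU.mem_nhds (hKU hy))
      exact ⟨n, trivial, hn.trans hUt⟩
    · rintro ⟨n, -, hn⟩
      refine mem_nhdsSet_iff_exists.2 ⟨interior (sq n).1, isOpen_interior, ?_,
        interior_subset.trans hn⟩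
      exact (iInter_subset _ (n + 1)).trans (hsq n)
  exact hbasis.isCountablyGenerated

/-- The metrizable case. -/
theorem metrizable_case (X : Type*) [TopologicalSpace X] [TopologicalSpace.MetrizableSpace X] :
    ClosedPreordersWeaklyContinuous X ↔
      IsCompact (nonIsolated X) ∨ (LocallyCompactSpace X ∧ IsLindelof (nonIsolated X)) := by
  letI := TopologicalSpace.metrizableSpaceMetric X
  exact characterisation X pct_of_firstCountable

end Pool.Agent.H73.Preord
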