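import Pool.Agent.H73.PreorderNec

/-!
# The characterisation for paracompact Hausdorff spaces of pointwise countable type
-/

namespace Pool.Agent.H73.Preord

open Set Filter Topology Cardinal

universe u

variable {X : Type u} [TopologicalSpace X]

/-- Case 1: not locally compact, and the set of non-isolated points is not compact. -/
lemma case_one [T2Space X] [ParacompactSpace X] (hX : PointwiseCountableType X)
    (h1 : ¬ IsCompact (nonIsolated X)) (h2 : ¬ LocallyCompactSpace X) :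
    ¬ ClosedPreordersWeaklyContinuous X := by
  -- a point `b` without compact neighbourhoods
  obtain ⟨b, hb⟩ : ∃ b : X, ∀ C, IsCompact C → C ∉ 𝓝 b := by
    by_contra hcon
    push Not at hcon
    apply h2
    have : WeaklyLocallyCompactSpace X := ⟨fun x => by
      obtain ⟨C, hC, hC'⟩ := hcon x
      exact ⟨C, hC, hC'⟩⟩
    infer_instance
  obtain ⟨K, hK, hbK, hKc⟩ := hX b
  obtain ⟨V, hV⟩ := (𝓝ˢ K).exists_antitone_basis
  -- the points for `A`
  obtain ⟨T₀, hT₀, hT₀i, hT₀d⟩ := exists_infinite_discr isClosed_nonIsolated h1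
  set T : Set X := T₀ \ K with hTdef
  have hTi : T.Infinite := by
    intro hfin
    apply hT₀i
    refine (hfin.union (hT₀d.inter_compact hK)).subset fun x hx => ?_
    by_cases hxK : x ∈ K
    · exact Or.inr ⟨hxK, hx⟩
    · exact Or.inl ⟨hx, hxK⟩
  have hTd : Discr T := hT₀d.mono sdiff_subset
  obtain ⟨O, hO, hKO, hOT⟩ : ∃ O : Set X, IsOpen O ∧ K ⊆ O ∧ closure O ∩ T = ∅ := by
    obtain ⟨O, hO, hKO, hOT⟩ := normal_exists_closure_subset hK.isClosed
      hTd.isClosed.isOpen_compl (fun x hx hxT => hxT.2 hx)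
    exact ⟨O, hO, hKO, by
      rw [← Set.disjoint_iff_inter_eq_empty, ← Set.subset_compl_iff_disjoint_right]
      exact hOT⟩
  obtain ⟨N, hNo, hNt, hNl, hNd⟩ := exists_expansion hTd
  have hNt' : ∀ t : T, N t \ closure O ∈ 𝓝 t.1 := fun t =>
    ((hNo t).sdiff isClosed_closure).mem_nhds ⟨hNt t, fun h => by
      have : t.1 ∈ closure O ∩ T := ⟨h, t.2⟩
      rw [hOT] at this
      exact this⟩
  have hq : ∀ t : T, ∃ (q : X) (c : ℕ → X), q ∈ N t \ closure O ∧
      (∀ n, c n ∈ N t \ closure O) ∧ (∀ n, c n ≠ q) ∧ ∀ W ∈ 𝓝 q, ∃ n, c n ∈ W := fun t =>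
    exists_cluster hX (hT₀ t.2.1) (hNt' t)
  choose q c hqN hcN hcq hcl using hq
  -- enumerate
  have hTinf : Infinite T := hTi.to_subtype
  let t : ℕ → T := Infinite.natEmbedding T
  have ht : Function.Injective t := (Infinite.natEmbedding T).injective
  -- the points for `B`
  have hd : ∀ n : ℕ, ∃ d : ℕ → X, Function.Injective d ∧ (∀ k, d k ∈ V n ∧ d k ∈ O ∧ d k ∉ K) ∧
      Discr (range d) := by
    intro n
    obtain ⟨G, hG, hKG, hGV⟩ := (mem_nhdsSet_iff_exists).1 (hV.mem n)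
    obtain ⟨Z, hZ, hKZ, hZG⟩ := normal_exists_closure_subset hK.isClosed (hG.inter hO)
      (subset_inter hKG hKO)
    have hZc : ¬ IsCompact (closure Z) := fun h =>
      hb _ h (Filter.mem_of_superset (hZ.mem_nhds (hKZ hbK)) subset_closure)
    obtain ⟨D, hDZ, hDi, hDd⟩ := exists_infinite_discr isClosed_closure hZc
    have hDi' : (D \ K).Infinite := by
      intro hfin
      apply hDi
      refine (hfin.union (hDd.inter_compact hK)).subset fun x hx => ?_
      by_cases hxK : x ∈ K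
      · exact Or.inr ⟨hxK, hx⟩
      · exact Or.inl ⟨hx, hxK⟩
    have : Infinite ↥(D \ K) := hDi'.to_subtype
    refine ⟨fun k => (Infinite.natEmbedding ↥(D \ K) k).1,
      Subtype.val_injective.comp (Infinite.natEmbedding ↥(D \ K)).injective, fun k => ?_, ?_⟩
    · have h3 := (Infinite.natEmbedding ↥(D \ K) k).2
      have h4 := hZG (hDZ h3.1)
      exact ⟨hGV h4.1, h4.2, h3.2⟩
    · refine hDd.mono ?_
      rintro _ ⟨k, rfl⟩
      exact (Infinite.natEmbedding ↥(D \ K) k).2.1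
  choose d hdi hdV hdd using hd
  have hsing : ∀ n, LocallyFinite (fun k => ({d n k} : Set X)) := by
    intro n x
    obtain ⟨O', hO', hf⟩ := hdd n x
    refine ⟨O', hO', ?_⟩
    refine (hf.preimage (f := d n) (hdi n).injOn).subset ?_
    rintro k ⟨y, rfl, hy⟩
    exact ⟨hy, k, rfl⟩
  -- the relation
  have hFcl : IsClosed (⋃ n : ℕ, ⋃ k : ℕ, ({d n k} ×ˢ {c (t n) k} : Set (X × X))) := by
    have hNl' : LocallyFinite (fun n : ℕ => (univ : Set X) ×ˢ (N (t n))) :=
      (hNl.comp_injective ht).prod_left _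
    refine (hNl'.subset fun n => ?_).isClosed_iUnion fun n => ?_
    · rintro ⟨x, y⟩ hxy
      obtain ⟨k, hk⟩ := mem_iUnion.1 hxy
      refine ⟨mem_univ _, ?_⟩
      have : y = c (t n) k := hk.2
      rw [this]
      exact (hcN (t n) k).1
    · exact ((hsing n).prod_right _).isClosed_iUnion fun k =>
        isClosed_singleton.prod isClosed_singleton
  have hAd : LocallyFinite (fun n : ℕ => ({q (t n)} : Set X)) :=
    (hNl.comp_injective ht).subset fun n => singleton_subset_iff.2 (hqN (t n)).1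
  have hO' : ∀ x ∈ O, x ∈ closure O := fun x hx => subset_closure hx
  refine not_property_of_rel (A := ⋃ n : ℕ, {q (t n)}) (B := K)
    (F := ⋃ n : ℕ, ⋃ k : ℕ, ({d n k} ×ˢ {c (t n) k} : Set (X × X)))
    (hAd.isClosed_iUnion fun n => isClosed_singleton) hK.isClosed hFcl
    ⟨q (t 0), mem_iUnion.2 ⟨0, rfl⟩⟩ ⟨b, hbK⟩ ?_ ?_ ?_ ?_
  · intro x hx hxK
    obtain ⟨n, rfl⟩ := mem_iUnion.1 hx
    exact (hqN (t n)).2 (hO' _ (hKO hxK))
  · rintro ⟨x, y⟩ hxy
    obtain ⟨n, hn⟩ := mem_iUnion.1 hxy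
    obtain ⟨k, hk⟩ := mem_iUnion.1 hn
    obtain ⟨rfl, rfl⟩ : x = d n k ∧ y = c (t n) k := hk
    refine ⟨?_, (hdV n k).2.2, ?_, ?_⟩
    · intro h
      obtain ⟨m, hm⟩ := mem_iUnion.1 h
      have hm' : d n k = q (t m) := hm
      have := (hqN (t m)).2
      rw [← hm'] at this
      exact this (hO' _ (hdV n k).2.1)
    · intro h
      obtain ⟨m, hm⟩ := mem_iUnion.1 h
      have hm' : c (t n) k = q (t m) := hm
      have h3 : t n = t m := hNd _ _ _ (hcN (t n) k).1 (by rw [hm']; exact (hqN (t m)).1)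
      rw [← h3] at hm'
      exact hcq _ _ hm'
    · intro h
      exact (hcN (t n) k).2 (hO' _ (hKO h))
  · rintro ⟨x, y⟩ hxy ⟨x', y'⟩ hxy' h
    obtain ⟨n, hn⟩ := mem_iUnion.1 hxy
    obtain ⟨k, hk⟩ := mem_iUnion.1 hn
    obtain ⟨rfl, rfl⟩ : x = d n k ∧ y = c (t n) k := hk
    obtain ⟨m, hm⟩ := mem_iUnion.1 hxy'
    obtain ⟨l, hl⟩ := mem_iUnion.1 hm
    obtain ⟨rfl, rfl⟩ : x' = d m l ∧ y' = c (t m) l := hl
    have h3 : d n k = c (t m) l := h
    exact (hcN (t m) l).2 (h3 ▸ hO' _ (hdV n k).2.1)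
  · intro G W hG hW hKG hAW
    obtain ⟨n, hn⟩ := hV.mem_iff.1 (hG.mem_nhdsSet.2 hKG)
    obtain ⟨k, hk⟩ := hcl (t n) W (hW.mem_nhds (hAW (mem_iUnion.2 ⟨n, rfl⟩)))
    exact ⟨(d n k, c (t n) k), mem_iUnion.2 ⟨n, mem_iUnion.2 ⟨k, rfl, rfl⟩⟩, hn (hdV n k).1, hk⟩

/-- An uncountable well-ordered set all of whose proper initial segments are countable, with
injections of the initial segments into the integers. -/
lemma exists_coding {T : Type u} (hT : ¬ Countable T) :
    ∃ (I : Type u) (_ : LinearOrder I) (_ : I × Bool ↪ T) (e : I → I → ℕ),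
      (¬ Countable I) ∧ (∀ i : I, (Set.Iic i).Countable) ∧
      ∀ j : I, ∀ i i', i < j → i' < j → e j i = e j i' → i = i' := by
  have h1 : ℵ₁ ≤ #T := by
    rw [← not_lt, lt_aleph_one_iff, mk_le_aleph0_iff]
    exact hT
  let I : Type u := (ℵ₁ : Cardinal.{u}).ord.ToType
  have hI : #I = ℵ₁ := by simp [I]
  have h2 : #(I × Bool) = ℵ₁ := by
    rw [mk_prod, hI]
    simp only [lift_uzero]
    rw [mul_eq_left]
    · simp
    · simp only [mk_fintype, Fintype.card_bool, lift_natCast]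
      exact (nat_lt_aleph0 2).le.trans (aleph0_le_aleph 1)
    · simp
  have h3 : #(I × Bool) ≤ #T := h2 ▸ h1
  obtain ⟨ι⟩ := h3
  have hIio : ∀ i : I, (Set.Iio i).Countable := fun i => by
    rw [← le_aleph0_iff_set_countable, ← lt_aleph_one_iff]
    exact mk_Iio_toType_ord_lt i
  have hc : ∀ j : I, ∃ f : I → ℕ, InjOn f (Set.Iio j) := fun j =>
    (Set.countable_iff_exists_injOn).1 (hIio j)
  choose e he using hc
  refine ⟨I, inferInstance, ι, e, ?_, ?_, ?_⟩
  · rw [← mk_le_aleph0_iff, ← lt_aleph_one_iff, hI]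
    exact lt_irrefl _
  · intro i
    rw [← Set.Iio_insert]
    exact (hIio i).insert i
  · intro j i i' hi hi' h
    exact he j hi hi' h

/-- Case 2: the set of non-isolated points is not Lindelöf. -/
lemma case_two [T2Space X] [ParacompactSpace X] (hX : PointwiseCountableType X)
    (h1 : ¬ IsLindelof (nonIsolated X)) : ¬ ClosedPreordersWeaklyContinuous X := by
  obtain ⟨T, hT, hTc, hTd⟩ := exists_uncountable_discr isClosed_nonIsolated h1
  obtain ⟨N, hNo, hNt, hNl, hNd⟩ := exists_expansion hTd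
  have hq : ∀ t : T, ∃ (q : X) (c : ℕ → X), q ∈ N t ∧
      (∀ n, c n ∈ N t) ∧ (∀ n, c n ≠ q) ∧ ∀ W ∈ 𝓝 q, ∃ n, c n ∈ W := fun t =>
    exists_cluster hX (hT t.2) ((hNo t).mem_nhds (hNt t))
  choose q c hqN hcN hcq hcl using hq
  obtain ⟨I, _, ι, e, hI, hIc, he⟩ := exists_coding (T := T) hTc
  have hιe : ∀ p p' : I × Bool, ∀ x, x ∈ N (ι p) → x ∈ N (ι p') → p = p' :=
    fun p p' x hx hx' => ι.injective (hNd _ _ x hx hx')
  have hNι : LocallyFinite (fun p : I × Bool => N (ι p)) := hNl.comp_injective ι.injective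
  have hNε : ∀ ε : Bool, LocallyFinite (fun i : I => N (ι (i, ε))) := fun ε =>
    hNι.comp_injective (g := fun i : I => (i, ε)) fun i i' h => (Prod.mk.inj h).1
  have hqcl : ∀ ε : Bool, IsClosed (⋃ i : I, ({q (ι (i, ε))} : Set X)) := fun ε =>
    ((hNε ε).subset fun i => singleton_subset_iff.2 (hqN _)).isClosed_iUnion
      fun i => isClosed_singleton
  -- the relation
  set F : Set (X × X) := {p | ∃ i j : I, i < j ∧ ∃ k l : ℕ, k ≤ e j i ∧ l ≤ e j i ∧
    p.1 = c (ι (j, true)) k ∧ p.2 = c (ι (i, false)) l} with hFdef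
  have hFcl : IsClosed F := by
    have hF : F = ⋃ p : I × I, {x : X × X | p.1 < p.2 ∧ ∃ k l : ℕ, k ≤ e p.2 p.1 ∧
        l ≤ e p.2 p.1 ∧ x.1 = c (ι (p.2, true)) k ∧ x.2 = c (ι (p.1, false)) l} := by
      ext x
      simp only [hFdef, mem_ofPred_eq, mem_iUnion, Prod.exists]
    rw [hF]
    refine LocallyFinite.isClosed_iUnion ?_ ?_
    · rintro ⟨x, y⟩
      obtain ⟨O₁, hO₁, hf₁⟩ := hNε true x
      obtain ⟨O₂, hO₂, hf₂⟩ := hNε false y
      refine ⟨O₁ ×ˢ O₂, prod_mem_nhds hO₁ hO₂, (hf₂.prod hf₁).subset ?_⟩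
      rintro ⟨i, j⟩ ⟨⟨x', y'⟩, ⟨hij, k, l, hk, hl, hx', hy'⟩, hx'O, hy'O⟩
      simp only at hx' hy' hx'O hy'O
      exact ⟨⟨y', by rw [hy']; exact hcN _ _, hy'O⟩, ⟨x', by rw [hx']; exact hcN _ _, hx'O⟩⟩
    · rintro ⟨i, j⟩
      refine Set.Finite.isClosed ?_
      refine Set.Finite.subset (((Set.finite_Iic (e j i)).image (c (ι (j, true)))).prod
        ((Set.finite_Iic (e j i)).image (c (ι (i, false))))) ?_
      rintro ⟨x, y⟩ ⟨-, k, l, hk, hl, hx, hy⟩
      exact ⟨⟨k, hk, hx.symm⟩, ⟨l, hl, hy.symm⟩⟩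
  have hIn : Nonempty I := by
    by_contra h
    rw [not_nonempty_iff] at h
    exact hI inferInstance
  have hqc : ∀ p p' : I × Bool, ∀ k, c (ι p) k ≠ q (ι p') := by
    intro p p' k h
    have h3 : p = p' := hιe p p' _ (hcN _ _) (by rw [h]; exact hqN _)
    subst h3
    exact hcq _ _ h
  refine not_property_of_rel (A := ⋃ i : I, ({q (ι (i, false))} : Set X))
    (B := ⋃ i : I, ({q (ι (i, true))} : Set X)) (F := F) (hqcl false) (hqcl true) hFcl ?_ ?_
    ?_ ?_ ?_ ?_
  · exact ⟨q (ι (hIn.some, false)), mem_iUnion.2 ⟨hIn.some, rfl⟩⟩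
  · exact ⟨q (ι (hIn.some, true)), mem_iUnion.2 ⟨hIn.some, rfl⟩⟩
  · intro x hx hx'
    obtain ⟨i, hi⟩ := mem_iUnion.1 hx
    obtain ⟨j, hj⟩ := mem_iUnion.1 hx'
    have hi' : x = q (ι (i, false)) := hi
    have hj' : x = q (ι (j, true)) := hj
    have := hιe (i, false) (j, true) x (by rw [hi']; exact hqN _) (by rw [hj']; exact hqN _)
    simp at this
  · rintro ⟨x, y⟩ ⟨i, j, hij, k, l, hk, hl, hx, hy⟩
    simp only at hx hy
    subst hx hy
    refine ⟨?_, ?_, ?_, ?_⟩ <;>
    · intro h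
      obtain ⟨m, hm⟩ := mem_iUnion.1 h
      exact hqc _ _ _ hm
  · rintro ⟨x, y⟩ ⟨i, j, hij, k, l, hk, hl, hx, hy⟩ ⟨x', y'⟩
      ⟨i', j', hij', k', l', hk', hl', hx', hy'⟩ h
    simp only at hx hy' h
    have := hιe (j, true) (i', false) x (by rw [hx]; exact hcN _ _)
      (by rw [h, hy']; exact hcN _ _)
    simp at this
  · intro V W hV hW hBV hAW
    have hg : ∀ i : I, ∃ n, c (ι (i, false)) n ∈ W := fun i =>
      hcl _ W (hW.mem_nhds (hAW (mem_iUnion.2 ⟨i, rfl⟩)))
    have hh : ∀ j : I, ∃ n, c (ι (j, true)) n ∈ V := fun j =>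
      hcl _ V (hV.mem_nhds (hBV (mem_iUnion.2 ⟨j, rfl⟩)))
    choose g hg using hg
    choose h hh using hh
    -- bound `g` and `h` on uncountable sets
    have hunc : ∀ u : I → ℕ, ∃ m, ¬ {i | u i = m}.Countable := by
      intro u
      by_contra hcon
      push Not at hcon
      apply hI
      rw [← Set.countable_univ_iff]
      have : (univ : Set I) = ⋃ m, {i | u i = m} := by
        ext i; simp
      rw [this]
      exact Set.countable_iUnion hcon
    obtain ⟨m₁, hm₁⟩ := hunc g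
    obtain ⟨m₂, hm₂⟩ := hunc h
    have hG : {i | g i = m₁}.Infinite := fun hf => hm₁ hf.countable
    obtain ⟨G, hGsub, hGi, hGc⟩ : ∃ G ⊆ {i | g i = m₁}, G.Infinite ∧ G.Countable := by
      have : Infinite ↥{i | g i = m₁} := hG.to_subtype
      refine ⟨range fun k => (Infinite.natEmbedding ↥{i | g i = m₁} k).1, ?_, ?_, ?_⟩
      · rintro _ ⟨k, rfl⟩
        exact (Infinite.natEmbedding ↥{i | g i = m₁} k).2
      · exact Set.infinite_range_of_injective
          (Subtype.val_injective.comp (Infinite.natEmbedding _).injective)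
      · exact Set.countable_range _
    obtain ⟨j, hj, hjG⟩ : ∃ j, h j = m₂ ∧ ∀ i ∈ G, i < j := by
      by_contra hcon
      push Not at hcon
      apply hm₂
      refine (hGc.biUnion fun i _ => hIc i).mono ?_
      intro j hj
      obtain ⟨i, hi, hij⟩ := hcon j hj
      exact mem_iUnion₂.2 ⟨i, hi, hij⟩
    -- some value of `e j` on `G` is large
    obtain ⟨i, hiG, hi⟩ : ∃ i ∈ G, max m₁ m₂ ≤ e j i := by
      by_contra hcon
      push Not at hcon
      have hinj : InjOn (e j) G := fun i hi i' hi' hii' => he j i i' (hjG i hi) (hjG i' hi') hii'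
      have : (e j '' G).Infinite := hGi.image hinj
      apply this
      refine (Set.finite_Iio (max m₁ m₂)).subset ?_
      rintro _ ⟨i, hi, rfl⟩
      exact hcon i hi
    refine ⟨(c (ι (j, true)) (h j), c (ι (i, false)) (g i)), ⟨i, j, hjG i hiG, h j, g i, ?_, ?_,
      rfl, rfl⟩, hh j, hg i⟩
    · rw [hj]; exact (le_max_right _ _).trans hi
    · have : g i = m₁ := hGsub hiG
      rw [this]; exact (le_max_left _ _).trans hi

/-- The characterisation. -/
theorem characterisation (X : Type u) [TopologicalSpace X] [T2Space X] [ParacompactSpace X]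
    (hX : PointwiseCountableType X) :
    ClosedPreordersWeaklyContinuous X ↔
      IsCompact (nonIsolated X) ∨ (LocallyCompactSpace X ∧ IsLindelof (nonIsolated X)) := by
  constructor
  · intro h
    by_contra hcon
    push Not at hcon
    obtain ⟨h1, h2⟩ := hcon
    by_cases h3 : LocallyCompactSpace X
    · exact case_two hX (h2 h3) h
    · exact case_one hX h1 h3 h
  · rintro (h | ⟨h1, h2⟩)
    · exact property_of_compact h
    · exact property_of_lindelof h2

end Pool.Agent.H73.Preord
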