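import Pool.Agent.H73.PreorderSuff2

/-!
# Necessary conditions for the property
-/

namespace Pool.Agent.H73.Preord

open Set Filter Topology

variable {X : Type*} [TopologicalSpace X]

/-! ### The obstruction -/

/-- The basic obstruction to the property. -/
lemma not_property_of_rel [T2Space X] {A B : Set X} {F : Set (X × X)} (hA : IsClosed A)
    (hB : IsClosed B) (hF : IsClosed F) (hAn : A.Nonempty) (hBn : B.Nonempty)
    (hAB : ∀ x ∈ A, x ∉ B)
    (h1 : ∀ p ∈ F, p.1 ∉ A ∧ p.1 ∉ B ∧ p.2 ∉ A ∧ p.2 ∉ B)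
    (h2 : ∀ p ∈ F, ∀ q ∈ F, p.1 ≠ q.2)
    (h3 : ∀ V W : Set X, IsOpen V → IsOpen W → B ⊆ V → A ⊆ W → ∃ p ∈ F, p.1 ∈ V ∧ p.2 ∈ W) :
    ¬ ClosedPreordersWeaklyContinuous X := by
  intro hX
  set r : X → X → Prop := fun x y =>
    x = y ∨ (x ∈ A ∧ y ∈ A) ∨ (x ∈ B ∧ y ∈ B) ∨ (x ∈ A ∧ y ∈ B) ∨ (x, y) ∈ F with hrdef
  have hr : IsClosedPreorder r := by
    refine ⟨⟨fun x => Or.inl rfl, ?_⟩, ?_⟩
    · intro x y z hxy hyz
      rcases hxy with rfl | ⟨hx, hy⟩ | ⟨hx, hy⟩ | ⟨hx, hy⟩ | hxy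
      · exact hyz
      · rcases hyz with rfl | ⟨hy', hz⟩ | ⟨hy', hz⟩ | ⟨hy', hz⟩ | hyz
        · exact Or.inr (Or.inl ⟨hx, hy⟩)
        · exact Or.inr (Or.inl ⟨hx, hz⟩)
        · exact (hAB y hy hy').elim
        · exact Or.inr (Or.inr (Or.inr (Or.inl ⟨hx, hz⟩)))
        · exact ((h1 _ hyz).1 hy).elim
      · rcases hyz with rfl | ⟨hy', hz⟩ | ⟨hy', hz⟩ | ⟨hy', hz⟩ | hyz
        · exact Or.inr (Or.inr (Or.inl ⟨hx, hy⟩))
        · exact (hAB y hy' hy).elim
        · exact Or.inr (Or.inr (Or.inl ⟨hx, hz⟩))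
        · exact (hAB y hy' hy).elim
        · exact ((h1 _ hyz).2.1 hy).elim
      · rcases hyz with rfl | ⟨hy', hz⟩ | ⟨hy', hz⟩ | ⟨hy', hz⟩ | hyz
        · exact Or.inr (Or.inr (Or.inr (Or.inl ⟨hx, hy⟩)))
        · exact (hAB y hy' hy).elim
        · exact Or.inr (Or.inr (Or.inr (Or.inl ⟨hx, hz⟩)))
        · exact (hAB y hy' hy).elim
        · exact ((h1 _ hyz).2.1 hy).elim
      · rcases hyz with rfl | ⟨hy', hz⟩ | ⟨hy', hz⟩ | ⟨hy', hz⟩ | hyz
        · exact Or.inr (Or.inr (Or.inr (Or.inr hxy)))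
        · exact ((h1 _ hxy).2.2.1 hy').elim
        · exact ((h1 _ hxy).2.2.2 hy').elim
        · exact ((h1 _ hxy).2.2.1 hy').elim
        · exact (h2 _ hyz _ hxy rfl).elim
    · have : {p : X × X | r p.1 p.2} =
          {p : X × X | p.1 = p.2} ∪ (A ×ˢ A ∪ (B ×ˢ B ∪ (A ×ˢ B ∪ F))) := by
        ext p
        simp [hrdef]
      rw [this]
      exact (isClosed_eq continuous_fst continuous_snd).union ((hA.prod hA).union
        ((hB.prod hB).union ((hA.prod hB).union hF)))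
  obtain ⟨a, ha⟩ := hAn
  obtain ⟨b, hb⟩ := hBn
  obtain ⟨f, hf, hf', hlt⟩ := hX r hr a b (Or.inr (Or.inr (Or.inr (Or.inl ⟨ha, hb⟩)))) (by
    rintro (h | ⟨h, -⟩ | ⟨-, h⟩ | ⟨h, -⟩ | h)
    · exact hAB a ha (h ▸ hb)
    · exact hAB b h hb
    · exact hAB a ha h
    · exact hAB b h hb
    · exact (h1 _ h).2.1 hb)
  have hfA : ∀ x ∈ A, f x = f a := fun x hx =>
    le_antisymm (hf' x a (Or.inr (Or.inl ⟨hx, ha⟩))) (hf' a x (Or.inr (Or.inl ⟨ha, hx⟩)))
  have hfB : ∀ x ∈ B, f x = f b := fun x hx =>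
    le_antisymm (hf' x b (Or.inr (Or.inr (Or.inl ⟨hx, hb⟩))))
      (hf' b x (Or.inr (Or.inr (Or.inl ⟨hb, hx⟩))))
  obtain ⟨p, hp, hp1, hp2⟩ := h3 {x | (f a + f b) / 2 < f x} {x | f x < (f a + f b) / 2}
    (isOpen_lt continuous_const hf) (isOpen_lt hf continuous_const)
    (fun x hx => by
      change _ < f x
      rw [hfB x hx]; linarith)
    (fun x hx => by
      change f x < _
      rw [hfA x hx]; linarith)
  have h4 : f p.1 ≤ f p.2 := hf' p.1 p.2 (Or.inr (Or.inr (Or.inr (Or.inr hp))))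
  have h5 : (f a + f b) / 2 < f p.1 := hp1
  have h6 : f p.2 < (f a + f b) / 2 := hp2
  linarith

/-! ### Locally finite sets -/

/-- The set `T` is locally finite. -/
def Discr (T : Set X) : Prop := ∀ x, ∃ O ∈ 𝓝 x, (O ∩ T).Finite

lemma Discr.mono {T T' : Set X} (hT : Discr T) (h : T' ⊆ T) : Discr T' := fun x => by
  obtain ⟨O, hO, hf⟩ := hT x
  exact ⟨O, hO, hf.subset (inter_subset_inter_right _ h)⟩

lemma Discr.isClosed [T1Space X] {T : Set X} (hT : Discr T) : IsClosed T := by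
  rw [← isOpen_compl_iff, isOpen_iff_mem_nhds]
  intro x hx
  obtain ⟨O, hO, hf⟩ := hT x
  have h1 : (O ∩ T)ᶜ ∈ 𝓝 x := hf.isClosed.isOpen_compl.mem_nhds fun h => hx h.2
  filter_upwards [hO, h1] with y hy hy' hyT
  exact hy' ⟨hy, hyT⟩

lemma Discr.inter_compact {T K : Set X} (hT : Discr T) (hK : IsCompact K) : (K ∩ T).Finite := by
  choose O hO hf using hT
  obtain ⟨t, -, ht⟩ := hK.elim_nhds_subcover O fun x _ => hO x
  refine (t.finite_toSet.biUnion fun x _ => hf x).subset ?_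
  rintro y ⟨hyK, hyT⟩
  obtain ⟨x, hx, hxy⟩ := mem_iUnion₂.1 (ht hyK)
  exact mem_iUnion₂.2 ⟨x, hx, hxy, hyT⟩

/-- Choosing points in the members of a locally finite family. -/
lemma exists_discr {ι : Type*} {v : ι → Set X} (hv : LocallyFinite v) (S : Set X) :
    ∃ T ⊆ S, Discr T ∧ (T.Finite → {i | (v i ∩ S).Nonempty}.Finite) ∧
      (T.Countable → {i | (v i ∩ S).Nonempty}.Countable) := by
  classical
  have hch : ∀ i : {i | (v i ∩ S).Nonempty}, ∃ x, x ∈ v i.1 ∩ S := fun i => i.2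
  choose s hs using hch
  have hfib : ∀ t, {i : {i | (v i ∩ S).Nonempty} | s i = t}.Finite := by
    intro t
    have h1 := (hv.point_finite t).preimage
      (f := fun i : {i | (v i ∩ S).Nonempty} => i.1) Subtype.val_injective.injOn
    refine h1.subset ?_
    rintro i rfl
    exact (hs i).1
  have hpre : {i | (v i ∩ S).Nonempty} = Subtype.val ''
      (⋃ t ∈ range s, {i : {i | (v i ∩ S).Nonempty} | s i = t}) := by
    ext i
    constructor
    · intro hi
      exact ⟨⟨i, hi⟩, mem_iUnion₂.2 ⟨s ⟨i, hi⟩, ⟨⟨i, hi⟩, rfl⟩, rfl⟩, rfl⟩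
    · rintro ⟨j, -, rfl⟩
      exact j.2
  refine ⟨range s, ?_, ?_, ?_, ?_⟩
  · rintro _ ⟨i, rfl⟩
    exact (hs i).2
  · intro x
    obtain ⟨O, hO, hf⟩ := hv x
    refine ⟨O, hO, ?_⟩
    have h1 := hf.preimage
      (f := fun i : {i | (v i ∩ S).Nonempty} => i.1) Subtype.val_injective.injOn
    refine (h1.image s).subset ?_
    rintro _ ⟨hy, ⟨i, rfl⟩⟩
    exact ⟨i, ⟨s i, (hs i).1, hy⟩, rfl⟩
  · intro hT
    rw [hpre]
    exact (hT.biUnion fun t _ => hfib t).image _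
  · intro hT
    rw [hpre]
    exact (hT.biUnion fun t _ => (hfib t).countable).image _

lemma exists_infinite_discr [ParacompactSpace X] {S : Set X} (hS : IsClosed S)
    (hS' : ¬ IsCompact S) : ∃ T ⊆ S, T.Infinite ∧ Discr T := by
  by_contra hcon
  apply hS'
  apply isCompact_of_finite_subcover
  intro ι U hU hSU
  obtain ⟨v, hvo, hSv, hv, hvU⟩ := precise_refinement_set hS U hU hSU
  obtain ⟨T, hTS, hT, hfin, -⟩ := exists_discr hv S
  have hTf : T.Finite := by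
    by_contra h
    exact hcon ⟨T, hTS, h, hT⟩
  refine ⟨(hfin hTf).toFinset, fun x hx => ?_⟩
  obtain ⟨i, hi⟩ := mem_iUnion.1 (hSv hx)
  exact mem_iUnion₂.2 ⟨i, by simpa using ⟨x, hi, hx⟩, hvU i hi⟩

lemma exists_uncountable_discr [ParacompactSpace X] {S : Set X} (hS : IsClosed S)
    (hS' : ¬ IsLindelof S) : ∃ T ⊆ S, ¬ T.Countable ∧ Discr T := by
  by_contra hcon
  apply hS'
  apply isLindelof_of_countable_subcover
  intro ι U hU hSU
  obtain ⟨v, hvo, hSv, hv, hvU⟩ := precise_refinement_set hS U hU hSU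
  obtain ⟨T, hTS, hT, -, hcnt⟩ := exists_discr hv S
  have hTc : T.Countable := by
    by_contra h
    exact hcon ⟨T, hTS, h, hT⟩
  refine ⟨_, hcnt hTc, fun x hx => ?_⟩
  obtain ⟨i, hi⟩ := mem_iUnion.1 (hSv hx)
  exact mem_iUnion₂.2 ⟨i, ⟨x, hi, hx⟩, hvU i hi⟩

/-- A locally finite set of points of a paracompact Hausdorff space has a locally finite disjoint
open expansion. -/
lemma exists_expansion [T2Space X] [ParacompactSpace X] {T : Set X} (hT : Discr T) :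
    ∃ N : T → Set X, (∀ t, IsOpen (N t)) ∧ (∀ t, t.1 ∈ N t) ∧ LocallyFinite N ∧
      (∀ t t' : T, ∀ x, x ∈ N t → x ∈ N t' → t = t') := by
  -- neighbourhoods which contain at most one point of `T`
  have hG : ∀ x : X, ∃ G : Set X, IsOpen G ∧ x ∈ G ∧ ∀ t ∈ T, t ∈ G → t = x := by
    intro x
    obtain ⟨O, hO, hf⟩ := hT x
    refine ⟨interior O \ ((O ∩ T) \ {x}), isOpen_interior.sdiff (hf.subset sdiff_subset).isClosed,
      ⟨mem_interior_iff_mem_nhds.2 hO, fun h => h.2 rfl⟩, ?_⟩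
    rintro t ht ⟨h1, h2⟩
    by_contra hne
    exact h2 ⟨⟨interior_subset h1, ht⟩, hne⟩
  choose G hGo hxG hGT using hG
  obtain ⟨v, hvo, hvc, hv, hvG⟩ := precise_refinement G hGo
    (Set.eq_univ_of_forall fun x => mem_iUnion.2 ⟨x, hxG x⟩)
  obtain ⟨w, hwc, -, hw⟩ := exists_iUnion_eq_closure_subset hvo (fun x => hv.point_finite x) hvc
  have hwlf : LocallyFinite (fun x => closure (w x)) := hv.subset hw
  refine ⟨fun t => (⋃ x : {x : X // t.1 ∉ closure (w x)}, closure (w x.1))ᶜ, ?_, ?_, ?_, ?_⟩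
  · intro t
    rw [isOpen_compl_iff]
    exact (hwlf.comp_injective Subtype.val_injective).isClosed_iUnion fun x => isClosed_closure
  · intro t ht
    obtain ⟨x, hx⟩ := mem_iUnion.1 ht
    exact x.2 hx
  · intro y
    obtain ⟨O, hO, hf⟩ := hwlf y
    refine ⟨O, hO, ?_⟩
    refine Set.Finite.of_finite_image (f := fun t : T => t.1) (hf.subset ?_)
      Subtype.val_injective.injOn
    rintro _ ⟨t, ⟨z, hz1, hz2⟩, rfl⟩
    obtain ⟨x, hx⟩ : ∃ x, z ∈ w x := by
      have : z ∈ ⋃ x, w x := by rw [hwc]; trivial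
      exact mem_iUnion.1 this
    have hzx : z ∈ closure (w x) := subset_closure hx
    have htx : t.1 ∈ closure (w x) := by
      by_contra h
      exact hz1 (mem_iUnion.2 ⟨⟨x, h⟩, hzx⟩)
    have : t.1 = x := hGT x t.1 t.2 (hvG x (hw x htx))
    change (closure (w t.1) ∩ O).Nonempty
    rw [this]
    exact ⟨z, hzx, hz2⟩
  · intro t t' z hz hz'
    obtain ⟨x, hx⟩ : ∃ x, z ∈ w x := by
      have : z ∈ ⋃ x, w x := by rw [hwc]; trivial
      exact mem_iUnion.1 this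
    have hzx : z ∈ closure (w x) := subset_closure hx
    have htx : t.1 ∈ closure (w x) := by
      by_contra h
      exact hz (mem_iUnion.2 ⟨⟨x, h⟩, hzx⟩)
    have htx' : t'.1 ∈ closure (w x) := by
      by_contra h
      exact hz' (mem_iUnion.2 ⟨⟨x, h⟩, hzx⟩)
    have h1 : t.1 = x := hGT x t.1 t.2 (hvG x (hw x htx))
    have h2 : t'.1 = x := hGT x t'.1 t'.2 (hvG x (hw x htx'))
    exact Subtype.ext (h1.trans h2.symm)

/-! ### Accumulating sequences -/

lemma neBot_of_nonIsolated [T1Space X] {a : X} (ha : a ∈ nonIsolated X) : (𝓝[≠] a).NeBot := by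
  by_contra h
  rw [not_neBot] at h
  exact ha (isOpen_singleton_iff_punctured_nhds a |>.2 h)

/-- Near every non-isolated point of a regular space of pointwise countable type there is a
point which is a cluster point of a sequence of other points. -/
lemma exists_cluster [T2Space X] [RegularSpace X] (hX : PointwiseCountableType X) {a : X}
    (ha : a ∈ nonIsolated X) {O : Set X} (hO : O ∈ 𝓝 a) :
    ∃ (q : X) (c : ℕ → X), q ∈ O ∧ (∀ n, c n ∈ O) ∧ (∀ n, c n ≠ q) ∧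
      ∀ W ∈ 𝓝 q, ∃ n, c n ∈ W := by
  classical
  have := neBot_of_nonIsolated ha
  obtain ⟨K, hK, haK, hKc⟩ := hX a
  obtain ⟨V, hV⟩ := (𝓝ˢ K).exists_antitone_basis
  obtain ⟨O', hO'a, hO'c, hO'O⟩ := exists_mem_nhds_isClosed_subset hO
  have hVa : ∀ n, V n ∈ 𝓝 a := fun n => nhds_le_nhdsSet haK (hV.mem n)
  obtain ⟨s, hs1, hs2⟩ := exists_seq_of_forall_finset_exists
    (fun p : ℕ × X => p.2 ∈ V p.1 ∩ O') (fun p q => p.1 < q.1 ∧ p.2 ≠ q.2) (by
      intro s _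
      have hinf : (V (s.sup Prod.fst + 1) ∩ O').Infinite :=
        infinite_of_mem_nhds a (inter_mem (hVa _) hO'a)
      obtain ⟨y, hy, hy'⟩ := hinf.exists_notMem_finset (s.image Prod.snd)
      refine ⟨(s.sup Prod.fst + 1, y), hy, fun x hx => ⟨?_, ?_⟩⟩
      · exact Nat.lt_succ_of_le (Finset.le_sup (f := Prod.fst) hx)
      · rintro rfl
        exact hy' (Finset.mem_image_of_mem _ hx))
  have hmono : ∀ n, n ≤ (s n).1 := by
    intro n
    induction n with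
    | zero => exact Nat.zero_le _
    | succ n ih => exact lt_of_le_of_lt ih (hs2 n (n + 1) (Nat.lt_succ_self n)).1
  have hinj : ∀ m n, m ≠ n → (s m).2 ≠ (s n).2 := by
    intro m n hmn
    rcases lt_or_gt_of_ne hmn with h | h
    · exact (hs2 m n h).2
    · exact (hs2 n m h).2.symm
  have hcV : ∀ m n, m ≤ n → (s n).2 ∈ V m := fun m n hmn =>
    hV.antitone (hmn.trans (hmono n)) (hs1 n).1
  -- a cluster point in `K`
  obtain ⟨q, hqK, hq⟩ : ∃ q ∈ K, ∀ W ∈ 𝓝 q, ∀ N, ∃ n, N ≤ n ∧ (s n).2 ∈ W := by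
    by_contra hcon
    push Not at hcon
    choose! W hW N hN using hcon
    obtain ⟨t, htK, ht⟩ := hK.elim_nhds_subcover (fun x => interior (W x))
      (fun x hx => interior_mem_nhds.2 (hW x hx))
    have h1 : (⋃ x ∈ t, interior (W x)) ∈ 𝓝ˢ K :=
      (isOpen_biUnion fun x _ => isOpen_interior).mem_nhdsSet.2 ht
    obtain ⟨m, hm⟩ := hV.mem_iff.1 h1
    have h2 := hm (hcV m (max m (t.sup N)) (le_max_left _ _))
    obtain ⟨x, hx, hx'⟩ := mem_iUnion₂.1 h2
    exact hN x (htK x hx) _ ((Finset.le_sup hx).trans (le_max_right _ _)) (interior_subset hx')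
  have hqO' : q ∈ O' := by
    rw [← hO'c.closure_eq, mem_closure_iff_nhds]
    intro W hW
    obtain ⟨n, -, hn⟩ := hq W hW 0
    exact ⟨_, hn, (hs1 n).2⟩
  obtain ⟨N, hN⟩ : ∃ N, ∀ n, N ≤ n → (s n).2 ≠ q := by
    by_cases hex : ∃ n, (s n).2 = q
    · obtain ⟨n₀, hn₀⟩ := hex
      exact ⟨n₀ + 1, fun n hn h => hinj n n₀ (by omega) (h.trans hn₀.symm)⟩
    · push Not at hex
      exact ⟨0, fun n _ => hex n⟩
  refine ⟨q, fun n => (s (N + n)).2, hO'O hqO', fun n => hO'O (hs1 _).2,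
    fun n => hN _ (by omega), fun W hW => ?_⟩
  obtain ⟨n, hn, hnW⟩ := hq W hW N
  refine ⟨n - N, ?_⟩
  have : N + (n - N) = n := by omega
  simp only [this]
  exact hnW

end Pool.Agent.H73.Preord
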