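import Pool.Agent.H73.PreorderBasic

/-!
# Sufficient conditions for the property
-/

namespace Pool.Agent.H73.Preord

open Set Filter Topology

variable {X : Type*} [TopologicalSpace X] {r : X → X → Prop}

/-- The increasing hull. -/
def iHull (r : X → X → Prop) (S : Set X) : Set X := {y | ∃ x ∈ S, r x y}

/-- The decreasing hull. -/
def dHull (r : X → X → Prop) (S : Set X) : Set X := {x | ∃ y ∈ S, r x y}

omit [TopologicalSpace X] in
lemma isIncr_iHull (hr : IsPreorderRel r) (S : Set X) : IsIncr r (iHull r S) := by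
  rintro z x hxz ⟨w, hw, hwx⟩
  exact ⟨w, hw, hr.trans _ _ _ hwx hxz⟩

omit [TopologicalSpace X] in
lemma isDecr_dHull (hr : IsPreorderRel r) (S : Set X) : IsDecr r (dHull r S) := by
  rintro z x hzx ⟨w, hw, hxw⟩
  exact ⟨w, hw, hr.trans _ _ _ hzx hxw⟩

omit [TopologicalSpace X] in
lemma subset_iHull (hr : IsPreorderRel r) (S : Set X) : S ⊆ iHull r S :=
  fun x hx => ⟨x, hx, hr.refl x⟩

omit [TopologicalSpace X] in
lemma subset_dHull (hr : IsPreorderRel r) (S : Set X) : S ⊆ dHull r S :=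
  fun x hx => ⟨x, hx, hr.refl x⟩

/-- If hulls of closed sets are closed, then a closed preorder on a normal space is normal. -/
lemma normal_of_closed_hulls [NormalSpace X] (hr : IsPreorderRel r)
    (h1 : ∀ S : Set X, IsClosed S → IsClosed (iHull r S))
    (h2 : ∀ S : Set X, IsClosed S → IsClosed (dHull r S)) : IsNormalRel r := by
  intro A B hA hA' hB hB' hAB
  obtain ⟨U, V, hU, hV, hAU, hBV, hUV⟩ := normal_separation hA hB
    (Set.disjoint_iff_inter_eq_empty.2 hAB)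
  refine ⟨(iHull r Uᶜ)ᶜ, (dHull r Vᶜ)ᶜ, (h1 _ hU.isClosed_compl).isOpen_compl,
    isDecr_compl (isIncr_iHull hr _), (h2 _ hV.isClosed_compl).isOpen_compl,
    isIncr_compl (isDecr_dHull hr _), ?_, ?_, ?_⟩
  · rintro a ha ⟨x, hx, hxa⟩
    exact hx (hAU (hA' x a hxa ha))
  · rintro b hb ⟨x, hx, hbx⟩
    exact hx (hBV (hB' x b hbx hb))
  · apply Set.eq_empty_of_forall_notMem
    rintro x ⟨h3, h4⟩
    have h5 : x ∈ U := by
      by_contra h
      exact h3 (subset_iHull hr _ h)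
    have h6 : x ∈ V := by
      by_contra h
      exact h4 (subset_dHull hr _ h)
    exact Set.disjoint_left.1 hUV h5 h6

/-- The increasing hull of a compact set is closed. -/
lemma isClosed_iHull (hr : IsClosedPreorder r) {S : Set X} (hS : IsCompact S) :
    IsClosed (iHull r S) := by
  have : iHull r S = Prod.snd '' ({p : X × X | r p.1 p.2} ∩ S ×ˢ univ) := by
    ext y
    constructor
    · rintro ⟨x, hx, hxy⟩
      exact ⟨(x, y), ⟨hxy, hx, mem_univ _⟩, rfl⟩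
    · rintro ⟨⟨x, y'⟩, ⟨hxy, hx, -⟩, rfl⟩
      exact ⟨x, hx, hxy⟩
  rw [← isOpen_compl_iff, isOpen_iff_mem_nhds]
  intro y hy
  -- use the tube lemma
  have hsub : S ×ˢ {y} ⊆ {p : X × X | r p.1 p.2}ᶜ := by
    rintro ⟨x, y'⟩ ⟨hx, hy'⟩ hxy
    simp only [mem_singleton_iff] at hy'
    subst hy'
    exact hy ⟨x, hx, hxy⟩
  obtain ⟨u, v, hu, hv, hSu, hyv, huv⟩ := generalized_tube_lemma hS isCompact_singleton
    hr.isClosed.isOpen_compl hsub
  refine Filter.mem_of_superset (hv.mem_nhds (hyv rfl)) ?_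
  rintro z hz ⟨x, hx, hxz⟩
  exact huv (⟨hSu hx, hz⟩ : (x, z) ∈ u ×ˢ v) hxz

lemma isClosedPreorder_swap (hr : IsClosedPreorder r) : IsClosedPreorder (fun x y => r y x) where
  isPreorder := ⟨hr.isPreorder.refl, fun x y z h1 h2 => hr.isPreorder.trans z y x h2 h1⟩
  isClosed := hr.isClosed.preimage continuous_swap

/-- The decreasing hull of a compact set is closed. -/
lemma isClosed_dHull (hr : IsClosedPreorder r) {S : Set X} (hS : IsCompact S) :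
    IsClosed (dHull r S) :=
  isClosed_iHull (isClosedPreorder_swap hr) hS

/-- Closed preorders on compact Hausdorff spaces are normal (Nachbin). -/
lemma normal_of_compact [CompactSpace X] [T2Space X] (hr : IsClosedPreorder r) :
    IsNormalRel r :=
  normal_of_closed_hulls hr.isPreorder (fun _ hS => isClosed_iHull hr hS.isCompact)
    (fun _ hS => isClosed_dHull hr hS.isCompact)

/-- Restriction of a closed preorder to a subspace. -/
lemma isClosedPreorder_restrict (hr : IsClosedPreorder r) (K : Set X) :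
    IsClosedPreorder (fun x y : K => r x y) where
  isPreorder := ⟨fun x => hr.isPreorder.refl x, fun x y z => hr.isPreorder.trans x y z⟩
  isClosed := hr.isClosed.preimage (f := fun p : K × K => ((p.1 : X), (p.2 : X)))
    (by fun_prop)

/-! ### Locally compact σ-compact spaces -/

/-- One step of the construction. -/
lemma step [T2Space X] (hr : IsClosedPreorder r) {K A B : Set X} (hK : IsCompact K)
    (hA : IsClosed A) (hA' : IsDecr r A) (hB : IsClosed B) (hB' : IsIncr r B)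
    (hAB : A ∩ B = ∅) :
    ∃ P Q : Set X, (IsClosed P ∧ IsClosed Q ∧ P ⊆ K ∧ Q ⊆ K ∧
      (∀ z ∈ K, ∀ x ∈ P, r z x → z ∈ P) ∧ (∀ z ∈ K, ∀ x ∈ Q, r x z → z ∈ Q) ∧ P ∩ Q = ∅ ∧
      A ∩ K ⊆ P ∧ B ∩ K ⊆ Q) ∧
      (∃ O : Set X, IsOpen O ∧ A ∩ K ⊆ O ∧ O ∩ K ⊆ P) ∧
      (∃ O : Set X, IsOpen O ∧ B ∩ K ⊆ O ∧ O ∩ K ⊆ Q) := by
  have : CompactSpace K := isCompact_iff_compactSpace.1 hK
  have hrK := isClosedPreorder_restrict hr K
  obtain ⟨f, hf, hf', h0, h1, h01⟩ := urysohn (normal_of_compact hrK)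
    (A := Subtype.val ⁻¹' A) (B := Subtype.val ⁻¹' B) (hA.preimage continuous_subtype_val)
    (fun z x hzx hx => hA' z x hzx hx) (hB.preimage continuous_subtype_val)
    (fun z x hxz hx => hB' z x hxz hx) (by
      rw [← Set.preimage_inter, hAB, Set.preimage_empty])
  have hcl : ∀ S : Set K, IsClosed S → IsClosed (Subtype.val '' S) := fun S hS =>
    (hS.isCompact.image continuous_subtype_val).isClosed
  have hop : ∀ S : Set K, IsOpen S → ∃ O : Set X, IsOpen O ∧ Subtype.val ⁻¹' O = S :=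
    fun S hS => isOpen_induced_iff.1 hS
  obtain ⟨O₁, hO₁, hO₁'⟩ := hop {x | f x < 1 / 3} (isOpen_lt hf continuous_const)
  obtain ⟨O₂, hO₂, hO₂'⟩ := hop {x | 2 / 3 < f x} (isOpen_lt continuous_const hf)
  refine ⟨Subtype.val '' {x : K | f x ≤ 1 / 3}, Subtype.val '' {x : K | 2 / 3 ≤ f x},
    ⟨hcl _ (isClosed_le hf continuous_const), hcl _ (isClosed_le continuous_const hf), ?_, ?_,
      ?_, ?_, ?_, ?_, ?_⟩, ⟨O₁, hO₁, ?_, ?_⟩, ⟨O₂, hO₂, ?_, ?_⟩⟩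
  · rintro _ ⟨x, -, rfl⟩; exact x.2
  · rintro _ ⟨x, -, rfl⟩; exact x.2
  · rintro z hz _ ⟨x, hx, rfl⟩ hzx
    exact ⟨⟨z, hz⟩, le_trans (hf' ⟨z, hz⟩ x hzx) hx, rfl⟩
  · rintro z hz _ ⟨x, hx, rfl⟩ hxz
    exact ⟨⟨z, hz⟩, le_trans hx (hf' x ⟨z, hz⟩ hxz), rfl⟩
  · apply Set.eq_empty_of_forall_notMem
    rintro _ ⟨⟨x, hx, rfl⟩, ⟨y, hy, hxy⟩⟩
    have hxy' : y = x := Subtype.ext hxy
    subst hxy'
    have hx' : f y ≤ 1 / 3 := hx
    have hy' : 2 / 3 ≤ f y := hy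
    linarith
  · rintro x ⟨hx, hxK⟩
    refine ⟨⟨x, hxK⟩, ?_, rfl⟩
    change f ⟨x, hxK⟩ ≤ 1 / 3
    rw [h0 ⟨x, hxK⟩ hx]; norm_num
  · rintro x ⟨hx, hxK⟩
    refine ⟨⟨x, hxK⟩, ?_, rfl⟩
    change 2 / 3 ≤ f ⟨x, hxK⟩
    rw [h1 ⟨x, hxK⟩ hx]; norm_num
  · rintro x ⟨hx, hxK⟩
    have : (⟨x, hxK⟩ : K) ∈ Subtype.val ⁻¹' O₁ := by
      rw [hO₁']
      change f ⟨x, hxK⟩ < 1 / 3
      rw [h0 ⟨x, hxK⟩ hx]; norm_num
    exact this
  · rintro x ⟨hx, hxK⟩
    have : (⟨x, hxK⟩ : K) ∈ Subtype.val ⁻¹' O₁ := hx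
    rw [hO₁'] at this
    have h2 : f ⟨x, hxK⟩ < 1 / 3 := this
    exact ⟨⟨x, hxK⟩, h2.le, rfl⟩
  · rintro x ⟨hx, hxK⟩
    have : (⟨x, hxK⟩ : K) ∈ Subtype.val ⁻¹' O₂ := by
      rw [hO₂']
      change 2 / 3 < f ⟨x, hxK⟩
      rw [h1 ⟨x, hxK⟩ hx]; norm_num
    exact this
  · rintro x ⟨hx, hxK⟩
    have : (⟨x, hxK⟩ : K) ∈ Subtype.val ⁻¹' O₂ := hx
    rw [hO₂'] at this
    have h2 : 2 / 3 < f ⟨x, hxK⟩ := this
    exact ⟨⟨x, hxK⟩, h2.le, rfl⟩

/-- The invariant of the construction. -/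
structure Good (r : X → X → Prop) (K A B : Set X) (pq : Set X × Set X) : Prop where
  closed1 : IsClosed pq.1
  closed2 : IsClosed pq.2
  sub1 : pq.1 ⊆ K
  sub2 : pq.2 ⊆ K
  decr : ∀ z ∈ K, ∀ x ∈ pq.1, r z x → z ∈ pq.1
  incr : ∀ z ∈ K, ∀ x ∈ pq.2, r x z → z ∈ pq.2
  disj : pq.1 ∩ pq.2 = ∅
  subA : A ∩ K ⊆ pq.1
  subB : B ∩ K ⊆ pq.2

/-- The relation between consecutive members. -/
structure Next (K' : Set X) (pq pq' : Set X × Set X) : Prop where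
  left : ∃ O : Set X, IsOpen O ∧ pq.1 ⊆ O ∧ O ∩ K' ⊆ pq'.1
  right : ∃ O : Set X, IsOpen O ∧ pq.2 ⊆ O ∧ O ∩ K' ⊆ pq'.2

lemma next_step [T2Space X] (hr : IsClosedPreorder r) {K K' A B : Set X} (hK : IsCompact K)
    (hK' : IsCompact K') (hKK' : K ⊆ K')
    (hA : IsClosed A) (hA' : IsDecr r A) (hB : IsClosed B) (hB' : IsIncr r B)
    (hAB : A ∩ B = ∅) {pq : Set X × Set X} (hg : Good r K A B pq) :
    ∃ pq' : Set X × Set X, Good r K' A B pq' ∧ Next K' pq pq' := by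
  have hc1 : IsCompact pq.1 := hK.of_isClosed_subset hg.closed1 hg.sub1
  have hc2 : IsCompact pq.2 := hK.of_isClosed_subset hg.closed2 hg.sub2
  have hd : ∀ w, w ∈ A → w ∈ B → False := fun w h3 h4 => by
    have : w ∈ A ∩ B := ⟨h3, h4⟩
    rw [hAB] at this
    exact this
  have hd' : ∀ w, w ∈ pq.1 → w ∈ pq.2 → False := fun w h3 h4 => by
    have : w ∈ pq.1 ∩ pq.2 := ⟨h3, h4⟩
    rw [hg.disj] at this
    exact this
  have hdis : (A ∪ dHull r pq.1) ∩ (B ∪ iHull r pq.2) = ∅ := by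
    apply Set.eq_empty_of_forall_notMem
    rintro z ⟨h1 | ⟨p, hp, hzp⟩, h2 | ⟨q, hq, hqz⟩⟩
    · exact hd z h1 h2
    · exact hd' q (hg.subA ⟨hA' q z hqz h1, hg.sub2 hq⟩) hq
    · exact hd' p hp (hg.subB ⟨hB' p z hzp h2, hg.sub1 hp⟩)
    · exact hd' q (hg.decr q (hg.sub2 hq) p hp (hr.isPreorder.trans _ _ _ hqz hzp)) hq
  obtain ⟨P, Q, ⟨h1, h2, h3, h4, h5, h6, h7, h8, h9⟩, ⟨O, hO, hO1, hO2⟩, ⟨O', hO', hO1', hO2'⟩⟩ :=
    step hr hK' (hA.union (isClosed_dHull hr hc1))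
    (fun z x hzx hx => by
      rcases hx with hx | hx
      · exact Or.inl (hA' z x hzx hx)
      · exact Or.inr (isDecr_dHull hr.isPreorder _ z x hzx hx))
    (hB.union (isClosed_iHull hr hc2))
    (fun z x hxz hx => by
      rcases hx with hx | hx
      · exact Or.inl (hB' z x hxz hx)
      · exact Or.inr (isIncr_iHull hr.isPreorder _ z x hxz hx)) hdis
  refine ⟨(P, Q), ⟨h1, h2, h3, h4, h5, h6, h7, ?_, ?_⟩, ⟨O, hO, ?_, hO2⟩, ⟨O', hO', ?_, hO2'⟩⟩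
  · exact fun x hx => h8 ⟨Or.inl hx.1, hx.2⟩
  · exact fun x hx => h9 ⟨Or.inl hx.1, hx.2⟩
  · exact fun x hx => hO1 ⟨Or.inr (subset_dHull hr.isPreorder _ hx), hKK' (hg.sub1 hx)⟩
  · exact fun x hx => hO1' ⟨Or.inr (subset_iHull hr.isPreorder _ hx), hKK' (hg.sub2 hx)⟩

/-- Closed preorders on locally compact σ-compact Hausdorff spaces are normal. -/
lemma normal_of_sigmaCompact [T2Space X] [WeaklyLocallyCompactSpace X] [SigmaCompactSpace X]
    (hr : IsClosedPreorder r) : IsNormalRel r := by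
  intro A B hA hA' hB hB' hAB
  let K : CompactExhaustion X := default
  have hmono : ∀ n, K n ⊆ K (n + 1) := fun n => K.subset_succ n
  -- the sequence
  have h0 : ∃ pq : Set X × Set X, Good r (K 0) A B pq := by
    obtain ⟨P, Q, ⟨h1, h2, h3, h4, h5, h6, h7, h8, h9⟩, -, -⟩ :=
      step hr (K.isCompact 0) hA hA' hB hB' hAB
    exact ⟨(P, Q), ⟨h1, h2, h3, h4, h5, h6, h7, h8, h9⟩⟩
  have hs : ∀ n, ∀ pq : {pq : Set X × Set X // Good r (K n) A B pq},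
      ∃ pq' : {pq : Set X × Set X // Good r (K (n + 1)) A B pq},
        Next (K (n + 1)) pq.1 pq'.1 := by
    rintro n ⟨pq, hpq⟩
    obtain ⟨pq', h1, h2⟩ := next_step hr (K.isCompact n) (K.isCompact (n + 1)) (hmono n)
      hA hA' hB hB' hAB hpq
    exact ⟨⟨pq', h1⟩, h2⟩
  choose nxt hnxt using hs
  let sq : (n : ℕ) → {pq : Set X × Set X // Good r (K n) A B pq} := fun n =>
    Nat.rec ⟨h0.choose, h0.choose_spec⟩ (fun n pq => nxt n pq) n
  have hsq : ∀ n, Next (K (n + 1)) (sq n).1 (sq (n + 1)).1 := fun n => hnxt n (sq n)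
  have hKm : ∀ {m n : ℕ}, m ≤ n → K m ⊆ K n := fun h => K.subset h
  have hP : ∀ n, (sq n).1.1 ⊆ (sq (n + 1)).1.1 := by
    intro n x hx
    obtain ⟨O, -, h1, h2⟩ := (hsq n).left
    exact h2 ⟨h1 hx, hmono n ((sq n).2.sub1 hx)⟩
  have hQ : ∀ n, (sq n).1.2 ⊆ (sq (n + 1)).1.2 := by
    intro n x hx
    obtain ⟨O, -, h1, h2⟩ := (hsq n).right
    exact h2 ⟨h1 hx, hmono n ((sq n).2.sub2 hx)⟩
  have hPm : Monotone (fun n => (sq n).1.1) := monotone_nat_of_le_succ hP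
  have hQm : Monotone (fun n => (sq n).1.2) := monotone_nat_of_le_succ hQ
  refine ⟨⋃ n, (sq n).1.1, ⋃ n, (sq n).1.2, ?_, ?_, ?_, ?_, ?_, ?_, ?_⟩
  · rw [isOpen_iff_mem_nhds]
    intro x hx
    obtain ⟨n, hn⟩ := mem_iUnion.1 hx
    obtain ⟨O, hO, h1, h2⟩ := (hsq n).left
    have h3 : x ∈ interior (K (n + 1)) := K.subset_interior_succ n ((sq n).2.sub1 hn)
    refine Filter.mem_of_superset ((hO.inter isOpen_interior).mem_nhds ⟨h1 hn, h3⟩) ?_
    rintro y ⟨hy1, hy2⟩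
    exact mem_iUnion.2 ⟨n + 1, h2 ⟨hy1, interior_subset hy2⟩⟩
  · intro z x hzx hx
    obtain ⟨n, hn⟩ := mem_iUnion.1 hx
    obtain ⟨m, hm⟩ := K.exists_mem z
    refine mem_iUnion.2 ⟨max m n, ?_⟩
    exact (sq (max m n)).2.decr z (hKm (le_max_left _ _) hm) x (hPm (le_max_right _ _) hn) hzx
  · rw [isOpen_iff_mem_nhds]
    intro x hx
    obtain ⟨n, hn⟩ := mem_iUnion.1 hx
    obtain ⟨O, hO, h1, h2⟩ := (hsq n).right
    have h3 : x ∈ interior (K (n + 1)) := K.subset_interior_succ n ((sq n).2.sub2 hn)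
    refine Filter.mem_of_superset ((hO.inter isOpen_interior).mem_nhds ⟨h1 hn, h3⟩) ?_
    rintro y ⟨hy1, hy2⟩
    exact mem_iUnion.2 ⟨n + 1, h2 ⟨hy1, interior_subset hy2⟩⟩
  · intro z x hxz hx
    obtain ⟨n, hn⟩ := mem_iUnion.1 hx
    obtain ⟨m, hm⟩ := K.exists_mem z
    refine mem_iUnion.2 ⟨max m n, ?_⟩
    exact (sq (max m n)).2.incr z (hKm (le_max_left _ _) hm) x (hQm (le_max_right _ _) hn) hxz
  · intro x hx
    obtain ⟨m, hm⟩ := K.exists_mem x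
    exact mem_iUnion.2 ⟨m, (sq m).2.subA ⟨hx, hm⟩⟩
  · intro x hx
    obtain ⟨m, hm⟩ := K.exists_mem x
    exact mem_iUnion.2 ⟨m, (sq m).2.subB ⟨hx, hm⟩⟩
  · apply Set.eq_empty_of_forall_notMem
    rintro x ⟨h1, h2⟩
    obtain ⟨n, hn⟩ := mem_iUnion.1 h1
    obtain ⟨m, hm⟩ := mem_iUnion.1 h2
    have : x ∈ (sq (max m n)).1.1 ∩ (sq (max m n)).1.2 :=
      ⟨hPm (le_max_right _ _) hn, hQm (le_max_left _ _) hm⟩
    rw [(sq (max m n)).2.disj] at this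
    exact this

end Pool.Agent.H73.Preord
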