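import Pool.Agent.H73.PreorderSuff

/-!
# Sufficient conditions for the property, II: conditions on the set of non-isolated points
-/

namespace Pool.Agent.H73.Preord

open Set Filter Topology

variable {X : Type*} [TopologicalSpace X] {r : X → X → Prop}

lemma isOpen_of_isolated {S : Set X} (hS : S ∩ nonIsolated X = ∅) : IsOpen S := by
  rw [← Set.biUnion_of_singleton S]
  refine isOpen_biUnion fun x hx => ?_
  by_contra h
  have : x ∈ S ∩ nonIsolated X := ⟨hx, h⟩
  rw [hS] at this
  exact this

lemma isClosed_nonIsolated : IsClosed (nonIsolated X) := by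
  rw [← isOpen_compl_iff]
  exact isOpen_of_isolated (Set.compl_inter_self _)

/-- A Hausdorff space with compact set of non-isolated points is normal. -/
lemma normalSpace_of_compact [T2Space X] (hX : IsCompact (nonIsolated X)) : NormalSpace X := by
  refine ⟨fun A B hA hB hAB => ?_⟩
  have h1 : IsCompact (A ∩ nonIsolated X) := hX.inter_left hA
  have h2 : IsCompact (B ∩ nonIsolated X) := hX.inter_left hB
  obtain ⟨U, V, hU, hV, hAU, hBV, hUV⟩ := SeparatedNhds.of_isCompact_isCompact h1 h2
    (hAB.mono inter_subset_left inter_subset_left)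
  refine ⟨(U \ B) ∪ (A \ nonIsolated X), (V \ A) ∪ (B \ nonIsolated X),
    (hU.sdiff hB).union (isOpen_of_isolated (by simp)),
    (hV.sdiff hA).union (isOpen_of_isolated (by simp)), ?_, ?_, ?_⟩
  · intro x hx
    by_cases hx' : x ∈ nonIsolated X
    · exact Or.inl ⟨hAU ⟨hx, hx'⟩, fun h => Set.disjoint_left.1 hAB hx h⟩
    · exact Or.inr ⟨hx, hx'⟩
  · intro x hx
    by_cases hx' : x ∈ nonIsolated X
    · exact Or.inl ⟨hBV ⟨hx, hx'⟩, fun h => Set.disjoint_left.1 hAB h hx⟩
    · exact Or.inr ⟨hx, hx'⟩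
  · rw [Set.disjoint_left]
    rintro x (⟨h3, h4⟩ | ⟨h3, h4⟩) (⟨h5, h6⟩ | ⟨h5, h6⟩)
    · exact Set.disjoint_left.1 hUV h3 h5
    · exact h4 h5
    · exact h6 h3
    · exact Set.disjoint_left.1 hAB h3 h5

/-- The set of non-isolated points is compact: the property holds. -/
theorem property_of_compact [T2Space X] (hX : IsCompact (nonIsolated X)) :
    ClosedPreordersWeaklyContinuous X := by
  intro r hr x y hxy hyx
  have : NormalSpace X := normalSpace_of_compact hX
  set K : Set X := nonIsolated X ∪ {x, y} with hKdef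
  have hK : IsCompact K := hX.union (Set.toFinite {x, y}).isCompact
  have hKc : IsClosed K := hK.isClosed
  have hxK : x ∈ K := Or.inr (Or.inl rfl)
  have hyK : y ∈ K := Or.inr (Or.inr rfl)
  have : CompactSpace K := isCompact_iff_compactSpace.1 hK
  have hrK := isClosedPreorder_restrict hr K
  obtain ⟨f, hf, hf', h0, h1, h01⟩ := exists_sep hrK (normal_of_compact hrK)
    (x := ⟨y, hyK⟩) (y := ⟨x, hxK⟩) hyx
  -- extend `f`
  obtain ⟨F, hF01, hFf⟩ := ContinuousMap.exists_restrict_eq_forall_mem_of_closed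
    (⟨f, hf⟩ : C(K, ℝ)) (t := Icc (0 : ℝ) 1) (fun z => h01 z) ⟨0, by simp⟩ hKc
  have hFK : ∀ z (hz : z ∈ K), F z = f ⟨z, hz⟩ := fun z hz => by
    have := congrArg (fun g : C(K, ℝ) => g ⟨z, hz⟩) hFf
    simpa using this
  have hFinc : ∀ s ∈ K, ∀ t ∈ K, r s t → F s ≤ F t := fun s hs t ht hst => by
    rw [hFK s hs, hFK t ht]
    exact hf' ⟨s, hs⟩ ⟨t, ht⟩ hst
  -- the neighbourhoods
  have hW : ∀ n : ℕ, ∃ W : Set X, IsOpen W ∧ K ⊆ W ∧ ∀ s ∈ W, ∀ t ∈ W, r s t →
      F s < F t + (1 / 2) ^ n := by
    intro n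
    have hcl : IsClosed {p : X × X | r p.1 p.2 ∧ F p.2 + (1 / 2) ^ n ≤ F p.1} :=
      hr.isClosed.inter (isClosed_le ((F.continuous.comp continuous_snd).add continuous_const)
        (F.continuous.comp continuous_fst))
    obtain ⟨u, v, hu, hv, hKu, hKv, huv⟩ := generalized_tube_lemma hK hK hcl.isOpen_compl (by
      rintro ⟨s, t⟩ ⟨hs, ht⟩ ⟨h1, h2⟩
      have h3 := hFinc s hs t ht h1
      have h4 : (0 : ℝ) < (1 / 2) ^ n := by positivity
      simp only at h2
      linarith)
    refine ⟨u ∩ v, hu.inter hv, subset_inter hKu hKv, fun s hs t ht hst => ?_⟩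
    by_contra hcon
    exact huv (⟨hs.1, ht.2⟩ : (s, t) ∈ u ×ˢ v) ⟨hst, not_lt.1 hcon⟩
  choose W' hW'o hKW' hW' using hW
  -- make it decreasing, starting from the whole space
  set W : ℕ → Set X := fun n => ⋂ k ∈ Finset.range n, W' (k + 1) with hWdef
  have hWo : ∀ n, IsOpen (W n) := fun n => isOpen_biInter_finset fun k _ => hW'o _
  have hKW : ∀ n, K ⊆ W n := fun n => subset_iInter₂ fun k _ => hKW' _
  have hWanti : ∀ {m n}, m ≤ n → W n ⊆ W m := fun {m n} hmn z hz => by
    simp only [hWdef, mem_iInter, Finset.mem_range] at hz ⊢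
    exact fun k hk => hz k (lt_of_lt_of_le hk hmn)
  have hWr : ∀ n, ∀ s ∈ W n, ∀ t ∈ W n, r s t → F s ≤ F t + (1 / 2) ^ n := by
    intro n s hs t ht hst
    cases n with
    | zero =>
      have := (hF01 s).2
      have := (hF01 t).1
      simp only [pow_zero]
      linarith
    | succ n =>
      simp only [hWdef, mem_iInter, Finset.mem_range] at hs ht
      exact (hW' (n + 1) s (hs n (by omega)) t (ht n (by omega)) hst).le
  have hW0 : ∀ z, z ∈ W 0 := fun z => by simp [hWdef]
  -- the penalty
  classical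
  set c : X → ℝ := fun z => ⨅ n : ℕ, if z ∈ W n then (1 / 2 : ℝ) ^ n else 1 with hcdef
  have hbdd : ∀ z, BddBelow (range fun n : ℕ => if z ∈ W n then (1 / 2 : ℝ) ^ n else 1) := by
    intro z
    refine ⟨0, ?_⟩
    rintro _ ⟨n, rfl⟩
    simp only
    split_ifs <;> positivity
  have hc0 : ∀ z, 0 ≤ c z := fun z => le_ciInf fun n => by
    split_ifs <;> positivity
  have hcle : ∀ z n, z ∈ W n → c z ≤ (1 / 2) ^ n := fun z n hz => by
    have := ciInf_le (hbdd z) n
    simp only [if_pos hz] at this
    exact this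
  -- the key estimate
  have hkey : ∀ m, ∀ s ∈ W m, ∀ t, r t s → F t - c t ≤ F s + (1 / 2) ^ m := by
    intro m s hs t hts
    by_cases ht : t ∈ W m
    · have := hWr m t ht s hs hts
      have := hc0 t
      linarith
    · -- the largest `n` with `t ∈ W n`
      obtain ⟨n, hn1, hn2⟩ : ∃ n, t ∈ W n ∧ t ∉ W (n + 1) := by
        by_contra hcon
        push Not at hcon
        exact ht (Nat.rec (hW0 t) (fun k hk => hcon k hk) m)
      have hnm : n < m := by
        by_contra hcon
        exact ht (hWanti (not_lt.1 hcon) hn1)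
      have hcn : (1 / 2 : ℝ) ^ n ≤ c t := by
        refine le_ciInf fun k => ?_
        split_ifs with hk
        · have hkn : k ≤ n := by
            by_contra hcon
            exact hn2 (hWanti (by omega) hk)
          exact pow_le_pow_of_le_one (by norm_num) (by norm_num) hkn
        · exact pow_le_one₀ (by norm_num) (by norm_num)
      have h5 := hWr n t hn1 s (hWanti hnm.le hs) hts
      have h6 : (0 : ℝ) < (1 / 2) ^ m := by positivity
      linarith
  -- the function
  set h : X → ℝ := fun t => F t - c t with hhdef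
  have hbd : ∀ s, BddAbove (h '' {t | r t s}) := by
    intro s
    refine ⟨1, ?_⟩
    rintro _ ⟨t, -, rfl⟩
    have := (hF01 t).2
    have := hc0 t
    simp only [hhdef]
    linarith
  set g : X → ℝ := fun s => sSup (h '' {t | r t s}) with hgdef
  have hgh : ∀ s, h s ≤ g s := fun s => le_csSup (hbd s) ⟨s, hr.isPreorder.refl s, rfl⟩
  have hup : ∀ m, ∀ s ∈ W m, g s ≤ F s + (1 / 2) ^ m := by
    intro m s hs
    refine csSup_le ⟨_, s, hr.isPreorder.refl s, rfl⟩ ?_
    rintro _ ⟨t, ht, rfl⟩
    exact hkey m s hs t ht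
  have hlow : ∀ m, ∀ s ∈ W m, F s - (1 / 2) ^ m ≤ g s := by
    intro m s hs
    have h1 := hgh s
    have h2 := hcle s m hs
    simp only [hhdef] at h1
    linarith
  have hpow : ∀ ε > (0 : ℝ), ∃ m : ℕ, (1 / 2 : ℝ) ^ m < ε := fun ε hε =>
    exists_pow_lt_of_lt_one hε (by norm_num)
  have hgK : ∀ s ∈ K, g s = F s := by
    intro s hs
    apply le_antisymm
    · refine le_of_forall_pos_le_add fun ε hε => ?_
      obtain ⟨m, hm⟩ := hpow ε hε
      have := hup m s (hKW m hs)
      linarith
    · refine le_of_forall_pos_le_add fun ε hε => ?_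
      obtain ⟨m, hm⟩ := hpow ε hε
      have := hlow m s (hKW m hs)
      linarith
  refine ⟨g, ?_, ?_, ?_⟩
  · rw [continuous_iff_continuousAt]
    intro s
    by_cases hs : s ∈ K
    · rw [Metric.continuousAt_iff']
      intro ε hε
      obtain ⟨m, hm⟩ := hpow (ε / 2) (by linarith)
      have hFc := Metric.continuousAt_iff'.1 (F.continuous.continuousAt (x := s)) (ε / 2)
        (by linarith)
      filter_upwards [hFc, (hWo m).mem_nhds (hKW m hs)] with z hz hzW
      rw [hgK s hs]
      have h1 := hup m z hzW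
      have h2 := hlow m z hzW
      rw [Real.dist_eq, abs_lt] at hz ⊢
      constructor <;> linarith [hz.1, hz.2]
    · have hso : IsOpen ({s} : Set X) := by
        by_contra hcon
        exact hs (Or.inl hcon)
      have : 𝓝 s = pure s := (isOpen_singleton_iff_nhds_eq_pure s).1 hso
      rw [ContinuousAt, this]
      exact tendsto_pure_nhds _ _
  · intro s s' hss'
    exact csSup_le_csSup (hbd s') ⟨_, s, hr.isPreorder.refl s, rfl⟩
      (Set.image_mono fun t ht => hr.isPreorder.trans _ _ _ ht hss')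
  · rw [hgK x hxK, hgK y hyK, hFK x hxK, hFK y hyK, h0, h1]
    norm_num

/-- The space is locally compact Hausdorff and the set of non-isolated points is Lindelöf: the
property holds. -/
theorem property_of_lindelof [T2Space X] [LocallyCompactSpace X]
    (hX : IsLindelof (nonIsolated X)) : ClosedPreordersWeaklyContinuous X := by
  intro r hr x y hxy hyx
  -- cover the non-isolated points by countably many open sets with compact closure
  have hcov : ∀ p : X, ∃ O : Set X, IsOpen O ∧ p ∈ O ∧ IsCompact (closure O) := fun p => by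
    obtain ⟨C, hC, hC'⟩ := exists_compact_mem_nhds p
    refine ⟨interior C, isOpen_interior, mem_interior_iff_mem_nhds.2 hC', ?_⟩
    exact hC.of_isClosed_subset isClosed_closure (closure_minimal interior_subset hC.isClosed)
  choose O hO hpO hOc using hcov
  obtain ⟨T, hT, hT'⟩ := hX.elim_countable_subcover O hO
    (fun p _ => mem_iUnion.2 ⟨p, hpO p⟩)
  set Y : Set X := (⋃ p ∈ T, O p) ∪ {x, y} with hY
  have hnY : nonIsolated X ⊆ Y := fun p hp => Or.inl (hT' hp)
  have hYc : IsClosed Y := by
    rw [← isOpen_compl_iff]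
    apply isOpen_of_isolated
    rw [← Set.disjoint_iff_inter_eq_empty, Set.disjoint_compl_left_iff_subset]
    exact hnY
  have hYo : IsOpen Y := by
    have h1 : Y = (⋃ p ∈ T, O p) ∪ (Y \ nonIsolated X) := by
      ext z
      constructor
      · intro hz
        by_cases hz' : z ∈ nonIsolated X
        · exact Or.inl (hT' hz')
        · exact Or.inr ⟨hz, hz'⟩
      · rintro (hz | hz)
        · exact Or.inl hz
        · exact hz.1
    rw [h1]
    exact (isOpen_biUnion fun p _ => hO p).union (isOpen_of_isolated (by simp))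
  have hxY : x ∈ Y := Or.inr (Or.inl rfl)
  have hyY : y ∈ Y := Or.inr (Or.inr rfl)
  have hYs : IsSigmaCompact Y := by
    have h1 : IsSigmaCompact ((⋃ p ∈ T, closure (O p)) ∪ {x, y}) := by
      have h2 : IsSigmaCompact (⋃ p ∈ T, closure (O p)) := by
        have : Countable T := hT
        rw [Set.biUnion_eq_iUnion]
        exact isSigmaCompact_iUnion_of_isCompact _ (fun p => hOc p)
      rw [Set.union_eq_iUnion]
      refine isSigmaCompact_iUnion _ ?_
      rintro (_ | _)
      · exact (Set.toFinite {x, y}).isCompact.isSigmaCompact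
      · exact h2
    refine h1.of_isClosed_subset hYc ?_
    rintro z (hz | hz)
    · obtain ⟨p, hp, hz⟩ := mem_iUnion₂.1 hz
      exact Or.inl (mem_iUnion₂.2 ⟨p, hp, subset_closure hz⟩)
    · exact Or.inr hz
  have : SigmaCompactSpace Y := isSigmaCompact_iff_sigmaCompactSpace.1 hYs
  have : LocallyCompactSpace Y := hYc.isClosedEmbedding_subtypeVal.locallyCompactSpace
  have hrY := isClosedPreorder_restrict hr Y
  obtain ⟨f, hf, hf', h0, h1, h01⟩ := exists_sep hrY (normal_of_sigmaCompact hrY)
    (x := ⟨y, hyY⟩) (y := ⟨x, hxY⟩) hyx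
  -- extension by suprema
  set S : X → Set ℝ := fun s => insert 0 {a | ∃ t : Y, r t s ∧ f t = a} with hS
  have hbd : ∀ s, BddAbove (S s) := by
    intro s
    refine ⟨1, ?_⟩
    rintro a (rfl | ⟨t, -, rfl⟩)
    · norm_num
    · exact (h01 t).2
  have hgY : ∀ s : Y, sSup (S s) = f s := by
    intro s
    apply le_antisymm
    · refine csSup_le ⟨0, Or.inl rfl⟩ ?_
      rintro a (rfl | ⟨t, ht, rfl⟩)
      · exact (h01 s).1
      · exact hf' t s ht
    · exact le_csSup (hbd s) (Or.inr ⟨s, hr.isPreorder.refl _, rfl⟩)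
  refine ⟨fun s => sSup (S s), ?_, ?_, ?_⟩
  · rw [continuous_iff_continuousAt]
    intro s
    by_cases hs : s ∈ Y
    · have h2 : ContinuousOn (fun s => sSup (S s)) Y := by
        rw [continuousOn_iff_continuous_domRestrict]
        have : Y.domRestrict (fun s => sSup (S s)) = f := funext fun s => hgY s
        rw [this]
        exact hf
      exact h2.continuousAt (hYo.mem_nhds hs)
    · have hso : IsOpen ({s} : Set X) := by
        by_contra hcon
        exact hs (hnY hcon)
      have : 𝓝 s = pure s := (isOpen_singleton_iff_nhds_eq_pure s).1 hso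
      rw [ContinuousAt, this]
      exact tendsto_pure_nhds _ _
  · intro s s' hss'
    refine csSup_le_csSup (hbd s') ⟨0, Or.inl rfl⟩ ?_
    rintro a (rfl | ⟨t, ht, rfl⟩)
    · exact Or.inl rfl
    · exact Or.inr ⟨t, hr.isPreorder.trans _ _ _ ht hss', rfl⟩
  · have e1 := hgY ⟨x, hxY⟩
    have e2 := hgY ⟨y, hyY⟩
    simp only at e1 e2
    simp only
    rw [e1, e2, h0, h1]
    norm_num

end Pool.Agent.H73.Preord
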