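import Mathlib

/-!
# Supp-semigroups, supp-perfect semigroups and the semi-Zariski topology

The definitions of problem MP_496bc7_gt.
-/

namespace Pool.Agent.H73.Supp

/-- The centraliser `Cent(T) = {g ∈ S : g t = t g for all t ∈ T}` of a subset of a semigroup. -/
def Cent {S : Type*} [Semigroup S] (T : Set S) : Set S := {g | ∀ t ∈ T, g * t = t * g}

/-- `S(F) = {f ∈ S : supp f ⊆ F}`. -/
def supportedIn {S X : Type*} (supp : S → Set X) (F : Set X) : Set S := {f | supp f ⊆ F}

/-- `(S, supp)` is a supp-semigroup over the set `X` (and `X` is the union of all supports). -/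
structure IsSuppSemigroup {S X : Type*} [Semigroup S] (supp : S → Set X) : Prop where
  mul_subset : ∀ f g : S, supp (f * g) ⊆ supp f ∪ supp g
  comm : ∀ f g : S, supp f ∩ supp g = ∅ → f * g = g * f
  union_eq : ⋃ f : S, supp f = Set.univ

/-- `(S, supp)` is a supp-perfect semigroup. -/
structure IsSuppPerfect {S X : Type*} [Semigroup S] (supp : S → Set X) : Prop where
  isSuppSemigroup : IsSuppSemigroup supp
  finite_supp : ∀ f : S, (supp f).Finite
  finite_supportedIn : ∀ F : Set X, F.Finite → (supportedIn supp F).Finite
  supportedIn_eq : ∀ F : Set X, F.Finite → supportedIn supp F = Cent (supportedIn supp Fᶜ)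

/-- `U_x = {f ∈ S : x ∈ supp f}`. -/
def U {S X : Type*} (supp : S → Set X) (x : X) : Set S := {f | x ∈ supp f}

/-- The semi-Zariski topology on a semigroup `S`: the topology generated by the sets
`{s : a s b ≠ c}` and `{s : a s b ≠ c s d}`, where `a, b, c, d` run over the semigroup
`S¹ = WithOne S`, obtained from `S` by adjoining an external identity. -/
@[reducible] def semiZariski (S : Type*) [Semigroup S] : TopologicalSpace S :=
  TopologicalSpace.generateFrom
    ({V | ∃ a b c : WithOne S, V = {s : S | a * (s : WithOne S) * b ≠ c}} ∪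
      {V | ∃ a b c d : WithOne S, V = {s : S | a * (s : WithOne S) * b ≠ c * (s : WithOne S) * d}})

/-- `τ` is a Hausdorff semigroup topology on `S`: it is Hausdorff and the multiplication
`S × S → S` is jointly continuous. -/
def IsHausdorffSemigroupTopology {S : Type*} [Semigroup S] (τ : TopologicalSpace S) : Prop :=
  T2Space S ∧ Continuous (fun p : S × S => p.1 * p.2)

end Pool.Agent.H73.Supp
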