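import Pool.Agent.H24.Ts
import Pool.Agent.H31.LB.ESet
import Pool.Agent.H40.VC.FinalS
import Pool.Agent.H40.VC.Numbers
import Pool.Agent.H73.BrTwo

open Finset

namespace Pool.Agent.H73.VcAsm

open Pool.Agent.H24.Sh

open Classical in
/-- The core: no lattice with `N` large in which all `u_m ≥ N / 2`. -/
theorem core (b : ℕ) : ∃ C : ℕ, ∀ (L : Type*) [Lattice L] [BoundedOrder L] [Fintype L]
    (Mx : Finset L), (∀ A ⊆ Mx, ∃ B ⊆ A, B.card ≤ b ∧ B.sup id = A.sup id) →
    (∀ x y : L, (∀ m ∈ Mx, x ⊓ m = y ⊓ m) → x = y) → C < Fintype.card L →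
    ∃ a ∈ Mx, 2 * (univ.filter fun y => a ≤ y).card < Fintype.card L := by
  obtain ⟨Λ₀, hnum⟩ := Pool.Agent.H40.VC.Numbers.numbers b
  refine ⟨max 2 ⌈Real.exp Λ₀⌉₊, ?_⟩
  intro L _ _ _ Mx hb hinj hC
  by_contra hcon
  push Not at hcon
  have hC2 : 2 ≤ Fintype.card L := (le_max_left _ _).trans hC.le
  have hC3 : Real.exp Λ₀ ≤ Fintype.card L := by
    refine (Nat.le_ceil _).trans ?_
    exact_mod_cast (le_max_right _ _).trans hC.le
  have : Nonempty L := ⟨⊥⟩
  set N : ℝ := (Fintype.card L : ℝ) with hN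
  have hN2 : (2 : ℝ) ≤ N := by rw [hN]; exact_mod_cast hC2
  set Λ : ℝ := Real.log N with hΛ
  have hΛ0 : Λ₀ ≤ Λ := by
    rw [hΛ, ← Real.log_exp Λ₀]
    exact Real.log_le_log (Real.exp_pos _) hC3
  set e : ℝ := 1 / Λ with he
  set t : ℕ := ⌈2 * Λ ^ 2⌉₊ + 1 with ht
  set K : ℕ := ((t + 1) ^ b + 1) ^ b with hK
  set e1 : ℝ := 1 / (96 * ((b : ℝ) ^ 2 + 1)) with he1
  set t1 : ℕ := ⌈2 * Real.log K / e1⌉₊ + 1 with ht1
  set K1 : ℕ := ((t1 + 1) ^ b + 1) ^ b with hK1
  set η : ℝ := e + Real.log K / (2 * Λ) with hη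
  obtain ⟨hΛpos, hηpos, h32, hfin⟩ := hnum Λ hΛ0 e e1 η t t1 K K1 rfl rfl rfl rfl rfl rfl rfl
  have he0 : 0 < e := by rw [he]; positivity
  have he10 : 0 < e1 := by rw [he1]; positivity
  have htt : 2 * Real.log (Fintype.card L) < e * t := by
    have h1 : 2 * Λ ^ 2 < (t : ℝ) := by
      have h2 := Nat.le_ceil (2 * Λ ^ 2)
      have h3 : (t : ℝ) = (⌈2 * Λ ^ 2⌉₊ : ℝ) + 1 := by rw [ht]; push_cast; ring
      rw [h3]
      linarith
    show 2 * Λ < e * t
    rw [he, one_div, inv_mul_eq_div, lt_div_iff₀ hΛpos]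
    nlinarith
  have htt1 : 2 * Real.log ((((t : ℝ) + 1) ^ b + 1) ^ b) < e1 * t1 := by
    have h0 : ((((t : ℝ) + 1) ^ b + 1) ^ b) = ((K : ℕ) : ℝ) := by rw [hK]; push_cast; ring
    rw [h0]
    have h2 := Nat.le_ceil (2 * Real.log K / e1)
    have h3 : (t1 : ℝ) = (⌈2 * Real.log K / e1⌉₊ : ℝ) + 1 := by rw [ht1]; push_cast; ring
    rw [div_le_iff₀ he10] at h2
    rw [h3]
    nlinarith
  obtain ⟨g, g1, g_le, g1_le, gcard, g1card, gK, g1K, gref⟩ :=
    BrTwo.two_level b Mx hb e e1 t t1 htt htt1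
  -- indices
  obtain ⟨r, hr⟩ : ∃ r, r = Mx.card := ⟨_, rfl⟩
  let eqv : Fin r ≃ Mx := (Mx.equivFinOfCardEq hr.symm).symm
  set j : Fin r → L := fun i => (eqv i : L) with hj
  have hjM : ∀ i, j i ∈ Mx := fun i => (eqv i).2
  have hjs : ∀ m ∈ Mx, ∃ i, j i = m := fun m hm => ⟨eqv.symm ⟨m, hm⟩, by simp [hj]⟩
  have hinj' : ∀ x y : L, (∀ i, x ⊓ j i = y ⊓ j i) → x = y := by
    intro x y hxy
    apply hinj
    intro m hm
    obtain ⟨i, rfl⟩ := hjs m hm
    exact hxy i
  have hhalf : ∀ m ∈ Mx, N / 2 ≤ ((univ.filter fun y => m ≤ y).card : ℝ) := by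
    intro m hm
    have h1 := hcon m hm
    have h2 : (N : ℝ) ≤ 2 * ((univ.filter fun y => m ≤ y).card : ℝ) := by
      rw [hN]; exact_mod_cast h1
    linarith
  have hu : ∀ m ∈ Mx, (1 / 2 - e) * N ≤ ((univ.filter fun y => g m ≤ y).card : ℝ) := by
    intro m hm
    have h1 := hhalf m hm
    have h2 := gcard m hm
    linarith
  have hu1 : ∀ m ∈ Mx, (1 / 2 - e - e1) * N ≤ ((univ.filter fun y => g1 m ≤ y).card : ℝ) := by
    intro m hm
    have h1 := hu m hm
    have h2 := g1card m hm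
    linarith
  set cls : L → Finset L := fun x => Mx.filter fun m => g m ≤ x with hcls
  set cls1 : L → Finset L := fun x => Mx.filter fun m => g1 m ≤ x with hcls1
  have mem_cls : ∀ x i, j i ∈ cls x ↔ g (j i) ≤ x := fun x i => by
    simp only [hcls, mem_filter]; exact ⟨fun h => h.2, fun h => ⟨hjM i, h⟩⟩
  have mem_cls1 : ∀ x i, j i ∈ cls1 x ↔ g1 (j i) ≤ x := fun x i => by
    simp only [hcls1, mem_filter]; exact ⟨fun h => h.2, fun h => ⟨hjM i, h⟩⟩
  have cls_inf : ∀ x y, cls (x ⊓ y) = cls x ∩ cls y := fun x y => by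
    ext m; simp only [hcls, mem_filter, mem_inter, le_inf_iff]; tauto
  have cls1_inf : ∀ x y, cls1 (x ⊓ y) = cls1 x ∩ cls1 y := fun x y => by
    ext m; simp only [hcls1, mem_filter, mem_inter, le_inf_iff]; tauto
  have cls_eq : ∀ x y, (∀ i, (g (j i) ≤ x ↔ g (j i) ≤ y)) → cls x = cls y := by
    intro x y h
    simp only [hcls]
    apply filter_congr
    intro m hm
    obtain ⟨i, rfl⟩ := hjs m hm
    exact h i
  have cls_iff : ∀ x y, cls x = cls y → ∀ i, (g (j i) ≤ x ↔ g (j i) ≤ y) := by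
    intro x y h i
    rw [← mem_cls, ← mem_cls, h]
  have cls1_iff : ∀ x y, cls1 x = cls1 y → ∀ i, (g1 (j i) ≤ x ↔ g1 (j i) ≤ y) := by
    intro x y h i
    rw [← mem_cls1, ← mem_cls1, h]
  have cls_cls1 : ∀ x y, cls x = cls y → cls1 x = cls1 y := by
    intro x y h
    simp only [hcls1]
    apply filter_congr
    intro m hm
    refine gref x y ?_ m hm
    intro m' hm'
    obtain ⟨i, rfl⟩ := hjs m' hm'
    exact cls_iff x y h i
  -- the numbers
  have hK1' : (1 : ℝ) ≤ K := by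
    have : 1 ≤ K := by rw [hK]; exact Nat.one_le_pow _ _ (Nat.succ_pos _)
    exact_mod_cast this
  have hlogK : 0 ≤ Real.log K := Real.log_nonneg hK1'
  have heη : e ≤ η := by
    rw [hη]
    have : 0 ≤ Real.log K / (2 * Λ) := by positivity
    linarith
  have he12 : e1 ≤ 1 / 96 := by
    rw [he1]
    apply one_div_le_one_div_of_le (by norm_num)
    have := sq_nonneg (b : ℝ)
    linarith
  -- the set E
  obtain ⟨E, hE1, hE2⟩ := Pool.Agent.H31.LB.eset j (fun i => g (j i)) (fun i => g_le _ (hjM i))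
    hinj' cls cls_iff (K : ℝ) (by
      have h5 : ((@Finset.image L (Finset L) (fun a b => Classical.propDecidable (a = b)) cls
          univ).card) ≤ K := by convert gK
      exact_mod_cast h5) e he0.le hC2
    (fun i => hu _ (hjM i)) h32
  -- two steps
  have hA := two_step (fun x y : L => x ⊓ y) (id : L → L) cls (fun (i : Fin r) z => z ⊓ j i)
    (fun s => univ.filter fun i => j i ∈ s) (1 / 2 - e) (by linarith)
    (fun z z' h => by rw [show z = z' from h])
    (fun z z' _ h => hinj' z z' h)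
    (fun x x' y y' h h' => by rw [cls_inf, cls_inf, h, h'])
    (fun x x' y y' h h' h'' i hi => by
      have hi' := (mem_filter.1 hi).2
      have hy : g (j i) ≤ y := (mem_cls y i).1 hi'
      have hy' : g (j i) ≤ y' := (mem_cls y' i).1 (h' ▸ hi')
      have h1 : j i ≤ y := (g_le _ (hjM i)).trans hy
      have h2 : j i ≤ y' := (g_le _ (hjM i)).trans hy'
      have h3 : x ⊓ y = x' ⊓ y' := h''
      calc x ⊓ j i = (x ⊓ y) ⊓ j i := by rw [inf_assoc, inf_eq_right.2 h1]
        _ = (x' ⊓ y') ⊓ j i := by rw [h3]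
        _ = x' ⊓ j i := by rw [inf_assoc, inf_eq_right.2 h2])
    (fun x x' y y' h h' h'' i hi => by
      have hi' := (mem_filter.1 hi).2
      have hy : g (j i) ≤ x := (mem_cls x i).1 hi'
      have hy' : g (j i) ≤ x' := (mem_cls x' i).1 (h ▸ hi')
      have h1 : j i ≤ x := (g_le _ (hjM i)).trans hy
      have h2 : j i ≤ x' := (g_le _ (hjM i)).trans hy'
      have h3 : x ⊓ y = x' ⊓ y' := h''
      calc y ⊓ j i = (x ⊓ y) ⊓ j i := by rw [inf_comm x y, inf_assoc, inf_eq_right.2 h1]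
        _ = (x' ⊓ y') ⊓ j i := by rw [h3]
        _ = y' ⊓ j i := by rw [inf_comm x' y', inf_assoc, inf_eq_right.2 h2])
    (fun i => by
      refine (hu _ (hjM i)).trans (le_of_eq ?_)
      congr 2
      ext y
      simp only [mem_filter, mem_univ, true_and]
      exact (mem_cls y i).symm)
  have hB := two_step (fun x y : L => x ⊓ y) cls cls1 (fun (i : Fin r) z => g (j i) ≤ z)
    (fun s => univ.filter fun i => j i ∈ s) (1 / 2 - e - e1) (by linarith)
    cls_cls1
    (fun z z' _ h => cls_eq z z' fun i => by rw [h i])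
    (fun x x' y y' h h' => by rw [cls1_inf, cls1_inf, h, h'])
    (fun x x' y y' h h' h'' i hi => by
      have hi' := (mem_filter.1 hi).2
      have hy : g (j i) ≤ y := (g1_le _ (hjM i)).trans ((mem_cls1 y i).1 hi')
      have hy' : g (j i) ≤ y' := (g1_le _ (hjM i)).trans ((mem_cls1 y' i).1 (h' ▸ hi'))
      have h3 := cls_iff _ _ h'' i
      simp only [le_inf_iff] at h3
      exact propext ⟨fun hx => (h3.1 ⟨hx, hy⟩).1, fun hx => (h3.2 ⟨hx, hy'⟩).1⟩)
    (fun x x' y y' h h' h'' i hi => by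
      have hi' := (mem_filter.1 hi).2
      have hy : g (j i) ≤ x := (g1_le _ (hjM i)).trans ((mem_cls1 x i).1 hi')
      have hy' : g (j i) ≤ x' := (g1_le _ (hjM i)).trans ((mem_cls1 x' i).1 (h ▸ hi'))
      have h3 := cls_iff _ _ h'' i
      simp only [le_inf_iff] at h3
      exact propext ⟨fun hx => (h3.1 ⟨hy, hx⟩).2, fun hx => (h3.2 ⟨hy', hx⟩).2⟩)
    (fun i => by
      refine (hu1 _ (hjM i)).trans (le_of_eq ?_)
      congr 2
      ext y
      simp only [mem_filter, mem_univ, true_and]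
      exact (mem_cls1 y i).symm)
  have hF := Pool.Agent.H40.VC.FinalS.final (fun x y : L => x ⊓ y) cls cls1 e e1 he0.le he10.le
    (by linarith) K K1 gK g1K hA hB E hE2
  have hEpos : (0 : ℝ) < E.card := by
    rcases Nat.eq_zero_or_pos E.card with h0 | h0
    · exfalso
      rw [card_eq_zero] at h0
      rw [h0] at hE2
      simp only [notMem_empty, filter_false, card_empty, Nat.cast_zero] at hE2
      have : 0 < N ^ 2 / 4 := by positivity
      linarith
    · exact_mod_cast h0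
  have hlast : Real.log (1 / (48 * η)) ≤ Real.log (N / E.card) := by
    apply Real.log_le_log (by positivity)
    rw [div_le_div_iff₀ (by positivity) hEpos]
    have h1 : (E.card : ℝ) ≤ 16 * η * N := hE1
    nlinarith
  have h2 : 2 * e * Real.log (Fintype.card L) = 2 * e * Λ := rfl
  have h3 : 0 ≤ 2 * e * Real.log K := by positivity
  have h4 : (2 * e + 2 * e1) * Real.log K = 2 * e * Real.log K + 2 * e1 * Real.log K := by ring
  rw [h4] at hfin
  linarith

end Pool.Agent.H73.VcAsm
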